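import Pool.Agent.Work.MP_1ce445_stm.Interface

/-! # Block ADR: the bound for the sum of the special total domination numbers -/

namespace Pool.Agent.Work.MP_1ce445_stm

open Finset Pool.Agent.Work.MP_1ce445_co_56 Pool.Agent.Work.MP_1ce445_lin
  Pool.Agent.Work.MP_1ce445_fx

lemma ADR_dg_le {n : ℕ} (H : SimpleGraph (Fin n)) (Y : Finset (Fin n)) (v : Fin n) :
    dg H Y v ≤ dg H univ v := by
  classical
  unfold Pool.Agent.Work.MP_1ce445_fx.dg
  exact Finset.card_le_card (Finset.filter_subset_filter _ (Finset.subset_univ _))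

lemma ADR_dg_n {n : ℕ} (H : SimpleGraph (Fin n)) (Y : Finset (Fin n)) (v : Fin n) :
    dg H Y v ≤ n := by
  classical
  unfold Pool.Agent.Work.MP_1ce445_fx.dg
  refine (Finset.card_le_card (Finset.filter_subset _ _)).trans ?_
  simpa using Finset.card_le_univ Y

lemma ADR_x {n k M : ℕ} (G : Fin k → SimpleGraph (Fin n)) (e : Fin M → Fin k) (θ s : ℝ)
    (h : St G e θ s) (i : Fin M) (v : Fin n) (hv : v ∈ low (G (e i)) θ) :
    xx G e θ i v ≤ 2 * M * θ := by
  classical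
  have hM : (0 : ℝ) < M := by
    have := h.two
    exact_mod_cast (by omega : 0 < M)
  have hn : (0 : ℝ) < n := by exact_mod_cast h.pos
  have hθ := h.th
  have hb := h.big i
  have h3 : (0 : ℝ) < 3 * (n : ℝ) / (4 * M) := by positivity
  have hc : (0 : ℝ) < (hi (G (e i)) θ).card := lt_of_lt_of_le h3 hb
  unfold xx
  rw [div_le_iff₀ hc]
  have h1 : (dg (G (e i)) univ v : ℝ) < θ * n := by
    have := (Finset.mem_filter.mp hv).2
    exact this
  have h2 : (dg (G (e i)) (hi (G (e i)) θ) v : ℝ) ≤ dg (G (e i)) univ v := by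
    exact_mod_cast ADR_dg_le _ _ _
  have h4 : 2 * M * θ * (3 * (n : ℝ) / (4 * M)) ≤ 2 * M * θ * (hi (G (e i)) θ).card :=
    mul_le_mul_of_nonneg_left hb (by positivity)
  have h5 : 2 * M * θ * (3 * (n : ℝ) / (4 * M)) = 3 / 2 * (θ * n) := by
    field_simp
    ring
  have h6 : 0 < θ * n := by positivity
  linarith

lemma ADR_pow (r : ℕ) (x c : ℝ) (h1 : x ≤ 1) (hx : x ≤ c) (h0 : 0 ≤ x) :
    1 - r * c ≤ (1 - x) ^ r := by
  have h7 := one_add_mul_le_pow (show (-2 : ℝ) ≤ -x by linarith) r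
  have h8 : (1 : ℝ) + -x = 1 - x := by ring
  rw [h8] at h7
  have h9 : (r : ℝ) * x ≤ r * c := mul_le_mul_of_nonneg_left hx (Nat.cast_nonneg _)
  linarith

/-- Block ADR. -/
theorem stmt_ADR (hSUR : Stmt_SUR) (hGAI : Stmt_GAI) (hXBD : Stmt_XBD) (hERS : Stmt_ERS) :
    Stmt_ADR := by
  classical
  intro M r hM hr
  obtain ⟨K, hK, hE⟩ := hERS M r hr
  have hM0 : (1 : ℝ) ≤ M := by exact_mod_cast (by omega : 1 ≤ M)
  have hr0 : (1 : ℝ) ≤ r := by exact_mod_cast (by omega : 1 ≤ r)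
  set K1 : ℝ := 32 ^ r * K + 1 with hK1
  have hK0 : 0 ≤ 32 ^ r * K := by positivity
  have hK1' : 1 ≤ K1 := by linarith
  refine ⟨1 / (80 * K1 * M * r), by positivity, ?_⟩
  intro θ hθ hθ0
  refine ⟨θ / (100 * K1), by positivity, 1 / (20 * K1), by positivity, ?_⟩
  intro s hs hs0 n k G e hSt ht
  have hMr : 1 ≤ (M : ℝ) * r := by nlinarith
  have a1 : θ * (80 * K1 * M * r) ≤ 1 := by
    rw [le_div_iff₀ (by positivity)] at hθ0
    exact hθ0
  have a2 : 80 * K1 * θ ≤ 1 := by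
    have h : 80 * K1 * θ * 1 ≤ 80 * K1 * θ * ((M : ℝ) * r) :=
      mul_le_mul_of_nonneg_left hMr (by positivity)
    nlinarith
  have a3 : 8 * (M : ℝ) * r * θ ≤ 1 := by
    have h : 8 * (M : ℝ) * r * θ * 1 ≤ 8 * (M : ℝ) * r * θ * K1 :=
      mul_le_mul_of_nonneg_left hK1' (by positivity)
    have h' : 8 * (M : ℝ) * r * θ * K1 = (θ * (80 * K1 * M * r)) / 10 := by ring
    linarith
  have a4 : θ ≤ 1 / 80 := by nlinarith
  have a5 : s * (100 * K1) ≤ θ := by
    rw [le_div_iff₀ (by positivity)] at hs0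
    exact hs0
  have a6 : 4 * K1 * s ≤ θ := by nlinarith
  have a7 : 100 * K1 * s ≤ 1 := by linarith
  have a8 : s ≤ 1 / 100 := by nlinarith
  have hn : (0 : ℝ) < n := by exact_mod_cast hSt.pos
  have hδ : 20 * K1 * (1 / (20 * K1)) = 1 := by
    field_simp
  set δ : ℝ := 1 / (20 * K1) with hδd
  have hδ0 : 0 < δ := by positivity
  obtain ⟨hx01, hS1, hS2⟩ := hSUR n k M r G e θ s hSt
  have hne : Nonempty (Fin M × Fin n) := ⟨(⟨0, by omega⟩, ⟨0, hSt.pos⟩)⟩
  obtain ⟨⟨i0, z⟩, _, hmax⟩ := Finset.exists_max_image (univ : Finset (Fin M × Fin n))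
    (fun q => dg (G (e q.1)) (low (G (e q.1)) θ) q.2) Finset.univ_nonempty
  set Δ : ℕ := dg (G (e i0)) (low (G (e i0)) θ) z with hΔ
  have hall : ∀ i v, dg (G (e i)) (low (G (e i)) θ) v ≤ Δ := fun i v =>
    hmax (i, v) (Finset.mem_univ _)
  have hΔn : Δ ≤ n := ADR_dg_n _ _ _
  have g1 := hGAI n k M r Δ G e θ s hr hSt hall
  have g2 := hE n k Δ G e θ s δ hSt ht hΔn hall
  obtain ⟨g3, _⟩ := hXBD n k M G e θ s hSt
  have g4 := hSt.ovl
  have g5 : ∑ v, ∑ i, (1 - (1 - xx G e θ i v) ^ r) =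
      M * n - ∑ v, ∑ i, (1 - xx G e θ i v) ^ r := by
    simp only [Finset.sum_sub_distrib, Finset.sum_const, Finset.card_univ, Fintype.card_fin,
      nsmul_eq_mul, mul_one]
    ring
  rw [g5] at g1
  set Q : ℝ := ∑ v, ∑ i, (1 - xx G e θ i v) ^ r with hQ
  set X : ℝ := Xb G e θ with hX
  set O : ℝ := ((ov G e θ).card : ℝ) with hO
  have hO0 : 0 ≤ O := Nat.cast_nonneg _
  have hL0 : (0 : ℝ) ≤ Ls G e := Nat.cast_nonneg _
  have hΔ0 : (0 : ℝ) ≤ Δ := Nat.cast_nonneg _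
  set W : ℝ := δ + s * O + θ * Δ + s * Ls G e + θ * X with hW
  have hW0 : 0 ≤ W := by positivity
  have g6 : 32 ^ r * ∑ v, ev G e θ v ^ r ≤ K1 * W := by
    have h : (32 : ℝ) ^ r * ∑ v, ev G e θ v ^ r ≤ 32 ^ r * (K * W) :=
      mul_le_mul_of_nonneg_left g2 (by positivity)
    have h' : (32 : ℝ) ^ r * (K * W) ≤ K1 * W := by
      rw [hK1]
      nlinarith
    linarith
  have g7 : (Δ : ℝ) / n * O ≤ Δ * s := by
    rw [div_mul_eq_mul_div, div_le_iff₀ hn]
    have : (Δ : ℝ) * O ≤ Δ * (s * n) := mul_le_mul_of_nonneg_left g4 hΔ0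
    linarith
  have g8 : (Δ : ℝ) * s ≤ Δ * (1 / 100) := mul_le_mul_of_nonneg_left a8 hΔ0
  have g9 : K1 * (s * O) ≤ θ / 4 * O := by
    have : K1 * s * O ≤ θ / 4 * O := mul_le_mul_of_nonneg_right (by linarith) hO0
    linarith
  have g10 : K1 * (θ * Δ) ≤ 1 / 80 * Δ := by
    have : K1 * θ * Δ ≤ 1 / 80 * Δ := mul_le_mul_of_nonneg_right (by linarith) hΔ0
    linarith
  have g11 : K1 * (s * Ls G e) ≤ 1 / 100 * Ls G e := by
    have : K1 * s * Ls G e ≤ 1 / 100 * Ls G e := mul_le_mul_of_nonneg_right (by linarith) hL0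
    linarith
  have g12 : K1 * (θ * X) ≤ 1 / 80 * X := by
    have : K1 * θ * X ≤ 1 / 80 * X := mul_le_mul_of_nonneg_right (by linarith) g3
    linarith
  have g13 : K1 * W = K1 * δ + K1 * (s * O) + K1 * (θ * Δ) + K1 * (s * Ls G e) +
      K1 * (θ * X) := by
    rw [hW]
    ring
  have g14 : (θ - Δ / n) / 4 * O = θ / 4 * O - (Δ : ℝ) / n * O / 4 := by ring
  have main : Q ≤ (M - 1) * n + 1 / 20 + Δ / 40 + Ls G e / 100 := by
    rw [g14] at g1
    linarith
  by_cases hc : Δ ≤ 1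
  · have hc' : (Δ : ℝ) ≤ 1 := by exact_mod_cast hc
    linarith
  · have hΔ2 : (2 : ℝ) ≤ Δ := by exact_mod_cast (by omega : 2 ≤ Δ)
    have h5 := hS2 i0 z
    have h6 : (Δ : ℝ) * (3 / 4) ≤ ∑ v ∈ nb (G (e i0)) z, (1 - xx G e θ i0 v) ^ r := by
      have hsub : (low (G (e i0)) θ).filter (fun w => (G (e i0)).Adj z w) ⊆
          nb (G (e i0)) z := by
        intro w hw
        unfold Pool.Agent.Work.MP_1ce445_fx.nb
        rw [Finset.mem_filter] at hw ⊢
        exact ⟨Finset.mem_univ _, hw.2⟩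
      have h7 : ∑ v ∈ (low (G (e i0)) θ).filter (fun w => (G (e i0)).Adj z w),
          (1 - xx G e θ i0 v) ^ r ≤ ∑ v ∈ nb (G (e i0)) z, (1 - xx G e θ i0 v) ^ r := by
        apply Finset.sum_le_sum_of_subset_of_nonneg hsub
        intro v _ _
        exact pow_nonneg (by linarith [(hx01 i0 v).2]) r
      refine le_trans ?_ h7
      have h8 : ∀ v ∈ (low (G (e i0)) θ).filter (fun w => (G (e i0)).Adj z w),
          3 / 4 ≤ (1 - xx G e θ i0 v) ^ r := by
        intro v hv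
        have hv1 := (Finset.mem_filter.mp hv).1
        have hx := ADR_x G e θ s hSt i0 v hv1
        have := ADR_pow r _ _ (hx01 i0 v).2 hx (hx01 i0 v).1
        have h' : (r : ℝ) * (2 * M * θ) ≤ 1 / 4 := by linarith
        linarith
      have h9 := Finset.card_nsmul_le_sum _ _ _ h8
      rw [nsmul_eq_mul] at h9
      have h10 : ((low (G (e i0)) θ).filter (fun w => (G (e i0)).Adj z w)).card = Δ := by
        rw [hΔ]
        unfold Pool.Agent.Work.MP_1ce445_fx.dg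
        congr
      rw [h10] at h9
      exact h9
    linarith

end Pool.Agent.Work.MP_1ce445_stm
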