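import Pool.Agent.Work.MP_1ce445_stm.Interface

/-!
Block EMO of the second staircase: moments of `EE`.
-/

namespace Pool.Agent.Work.MP_1ce445_stm

open Finset Pool.Agent.Work.MP_1ce445_co_56 Pool.Agent.Work.MP_1ce445_lin
  Pool.Agent.Work.MP_1ce445_fx

/-- one colour: `∑_v (dg - 1) ≤ 3 s²` -/
theorem EMO_one (hDG : MP_1ce445_fx.Stmt_DG2) {n : ℕ} (H : SimpleGraph (Fin n))
    (h : ∀ v, ∃ w, H.Adj v w) :
    (∀ v, dg H univ v - 1 ≤ n - gammaT H) ∧
      ∑ v, (dg H univ v - 1) ≤ 3 * (n - gammaT H) ^ 2 := by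
  classical
  obtain ⟨h1, h2⟩ := hDG n H h
  have h3 : ∀ v, dg H univ v - 1 ≤ n - gammaT H := by
    intro v
    have := h1 v
    omega
  refine ⟨h3, ?_⟩
  calc ∑ v, (dg H univ v - 1)
      ≤ ∑ v, (if 2 ≤ dg H univ v then (n - gammaT H) else 0) := by
        refine sum_le_sum fun v _ => ?_
        split_ifs with hv
        · exact h3 v
        · omega
    _ = (univ.filter (fun v => 2 ≤ dg H univ v)).card * (n - gammaT H) := by
        rw [← sum_filter, sum_const, smul_eq_mul]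
    _ ≤ (3 * (n - gammaT H)) * (n - gammaT H) := Nat.mul_le_mul_right _ h2
    _ = 3 * (n - gammaT H) ^ 2 := by ring

theorem stmt_EMO : MP_1ce445_fx.Stmt_DG2 → Stmt_EMO := by
  intro hDG n k M G e hG
  have hone : ∀ l, (∀ v, dg (G l) univ v - 1 ≤ n - gammaT (G l)) ∧
      ∑ v, (dg (G l) univ v - 1) ≤ 3 * (n - gammaT (G l)) ^ 2 :=
    fun l => EMO_one hDG (G l) (hG.minDeg l)
  have h1 : ∀ v, EE G e v ≤ Ls G e := by
    intro v
    unfold EE Ls
    exact sum_le_sum fun l _ => (hone l).1 v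
  have hsq : ∑ l ∈ ot e, (n - gammaT (G l)) ^ 2 ≤ Ls G e ^ 2 := by
    unfold Ls
    calc ∑ l ∈ ot e, (n - gammaT (G l)) ^ 2
        ≤ ∑ l ∈ ot e, (n - gammaT (G l)) * ∑ l' ∈ ot e, (n - gammaT (G l')) := by
          refine sum_le_sum fun l hl => ?_
          rw [sq]
          exact Nat.mul_le_mul_left _ (single_le_sum (f := fun l => n - gammaT (G l))
            (fun _ _ => Nat.zero_le _) hl)
      _ = (∑ l ∈ ot e, (n - gammaT (G l))) ^ 2 := by
          rw [← sum_mul, sq]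
  have h2 : ∑ v, EE G e v ≤ 3 * Ls G e ^ 2 := by
    calc ∑ v, EE G e v = ∑ l ∈ ot e, ∑ v, (dg (G l) univ v - 1) := by
          unfold EE
          exact sum_comm
      _ ≤ ∑ l ∈ ot e, 3 * (n - gammaT (G l)) ^ 2 := sum_le_sum fun l _ => (hone l).2
      _ = 3 * ∑ l ∈ ot e, (n - gammaT (G l)) ^ 2 := by rw [mul_sum]
      _ ≤ 3 * Ls G e ^ 2 := Nat.mul_le_mul_left _ hsq
  refine ⟨h1, h2, ?_⟩
  intro r hr
  obtain ⟨q, rfl⟩ : ∃ q, r = q + 1 := ⟨r - 1, by omega⟩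
  calc ∑ v, EE G e v ^ (q + 1) ≤ ∑ v, Ls G e ^ q * EE G e v := by
        refine sum_le_sum fun v _ => ?_
        rw [pow_succ]
        exact Nat.mul_le_mul_right _ (Nat.pow_le_pow_left (h1 v) q)
    _ = Ls G e ^ q * ∑ v, EE G e v := by rw [mul_sum]
    _ ≤ Ls G e ^ q * (3 * Ls G e ^ 2) := Nat.mul_le_mul_left _ h2
    _ = 3 * Ls G e ^ (q + 1 + 1) := by ring

end Pool.Agent.Work.MP_1ce445_stm
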