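import Pool.Agent.Work.MP_1ce445_stm.Interface

/-!
Block PRR: the product of the total domination numbers.
-/

set_option autoImplicit false

namespace Pool.Agent.Work.MP_1ce445_stm

open Finset Pool.Agent.Work.MP_1ce445_co_56 Pool.Agent.Work.MP_1ce445_lin
  Pool.Agent.Work.MP_1ce445_fx

theorem PRR_ot {k M : ℕ} (e : Fin M → Fin k) : ot e = univ \ univ.image e := by
  ext l
  unfold ot
  simp only [mem_filter, mem_univ, true_and, mem_sdiff, mem_image, not_exists]
  constructor
  · intro h i hi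
    exact h i hi.symm
  · intro h i hi
    exact h i hi.symm

theorem PRR_card {k M : ℕ} {e : Fin M → Fin k} (he : Function.Injective e) :
    (ot e).card = k - M := by
  rw [PRR_ot, card_sdiff_of_subset (subset_univ _), card_image_of_injective _ he, card_univ,
    card_univ, Fintype.card_fin, Fintype.card_fin]

theorem PRR_split {k M : ℕ} {e : Fin M → Fin k} (he : Function.Injective e) (f : Fin k → ℝ) :
    ∏ l, f l = (∏ i, f (e i)) * ∏ l ∈ ot e, f l := by
  rw [PRR_ot, ← prod_image (s := univ) (g := e) (f := f) (fun a _ b _ h => he h), mul_comm]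
  exact (prod_sdiff (subset_univ _)).symm

theorem stmt_PRR : Stmt_PRR := by
  intro k n M γ e A R hn _ he hA _ hγ hsum
  have hn' : (0 : ℝ) < n := by exact_mod_cast hn
  rw [PRR_split he]
  have h1 : ∏ i, (γ (e i) : ℝ) ≤ A ^ M * Real.exp (R / A) := by
    have h2 : ∀ i, (γ (e i) : ℝ) ≤ A * Real.exp ((γ (e i) : ℝ) / A - 1) := by
      intro i
      have h3 := Real.add_one_le_exp ((γ (e i) : ℝ) / A - 1)
      have h4 : A * ((γ (e i) : ℝ) / A) = γ (e i) := by field_simp
      have h5 := mul_le_mul_of_nonneg_left h3 hA.le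
      linarith
    calc ∏ i, (γ (e i) : ℝ) ≤ ∏ i, (A * Real.exp ((γ (e i) : ℝ) / A - 1)) :=
          prod_le_prod (fun i _ => Nat.cast_nonneg _) (fun i _ => h2 i)
      _ = A ^ M * Real.exp (∑ i, ((γ (e i) : ℝ) / A - 1)) := by
          rw [prod_mul_distrib, prod_const, card_univ, Fintype.card_fin, Real.exp_sum]
      _ ≤ A ^ M * Real.exp (R / A) := by
          refine mul_le_mul_of_nonneg_left (Real.exp_le_exp.2 ?_) (pow_nonneg hA.le _)
          rw [sum_sub_distrib, ← sum_div, sum_const, card_univ, Fintype.card_fin, nsmul_eq_mul,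
            mul_one]
          have h6 : (∑ i, (γ (e i) : ℝ)) / A ≤ (M * A + R) / A :=
            div_le_div_of_nonneg_right hsum hA.le
          have h7 : (M * A + R) / A = M + R / A := by field_simp
          linarith
  have h8 : ∏ l ∈ ot e, (γ l : ℝ) ≤
      (n : ℝ) ^ (k - M) * Real.exp (-((∑ l ∈ ot e, ((n : ℝ) - γ l)) / n)) := by
    have h9 : ∀ l, (γ l : ℝ) ≤ n * Real.exp (-(((n : ℝ) - γ l) / n)) := by
      intro l
      have h3 := Real.add_one_le_exp (-(((n : ℝ) - γ l) / n))
      have h4 : (n : ℝ) * (((n : ℝ) - γ l) / n) = n - γ l := by field_simp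
      have h5 := mul_le_mul_of_nonneg_left h3 hn'.le
      linarith
    calc ∏ l ∈ ot e, (γ l : ℝ) ≤ ∏ l ∈ ot e, (n * Real.exp (-(((n : ℝ) - γ l) / n))) :=
          prod_le_prod (fun i _ => Nat.cast_nonneg _) (fun i _ => h9 i)
      _ = (n : ℝ) ^ (k - M) * Real.exp (-((∑ l ∈ ot e, ((n : ℝ) - γ l)) / n)) := by
          rw [prod_mul_distrib, prod_const, PRR_card he, ← Real.exp_sum, sum_neg_distrib, sum_div]
  calc (∏ i, (γ (e i) : ℝ)) * ∏ l ∈ ot e, (γ l : ℝ)
      ≤ (A ^ M * Real.exp (R / A)) *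
        ((n : ℝ) ^ (k - M) * Real.exp (-((∑ l ∈ ot e, ((n : ℝ) - γ l)) / n))) :=
        mul_le_mul h1 h8 (prod_nonneg fun i _ => Nat.cast_nonneg _) (by positivity)
    _ = (n : ℝ) ^ (k - M) * A ^ M *
        Real.exp (R / A - (∑ l ∈ ot e, ((n : ℝ) - γ l)) / n) := by
        rw [sub_eq_add_neg, Real.exp_add]
        ring

end Pool.Agent.Work.MP_1ce445_stm
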