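import Pool.Agent.Work.MP_1ce445_stm.DEG
import Pool.Agent.Work.MP_1ce445_stm.PRR

/-!
Block STB: from STA to the situation `St`.
-/

namespace Pool.Agent.Work.MP_1ce445_stm

open Finset Pool.Agent.Work.MP_1ce445_co_56 Pool.Agent.Work.MP_1ce445_lin
  Pool.Agent.Work.MP_1ce445_fx

theorem STB_le {n k : ℕ} {G : Fin k → SimpleGraph (Fin n)} (hG : IsFactorization G) (l : Fin k) :
    gammaT (G l) ≤ n := by
  have h := gammaT_le_univ (hG.minDeg l)
  rwa [Fintype.card_fin] at h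

/-- the loss of the other colours is small -/
theorem STB_loss {n k M : ℕ} (hM : 2 ≤ M) {G : Fin k → SimpleGraph (Fin n)} {e : Fin M → Fin k}
    (hn : 0 < n) (hG : IsFactorization G) (he : Function.Injective e) {κ : ℝ} (hκ : 0 < κ)
    (hg : ∀ i, (gammaT (G (e i)) : ℝ) ≤ (1 - 1 / M + κ) * n)
    (hp : (1 - 1 / (M : ℝ)) ^ M * (n : ℝ) ^ k ≤ ∏ j, (gammaT (G j) : ℝ)) :
    (Ls G e : ℝ) ≤ 2 * M * κ * n := by
  have hn' : (0 : ℝ) < n := by exact_mod_cast hn
  have hM2 : (2 : ℝ) ≤ M := by exact_mod_cast hM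
  have hM0 : (0 : ℝ) < M := by linarith
  have hMk : M ≤ k := by simpa using Fintype.card_le_of_injective e he
  have hinv : 1 / (M : ℝ) ≤ 1 / 2 := one_div_le_one_div_of_le (by norm_num) hM2
  set p : ℝ := 1 - 1 / (M : ℝ) with hpdef
  have hp2 : 1 / 2 ≤ p := by linarith
  have hp0 : 0 < p := by linarith
  have h := stmt_PRR k n M (fun l => gammaT (G l)) e (p * n) (M * κ * n) hn (by omega) he
    (by positivity) (by positivity) (fun l => STB_le hG l) (by
      calc (∑ i, (gammaT (G (e i)) : ℝ)) ≤ ∑ _i : Fin M, (p + κ) * n :=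
            sum_le_sum (fun i _ => hg i)
        _ = M * (p * n) + M * κ * n := by
            rw [sum_const, card_univ, Fintype.card_fin, nsmul_eq_mul]
            ring)
  have hLs : (Ls G e : ℝ) = ∑ l ∈ ot e, ((n : ℝ) - gammaT (G l)) := by
    unfold Ls
    rw [Nat.cast_sum]
    apply sum_congr rfl
    intro l _
    rw [Nat.cast_sub (STB_le hG l)]
  rw [← hLs] at h
  have h1 := hp.trans h
  have h2 : (n : ℝ) ^ (k - M) * (p * n) ^ M = p ^ M * (n : ℝ) ^ k := by
    rw [mul_pow, ← mul_assoc, mul_comm ((n : ℝ) ^ (k - M)) (p ^ M), mul_assoc, ← pow_add,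
      Nat.sub_add_cancel hMk]
  rw [h2] at h1
  have h3 : 0 < p ^ M * (n : ℝ) ^ k := by positivity
  have h4 : 1 ≤ Real.exp (M * κ * n / (p * n) - (Ls G e : ℝ) / n) := by
    by_contra hlt
    push Not at hlt
    have := mul_lt_mul_of_pos_left hlt h3
    linarith
  rw [Real.one_le_exp_iff] at h4
  have h5 : (M : ℝ) * κ * n / (p * n) ≤ 2 * M * κ := by
    rw [div_le_iff₀ (by positivity)]
    have h6 : 0 < (M : ℝ) * κ * n := by positivity
    have h7 : (M : ℝ) * κ * n * 1 ≤ M * κ * n * (2 * p) :=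
      mul_le_mul_of_nonneg_left (by linarith) h6.le
    nlinarith
  have h6 : (Ls G e : ℝ) / n ≤ 2 * M * κ := by linarith
  rwa [div_le_iff₀ hn'] at h6

theorem stmt_STB : Stmt_DEG → Stmt_EMO → Stmt_STA → Stmt_STB := by
  intro hDEG hEMO hSTA M hM θ s hθ hθ' hs hs'
  classical
  have hM2 : (2 : ℝ) ≤ M := by exact_mod_cast hM
  have hM0 : (0 : ℝ) < M := by linarith
  obtain ⟨κ, hκ, hκs, hκM, hκ3⟩ : ∃ κ : ℝ, 0 < κ ∧ 4 * M * κ ≤ s ∧ 4 * (M : ℝ) ^ 2 * κ ≤ 1 ∧
      96 * (M : ℝ) ^ 3 * κ ≤ 1 := by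
    have hs1 : s ≤ 1 := by nlinarith
    have e1 : 96 * (M : ℝ) ^ 3 * (s / (96 * (M : ℝ) ^ 3)) = s := by field_simp
    have h0 : 0 < s / (96 * (M : ℝ) ^ 3) := by positivity
    refine ⟨s / (96 * (M : ℝ) ^ 3), h0, ?_, ?_, ?_⟩
    · refine le_trans (mul_le_mul_of_nonneg_right ?_ h0.le) e1.le
      have : (4 : ℝ) ≤ M ^ 2 := by nlinarith
      nlinarith
    · have h1 : 4 * (M : ℝ) ^ 2 ≤ 96 * (M : ℝ) ^ 3 := by
        have : (0 : ℝ) ≤ M ^ 2 := by positivity
        nlinarith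
      have h2 := mul_le_mul_of_nonneg_right h1 h0.le
      linarith
    · linarith
  obtain ⟨δ₁, hδ₁, n0, hST⟩ := hSTA M hM θ κ hθ hκ
  refine ⟨min δ₁ (1 / (4 * M)), lt_min hδ₁ (by positivity), max n0 1, ?_⟩
  intro n k hn heven htt0 htt hkn G hG hprod
  have hn0 : 0 < n := lt_of_lt_of_le one_pos ((le_max_right _ _).trans hn)
  have hn' : (0 : ℝ) < n := by exact_mod_cast hn0
  have hmin1 : tt n k M ≤ δ₁ * n :=
    htt.trans (mul_le_mul_of_nonneg_right (min_le_left _ _) hn'.le)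
  have hmin2 : tt n k M ≤ 1 / (4 * M) * n :=
    htt.trans (mul_le_mul_of_nonneg_right (min_le_right _ _) hn'.le)
  obtain ⟨e, he, hg, hhi, hov⟩ := hST n k ((le_max_left _ _).trans hn) heven htt0 hmin1 hkn G hG
    hprod
  have hLs := STB_loss hM hn0 hG he hκ hg hprod
  obtain ⟨y, hy⟩ : ∃ y : ℝ, y = (n : ℝ) / M := ⟨_, rfl⟩
  have hyn : (n : ℝ) = M * y := by
    rw [hy]
    field_simp
  have hy0 : 0 < y := by
    rw [hy]
    positivity
  have h4M : 1 / (4 * (M : ℝ)) * n = y / 4 := by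
    rw [hy]
    field_simp
  -- the vertices in no set `hi`
  set R0 : Finset (Fin n) := univ.filter (fun v => ∀ i, v ∉ hi (G (e i)) θ) with hR0
  have hEE : ∀ v ∈ R0, y / 2 ≤ (EE G e v : ℝ) := by
    intro v hv
    rw [hR0, mem_filter] at hv
    have h1 := hDEG n k M G e θ hG he v
    have h2 : ∑ i, dg (G (e i)) univ v = ∑ i, dg (G (e i)) (hi (G (e i)) θ) v + dd G e θ v := by
      unfold dd
      rw [← sum_add_distrib]
      exact sum_congr rfl fun i _ => DEG_split _ _ _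
    rw [← h2] at h1
    have h3 : (∑ i, (dg (G (e i)) univ v : ℝ)) ≤ M * (θ * n) := by
      calc (∑ i, (dg (G (e i)) univ v : ℝ)) ≤ ∑ _i : Fin M, θ * n := by
            apply sum_le_sum
            intro i _
            have h4 := hv.2 i
            unfold hi at h4
            simp only [mem_filter, mem_univ, true_and, not_le] at h4
            exact h4.le
        _ = M * (θ * n) := by
            rw [sum_const, card_univ, Fintype.card_fin, nsmul_eq_mul]
    have h4 : (∑ i, (dg (G (e i)) univ v : ℝ)) + EE G e v + k + 1 = n + M := by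
      exact_mod_cast h1
    have h5 : (M : ℝ) * (θ * n) ≤ y / 4 := by
      have h6 : 4 * (M : ℝ) ^ 2 * θ * y ≤ 1 * y := mul_le_mul_of_nonneg_right hθ' hy0.le
      rw [hyn]
      nlinarith
    unfold tt at hmin2
    rw [h4M, ← hy] at hmin2
    linarith
  have hR0c : (R0.card : ℝ) ≤ κ * n := by
    have h1 : (R0.card : ℝ) * (y / 2) ≤ ∑ v ∈ R0, (EE G e v : ℝ) := by
      rw [← nsmul_eq_mul]
      exact card_nsmul_le_sum _ _ _ hEE
    have h2 : ∑ v ∈ R0, (EE G e v : ℝ) ≤ ∑ v, (EE G e v : ℝ) :=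
      sum_le_sum_of_subset_of_nonneg (subset_univ _) (fun v _ _ => Nat.cast_nonneg _)
    have h3 : (∑ v, (EE G e v : ℝ)) ≤ 3 * (Ls G e : ℝ) ^ 2 := by
      exact_mod_cast (hEMO n k M G e hG).2.1
    have h4 : (Ls G e : ℝ) ^ 2 ≤ (2 * M * κ * n) ^ 2 :=
      pow_le_pow_left₀ (Nat.cast_nonneg _) hLs 2
    have h5 : (R0.card : ℝ) * (y / 2) ≤ (24 * (M : ℝ) ^ 3 * κ * (κ * n)) * (y / 2) := by
      calc (R0.card : ℝ) * (y / 2) ≤ 3 * (2 * M * κ * n) ^ 2 := by linarith
        _ = (24 * (M : ℝ) ^ 2 * κ * (κ * n)) * (n / 2) := by ring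
        _ = (24 * (M : ℝ) ^ 2 * κ * (κ * n)) * (M * y / 2) := by rw [← hyn]
        _ = (24 * (M : ℝ) ^ 3 * κ * (κ * n)) * (y / 2) := by ring
    have h6 : (R0.card : ℝ) ≤ 24 * (M : ℝ) ^ 3 * κ * (κ * n) :=
      le_of_mul_le_mul_right h5 (by positivity)
    have h7 : 24 * (M : ℝ) ^ 3 * κ * (κ * n) ≤ 1 * (κ * n) :=
      mul_le_mul_of_nonneg_right (by linarith) (by positivity)
    linarith
  have hcov : ∀ j : Fin M, (n : ℝ) ≤ R0.card + (hi (G (e j)) θ).card +
      ∑ i ∈ univ.erase j, ((hi (G (e i)) θ).card : ℝ) := by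
    intro j
    have h1 : (univ : Finset (Fin n)) ⊆ R0 ∪ univ.biUnion (fun i => hi (G (e i)) θ) := by
      intro v _
      rw [mem_union, mem_biUnion]
      by_cases h : ∃ i, v ∈ hi (G (e i)) θ
      · obtain ⟨i, hi⟩ := h
        exact Or.inr ⟨i, mem_univ _, hi⟩
      · left
        rw [hR0, mem_filter]
        exact ⟨mem_univ _, fun i hi => h ⟨i, hi⟩⟩
    have h2 := (card_le_card h1).trans (card_union_le _ _)
    have h3 : (univ.biUnion (fun i => hi (G (e i)) θ)).card ≤ ∑ i, (hi (G (e i)) θ).card :=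
      card_biUnion_le
    rw [card_univ, Fintype.card_fin] at h2
    have h4 : ∑ i, (hi (G (e i)) θ).card = (hi (G (e j)) θ).card +
        ∑ i ∈ univ.erase j, (hi (G (e i)) θ).card := (add_sum_erase _ _ (mem_univ j)).symm
    have h5 : n ≤ R0.card + (hi (G (e j)) θ).card +
        ∑ i ∈ univ.erase j, (hi (G (e i)) θ).card := by omega
    exact_mod_cast h5
  refine ⟨e, ⟨hM, hn0, hG, he, hθ, hθ', hs, hs', htt0, ?_, ?_, ?_⟩⟩
  · intro j
    have h1 := hcov j
    have h2 : (∑ i ∈ univ.erase j, ((hi (G (e i)) θ).card : ℝ)) ≤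
        ((M : ℝ) - 1) * ((1 / M + κ) * n) := by
      calc (∑ i ∈ univ.erase j, ((hi (G (e i)) θ).card : ℝ))
          ≤ ∑ _i ∈ univ.erase j, (1 / (M : ℝ) + κ) * n := sum_le_sum (fun i _ => hhi i)
        _ = ((M : ℝ) - 1) * ((1 / M + κ) * n) := by
            rw [sum_const, card_erase_of_mem (mem_univ j), card_univ, Fintype.card_fin,
              nsmul_eq_mul, Nat.cast_sub (by omega)]
            simp
    have h3 : (1 / (M : ℝ) + κ) * n = y + κ * n := by
      rw [hy]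
      ring
    have h4 : 3 * (n : ℝ) / (4 * M) = 3 / 4 * y := by
      rw [hy]
      field_simp
    have h5 : (M : ℝ) * (κ * n) ≤ y / 4 := by
      have h6 : 4 * (M : ℝ) ^ 2 * κ * y ≤ 1 * y := mul_le_mul_of_nonneg_right hκM hy0.le
      rw [hyn]
      nlinarith
    rw [h3] at h2
    rw [h4]
    have h6 : ((M : ℝ) - 1) * (y + κ * n) = n - y + M * (κ * n) - κ * n := by
      rw [hyn]
      ring
    rw [h6] at h2
    linarith
  · refine hov.trans (mul_le_mul_of_nonneg_right ?_ hn'.le)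
    nlinarith
  · refine hLs.trans (mul_le_mul_of_nonneg_right ?_ hn'.le)
    nlinarith

end Pool.Agent.Work.MP_1ce445_stm
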