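import Pool.Agent.Work.MP_1ce445_stm.Interface
import Pool.Agent.Work.MP_1ce445_sm.UP3

/-!
# Block STA: stability of factorizations with a large product at `k = (1 - 1/M) n + t`
-/

namespace Pool.Agent.Work.MP_1ce445_stm

open Finset Pool.Agent.Work.MP_1ce445_co_56 Pool.Agent.Work.MP_1ce445_lin
  Pool.Agent.Work.MP_1ce445_fx

/-- the constants -/
theorem STA_const {θ κ η : ℝ} (hθ : 0 < θ) (hκ : 0 < κ) (hη : 0 < η) :
    ∃ u t : ℝ, ∃ R : ℕ, ∃ K : ℕ, 0 < u ∧ u ≤ 1 ∧ u ≤ η / 4 ∧ (u ^ 2 / 30) ^ 2 ≤ θ ∧ 0 < t ∧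
      t ≤ κ / 2 ∧ 5 / (u ^ 2 / 30) ≤ K ∧ (1 + t) ^ K < 1 + η ∧
      (1 - (u ^ 2 / 30) ^ 2) ^ R < t / 2 := by
  obtain ⟨u, hu0, hu1, huη, huθ⟩ : ∃ u : ℝ, 0 < u ∧ u ≤ 1 ∧ u ≤ η / 4 ∧ u ≤ θ :=
    ⟨min (min 1 (η / 4)) θ, by positivity, (min_le_left _ _).trans (min_le_left _ _),
      (min_le_left _ _).trans (min_le_right _ _), min_le_right _ _⟩
  set τ : ℝ := u ^ 2 / 30 with hτ
  have hτ0 : 0 < τ := by positivity
  have hτu : τ ≤ u := by
    rw [hτ]
    nlinarith
  have hτ1 : τ ≤ 1 := hτu.trans hu1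
  have hτ2 : τ ^ 2 ≤ θ := by
    have h3 : τ * τ ≤ τ * 1 := mul_le_mul_of_nonneg_left hτ1 hτ0.le
    rw [sq]
    linarith
  obtain ⟨K, hK⟩ := exists_nat_ge (5 / τ)
  obtain ⟨t, ht0, htκ, hft⟩ : ∃ t : ℝ, 0 < t ∧ t ≤ κ / 2 ∧ (1 + t) ^ K < 1 + η := by
    obtain ⟨t, ht0, hft⟩ := Pool.Agent.Work.MP_1ce445_sm.UP3_small
      (f := fun t : ℝ => (1 + t) ^ K) (by fun_prop) (c := 1 + η) (by
        simp only [add_zero, one_pow]
        linarith)
    exact ⟨min t (κ / 2), by positivity, min_le_right _ _, hft _ (by positivity)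
      (min_le_left _ _)⟩
  obtain ⟨R, hR⟩ : ∃ R : ℕ, (1 - τ ^ 2) ^ R < t / 2 := by
    apply exists_pow_lt_of_lt_one (by positivity)
    have : 0 < τ ^ 2 := by positivity
    linarith
  exact ⟨u, t, R, K, hu0, hu1, huη, hτ2, ht0, htκ, hK, hft, hR⟩

theorem STA_mem {n k : ℕ} (G : Fin k → SimpleGraph (Fin n)) (M : Finset (Fin k)) (d : ℝ)
    (v : Fin n) (j : Fin k) :
    j ∈ thk G M d v ↔ j ∈ M ∧ d * n ≤ (dg (G j) univ v : ℝ) := by
  unfold thk
  rw [mem_filter]

/-- `(1 - 1/M)^M > exp (-4)` -/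
theorem STA_exp {M : ℕ} (hM : 2 ≤ M) : Real.exp (-4) < (1 - 1 / (M : ℝ)) ^ M := by
  have hM2 : (2 : ℝ) ≤ M := by exact_mod_cast hM
  have h1 : (1 : ℝ) - 1 / M = (M - 1) / M := by
    field_simp
  have h2 : Real.exp (-(1 / ((M : ℝ) - 1))) ≤ 1 - 1 / (M : ℝ) := by
    rw [Real.exp_neg, h1]
    have h3 := Real.add_one_le_exp (1 / ((M : ℝ) - 1))
    have h4 : (1 / ((M : ℝ) - 1)) + 1 = M / (M - 1) := by
      have : (M : ℝ) - 1 ≠ 0 := by linarith
      field_simp
      ring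
    rw [h4] at h3
    have h5 : (0 : ℝ) < M / (M - 1) := div_pos (by linarith) (by linarith)
    have h6 := inv_anti₀ h5 h3
    rwa [inv_div] at h6
  have h3 := pow_le_pow_left₀ (Real.exp_pos _).le h2 M
  refine lt_of_lt_of_le ?_ h3
  rw [← Real.exp_nat_mul, Real.exp_lt_exp]
  have h4 : (M : ℝ) * (1 / ((M : ℝ) - 1)) ≤ 2 := by
    rw [mul_one_div, div_le_iff₀ (by linarith)]
    linarith
  have h5 : (M : ℝ) * -(1 / ((M : ℝ) - 1)) = -((M : ℝ) * (1 / ((M : ℝ) - 1))) := by ring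
  rw [h5]
  linarith

/-- `∏ (a_j + t) ≤ ∏ a_j + (1 + t)^|A| - 1` -/
theorem STA_prod {k : ℕ} (A : Finset (Fin k)) (a : Fin k → ℝ) {t : ℝ} (ht : 0 ≤ t)
    (ha0 : ∀ j, 0 ≤ a j) (ha1 : ∀ j, a j ≤ 1) :
    ∏ j ∈ A, (a j + t) ≤ ∏ j ∈ A, a j + ((1 + t) ^ A.card - 1) := by
  classical
  induction A using Finset.induction_on with
  | empty => simp
  | insert x s hx ih =>
    rw [prod_insert hx, prod_insert hx, card_insert_of_notMem hx]
    have h1 : ∏ j ∈ s, (a j + t) ≤ (1 + t) ^ s.card := by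
      rw [← prod_const]
      apply prod_le_prod
      · intro j _
        have := ha0 j
        positivity
      · intro j _
        have := ha1 j
        linarith
    have h0 : 0 ≤ ∏ j ∈ s, (a j + t) := prod_nonneg fun j _ => by
      have := ha0 j
      positivity
    have h2 : a x * ∏ j ∈ s, (a j + t) ≤ a x * (∏ j ∈ s, a j + ((1 + t) ^ s.card - 1)) :=
      mul_le_mul_of_nonneg_left ih (ha0 x)
    have h3 : t * ∏ j ∈ s, (a j + t) ≤ t * (1 + t) ^ s.card := mul_le_mul_of_nonneg_left h1 ht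
    have h4 : (1 : ℝ) ≤ (1 + t) ^ s.card := one_le_pow₀ (by linarith)
    have h5 : a x * ((1 + t) ^ s.card - 1) ≤ 1 * ((1 + t) ^ s.card - 1) :=
      mul_le_mul_of_nonneg_right (ha1 x) (by linarith)
    have h6 : (1 + t) ^ (s.card + 1) = (1 + t) ^ s.card + t * (1 + t) ^ s.card := by ring
    rw [h6]
    linarith

/-- the vertices `w` whose set meets `T v` -/
theorem STA_cnt {n k : ℕ} (hn : 0 < n) (T : Fin n → Finset (Fin k)) (v : Fin n) :
    ((univ.filter (fun w => T v ∩ T w ≠ ∅)).card : ℝ) ≤ n * ∑ x ∈ T v, pT T x := by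
  have hnR : (0 : ℝ) < n := by exact_mod_cast hn
  have h1 : univ.filter (fun w => T v ∩ T w ≠ ∅) ⊆
      (T v).biUnion (fun x => univ.filter (fun w => x ∈ T w)) := by
    intro w hw
    have hw2 := (mem_filter.1 hw).2
    obtain ⟨x, hx⟩ := Finset.nonempty_iff_ne_empty.2 hw2
    rw [mem_inter] at hx
    rw [mem_biUnion]
    exact ⟨x, hx.1, mem_filter.2 ⟨mem_univ _, hx.2⟩⟩
  have h2 := (card_le_card h1).trans card_biUnion_le
  have h3 : ((univ.filter (fun w => T v ∩ T w ≠ ∅)).card : ℝ) ≤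
      ∑ x ∈ T v, ((univ.filter (fun w => x ∈ T w)).card : ℝ) := by
    exact_mod_cast h2
  refine h3.trans (le_of_eq ?_)
  rw [mul_sum]
  apply sum_congr rfl
  intro x _
  unfold pT
  field_simp

theorem stmt_STA (h1 : Stmt_CR3) (h2 : Stmt_SET) : Stmt_STA := by
  intro M hM θ κ hθ hκ
  have hM2 : (2 : ℝ) ≤ M := by exact_mod_cast hM
  have hM0 : (0 : ℝ) < M := by linarith
  obtain ⟨κ', hκ0, hκ2, hκM⟩ : ∃ κ' : ℝ, 0 < κ' ∧ κ' ≤ κ / 2 ∧ 4 * (M : ℝ) ^ 2 * κ' ≤ 1 := by
    refine ⟨min (κ / 2) (1 / (4 * (M : ℝ) ^ 2)), by positivity, min_le_left _ _, ?_⟩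
    have h3 : min (κ / 2) (1 / (4 * (M : ℝ) ^ 2)) ≤ 1 / (4 * (M : ℝ) ^ 2) := min_le_right _ _
    have h4 : 4 * (M : ℝ) ^ 2 * (1 / (4 * (M : ℝ) ^ 2)) = 1 := by field_simp
    have h5 : 4 * (M : ℝ) ^ 2 * min (κ / 2) (1 / (4 * (M : ℝ) ^ 2)) ≤
        4 * (M : ℝ) ^ 2 * (1 / (4 * (M : ℝ) ^ 2)) := mul_le_mul_of_nonneg_left h3 (by positivity)
    linarith
  obtain ⟨η, hη0, hη1, hSET⟩ := h2 M hM κ' hκ0 hκM
  obtain ⟨u, t, R, K, hu0, hu1, huη, hd, ht0, htκ, hK, hft, hR⟩ := STA_const hθ hκ hη0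
  have hτ0 : 0 < u ^ 2 / 30 := by positivity
  obtain ⟨N1, hN1⟩ := exists_nat_gt (2 * R / t)
  obtain ⟨N2, hN2⟩ := exists_nat_gt (1 / (u ^ 2 / 30))
  obtain ⟨N3, hN3⟩ := exists_nat_gt (4 / η)
  refine ⟨η / 4, by positivity, N1 + N2 + N3 + 2, fun n k hn hev htt0 htt hkn G hG hprod => ?_⟩
  have hnR : ((N1 : ℝ) + N2 + N3 + 2) ≤ n := by exact_mod_cast hn
  have hN1' : (0 : ℝ) ≤ N1 := Nat.cast_nonneg _
  have hN2' : (0 : ℝ) ≤ N2 := Nat.cast_nonneg _
  have hN3' : (0 : ℝ) ≤ N3 := Nat.cast_nonneg _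
  have hnpos : (0 : ℝ) < n := by linarith
  have hn0 : 0 < n := by omega
  have hτn : 1 ≤ u ^ 2 / 30 * n := by
    have h5 : 1 / (u ^ 2 / 30) < n := by linarith
    rw [div_lt_iff₀ hτ0] at h5
    linarith
  have hRn : (R : ℝ) / n ≤ t / 2 := by
    have h5 : 2 * R / t < n := by linarith
    rw [div_lt_iff₀ ht0] at h5
    rw [div_le_iff₀ hnpos]
    linarith
  have hn1 : 1 ≤ η / 4 * n := by
    have h5 : 4 / η < n := by linarith
    rw [div_lt_iff₀ hη0] at h5
    linarith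
  have hNN : NN n = n := by
    unfold NN
    obtain ⟨m, hm⟩ := hev
    omega
  have hnk : (0 : ℝ) < (n : ℝ) ^ k := by positivity
  rcases h1 n k R G u t hG hu0 hu1 hτn hkn (by linarith) with
    h5 | ⟨A, Vg, hA, hVg, hlo, hγ, hγN⟩
  · exfalso
    rw [hNN] at h5
    have h6 := hprod.trans h5
    have h7 := le_of_mul_le_mul_right h6 hnk
    have h8 := STA_exp hM
    linarith
  rw [hNN] at hγN
  set d : ℝ := (u ^ 2 / 30) ^ 2 with hdd
  set T : Fin n → Finset (Fin k) := thk G A d with hT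
  have hTA : ∀ v, T v ⊆ A := by
    intro v j hj
    rw [hT, STA_mem] at hj
    exact hj.1
  have hAK : A.card ≤ K := by
    have h5 : (A.card : ℝ) ≤ K := hA.trans hK
    exact_mod_cast h5
  have hp0 : ∀ j, 0 ≤ pT T j := fun j => by
    unfold pT
    positivity
  have hp1 : ∀ j, pT T j ≤ 1 := fun j => by
    unfold pT
    rw [div_le_one hnpos]
    have h5 : (univ.filter (fun v => j ∈ T v)).card ≤ n := by
      have h6 := card_filter_le (univ : Finset (Fin n)) (fun v => j ∈ T v)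
      simpa using h6
    exact_mod_cast h5
  have hVg' : (1 - η) * n ≤ Vg.card := by
    have h5 : (1 - η) * n ≤ (1 - u) * n := mul_le_mul_of_nonneg_right (by linarith) hnpos.le
    linarith
  have hsum : ∀ v ∈ Vg, 1 / (M : ℝ) - η ≤ ∑ x ∈ T v, pT T x := by
    intro v hv
    have h5 := (hlo v hv).trans (STA_cnt hn0 T v)
    have h6 : (k : ℝ) ≤ n - n / M + η / 4 * n := by
      unfold tt at htt
      linarith
    have h7 : (n : ℝ) * (1 / M - η) ≤ n * ∑ x ∈ T v, pT T x := by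
      have h8 : (n : ℝ) * (1 / M - η) = n / M - η * n := by ring
      have h9 : u * n ≤ η / 4 * n := mul_le_mul_of_nonneg_right huη hnpos.le
      rw [h8]
      linarith
    exact le_of_mul_le_mul_left h7 hnpos
  have hprA : (1 - 1 / (M : ℝ)) ^ M - η ≤ ∏ x ∈ A, (1 - pT T x) := by
    have hin : ∏ j ∈ A, (gammaT (G j) : ℝ) ≤ (∏ j ∈ A, ((1 - pT T j) + t)) * (n : ℝ) ^ A.card := by
      calc ∏ j ∈ A, (gammaT (G j) : ℝ) ≤ ∏ j ∈ A, (((1 - pT T j) + t) * n) := by
            apply prod_le_prod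
            · intro j _
              exact Nat.cast_nonneg _
            · intro j hj
              exact hγ j hj
        _ = _ := by
            rw [prod_mul_distrib, prod_const]
    have hout : ∏ j ∈ Aᶜ, (gammaT (G j) : ℝ) ≤ (n : ℝ) ^ (Aᶜ).card := by
      rw [← prod_const]
      apply prod_le_prod
      · intro j _
        exact Nat.cast_nonneg _
      · intro j _
        exact_mod_cast hγN j
    have hcard : A.card + (Aᶜ).card = k := by
      have h5 := card_add_card_compl A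
      rw [Fintype.card_fin] at h5
      exact h5
    have hpr0 : 0 ≤ ∏ j ∈ A, ((1 - pT T j) + t) := prod_nonneg fun j _ => by
      have := hp1 j
      have : 0 ≤ 1 - pT T j := by linarith
      positivity
    have hfin : (∏ j, (gammaT (G j) : ℝ)) ≤ (∏ j ∈ A, ((1 - pT T j) + t)) * (n : ℝ) ^ k := by
      rw [← prod_mul_prod_compl A]
      calc (∏ j ∈ A, (gammaT (G j) : ℝ)) * ∏ j ∈ Aᶜ, (gammaT (G j) : ℝ)
          ≤ ((∏ j ∈ A, ((1 - pT T j) + t)) * (n : ℝ) ^ A.card) * (n : ℝ) ^ (Aᶜ).card :=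
            mul_le_mul hin hout (prod_nonneg fun j _ => Nat.cast_nonneg _) (by positivity)
        _ = _ := by
            rw [mul_assoc, ← pow_add, hcard]
    have h6 := le_of_mul_le_mul_right (hprod.trans hfin) hnk
    have h7 := STA_prod A (fun j => 1 - pT T j) ht0.le (fun j => by
      have := hp1 j
      linarith) (fun j => by
      have := hp0 j
      linarith)
    have h8 : (1 + t) ^ A.card ≤ (1 + t) ^ K := pow_le_pow_right₀ (by linarith) hAK
    linarith
  obtain ⟨e, he, heA, hep, he2⟩ := hSET n k T A Vg hn0 hTA hVg' hsum hprA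
  have hpn : ∀ j, ((univ.filter (fun v => j ∈ T v)).card : ℝ) = pT T j * n := by
    intro j
    unfold pT
    field_simp
  refine ⟨e, he, ?_, ?_, ?_⟩
  · intro i
    refine (hγ (e i) (heA i)).trans ?_
    apply mul_le_mul_of_nonneg_right _ hnpos.le
    have h5 := (abs_le.1 (hep i)).1
    have h6 : ((univ.filter (fun v => e i ∈ T v)).card : ℝ) / n = pT T (e i) := rfl
    rw [h6]
    linarith
  · intro i
    have h5 : hi (G (e i)) θ ⊆ univ.filter (fun v => e i ∈ T v) := by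
      intro v hv
      unfold hi at hv
      rw [mem_filter] at hv
      rw [mem_filter]
      refine ⟨mem_univ _, ?_⟩
      rw [hT, STA_mem]
      refine ⟨heA i, ?_⟩
      have : d * n ≤ θ * n := mul_le_mul_of_nonneg_right hd hnpos.le
      linarith [hv.2]
    have h6 : ((hi (G (e i)) θ).card : ℝ) ≤ ((univ.filter (fun v => e i ∈ T v)).card : ℝ) := by
      exact_mod_cast card_le_card h5
    rw [hpn] at h6
    refine h6.trans ?_
    apply mul_le_mul_of_nonneg_right _ hnpos.le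
    have h7 := (abs_le.1 (hep i)).2
    linarith
  · have h5 : ov G e θ ⊆ univ.filter (fun v => 2 ≤ (T v).card) := by
      intro v hv
      unfold ov at hv
      rw [mem_filter] at hv
      obtain ⟨_, i, j, hij, hvi, hvj⟩ := hv
      rw [mem_filter]
      refine ⟨mem_univ _, ?_⟩
      have hmem : ∀ i, v ∈ hi (G (e i)) θ → e i ∈ T v := by
        intro i hv
        unfold hi at hv
        rw [mem_filter] at hv
        rw [hT, STA_mem]
        refine ⟨heA i, ?_⟩
        have : d * n ≤ θ * n := mul_le_mul_of_nonneg_right hd hnpos.le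
        linarith [hv.2]
      have h6 : ({e i, e j} : Finset (Fin k)) ⊆ T v := by
        intro x hx
        simp only [mem_insert, mem_singleton] at hx
        rcases hx with rfl | rfl
        · exact hmem i hvi
        · exact hmem j hvj
      have h7 := card_le_card h6
      rw [card_insert_of_notMem (by
        rw [mem_singleton]
        exact fun h => hij (he h)), card_singleton] at h7
      exact h7
    have h6 : ((ov G e θ).card : ℝ) ≤ ((univ.filter (fun v => 2 ≤ (T v).card)).card : ℝ) := by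
      exact_mod_cast card_le_card h5
    have h7 : κ' * n ≤ κ * n := mul_le_mul_of_nonneg_right (by linarith) hnpos.le
    linarith

end Pool.Agent.Work.MP_1ce445_stm
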