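import Pool.Agent.Work.MP_1ce445_stm.Interface

/-! SZE: sizes of the sets `hi (G (e i)) θ`. -/

namespace Pool.Agent.Work.MP_1ce445_stm

open Finset Pool.Agent.Work.MP_1ce445_co_56 Pool.Agent.Work.MP_1ce445_lin
  Pool.Agent.Work.MP_1ce445_fx

theorem SZE_mem_ov {n k M : ℕ} (G : Fin k → SimpleGraph (Fin n)) (e : Fin M → Fin k) (θ : ℝ)
    (v : Fin n) : v ∈ ov G e θ ↔ ∃ i j, i ≠ j ∧ v ∈ hi (G (e i)) θ ∧ v ∈ hi (G (e j)) θ := by
  unfold ov
  simp only [mem_filter, mem_univ, true_and]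

theorem SZE_sum {n k M : ℕ} (G : Fin k → SimpleGraph (Fin n)) (e : Fin M → Fin k) (θ : ℝ)
    (_hM : 2 ≤ M) :
    ∑ i, ((hi (G (e i)) θ).card : ℝ) ≤ n + (M - 1) * (ov G e θ).card := by
  classical
  have h1 : ∑ i, ((hi (G (e i)) θ).card : ℝ)
      = ∑ v : Fin n, ((univ.filter (fun i => v ∈ hi (G (e i)) θ)).card : ℝ) := by
    have h2 : ∑ i, (hi (G (e i)) θ).card
        = ∑ v : Fin n, (univ.filter (fun i => v ∈ hi (G (e i)) θ)).card := by
      have := Finset.sum_card_bipartiteAbove_eq_sum_card_bipartiteBelow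
        (s := (univ : Finset (Fin M))) (t := (univ : Finset (Fin n)))
        (fun i v => v ∈ hi (G (e i)) θ)
      simp only [bipartiteAbove, bipartiteBelow] at this
      rw [← this]
      refine sum_congr rfl (fun i _ => ?_)
      congr 1
      ext v
      simp
    exact_mod_cast h2
  rw [h1]
  have h3 : ∀ v : Fin n, ((univ.filter (fun i => v ∈ hi (G (e i)) θ)).card : ℝ)
      ≤ 1 + (if v ∈ ov G e θ then ((M : ℝ) - 1) else 0) := by
    intro v
    split_ifs with hv
    · have : (univ.filter (fun i => v ∈ hi (G (e i)) θ)).card ≤ M := by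
        refine (card_filter_le _ _).trans ?_
        simp
      have h4 : ((univ.filter (fun i => v ∈ hi (G (e i)) θ)).card : ℝ) ≤ M := by exact_mod_cast this
      linarith
    · have : (univ.filter (fun i => v ∈ hi (G (e i)) θ)).card ≤ 1 := by
        rw [card_le_one]
        intro a ha b hb
        simp only [mem_filter, mem_univ, true_and] at ha hb
        by_contra hab
        exact hv ((SZE_mem_ov G e θ v).2 ⟨a, b, hab, ha, hb⟩)
      have h4 : ((univ.filter (fun i => v ∈ hi (G (e i)) θ)).card : ℝ) ≤ 1 := by exact_mod_cast this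
      linarith
  refine (sum_le_sum (fun v _ => h3 v)).trans ?_
  rw [sum_add_distrib, ← sum_filter]
  simp only [sum_const, card_univ, Fintype.card_fin, nsmul_eq_mul, mul_one]
  have h5 : (univ.filter (fun v => v ∈ ov G e θ)) = ov G e θ := by
    ext v; simp
  rw [h5]
  linarith [mul_comm ((ov G e θ).card : ℝ) ((M : ℝ) - 1)]

theorem SZE_low {n k M : ℕ} (G : Fin k → SimpleGraph (Fin n)) (e : Fin M → Fin k) (θ s : ℝ)
    (hD : Stmt_DEG) (h : St G e θ s) (j : Fin M) :
    (n : ℝ) / M - tt n k M - 2 * M / n * ∑ v, ((dd G e θ v : ℝ) + EE G e v)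
      - 2 * M * ∑ v ∈ hi (G (e j)) θ \ ov G e θ, ∑ i ∈ univ.erase j, xx G e θ i v
      ≤ (hi (G (e j)) θ).card := by
  classical
  have hM : (2 : ℝ) ≤ M := by exact_mod_cast h.two
  have hM0 : (0 : ℝ) < M := by linarith
  have hn : (0 : ℝ) < n := by exact_mod_cast h.pos
  set W := hi (G (e j)) θ \ ov G e θ with hW
  have hWc : (n : ℝ) / (2 * M) ≤ W.card := by
    have h1 : (hi (G (e j)) θ).card ≤ W.card + (ov G e θ).card := by
      have := card_le_card_sdiff_add_card (s := hi (G (e j)) θ) (t := ov G e θ)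
      exact this
    have h1' : ((hi (G (e j)) θ).card : ℝ) ≤ W.card + (ov G e θ).card := by exact_mod_cast h1
    have h2 := h.big j
    have h3 := h.ovl
    have h4 : s * n ≤ n / (4 * M) := by
      rw [le_div_iff₀ (by positivity)]
      nlinarith [h.s1]
    have h5 : 3 * (n : ℝ) / (4 * M) - n / (4 * M) = n / (2 * M) := by
      field_simp
      ring
    linarith
  have hWpos : (0 : ℝ) < W.card := lt_of_lt_of_le (by positivity) hWc
  have hpt : ∀ v ∈ W, (n : ℝ) / M - tt n k M - ((dd G e θ v : ℝ) + EE G e v)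
      - n * ∑ i ∈ univ.erase j, xx G e θ i v ≤ (hi (G (e j)) θ).card := by
    intro v _
    have h1 := hD n k M G e θ h.fac h.inj v
    have h1' : (∑ i, (dg (G (e i)) (hi (G (e i)) θ) v : ℝ)) + dd G e θ v + EE G e v + k + 1
        = n + M := by exact_mod_cast h1
    rw [← add_sum_erase univ _ (mem_univ j)] at h1'
    have h2 : (dg (G (e j)) (hi (G (e j)) θ) v : ℝ) ≤ (hi (G (e j)) θ).card := by
      have : dg (G (e j)) (hi (G (e j)) θ) v ≤ (hi (G (e j)) θ).card := by
        unfold Pool.Agent.Work.MP_1ce445_fx.dg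
        exact card_filter_le _ _
      exact_mod_cast this
    have h3 : ∑ i ∈ univ.erase j, (dg (G (e i)) (hi (G (e i)) θ) v : ℝ)
        ≤ n * ∑ i ∈ univ.erase j, xx G e θ i v := by
      rw [mul_sum]
      refine sum_le_sum (fun i _ => ?_)
      have hc : (0 : ℝ) < (hi (G (e i)) θ).card := lt_of_lt_of_le (by positivity) (h.big i)
      have hcn : ((hi (G (e i)) θ).card : ℝ) ≤ n := by
        have := card_le_univ (hi (G (e i)) θ)
        rw [Fintype.card_fin] at this
        exact_mod_cast this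
      have h6 : (0 : ℝ) ≤ xx G e θ i v := by
        unfold xx
        positivity
      have h7 : (dg (G (e i)) (hi (G (e i)) θ) v : ℝ)
          = (hi (G (e i)) θ).card * xx G e θ i v := by
        unfold xx
        field_simp
      rw [h7]
      exact mul_le_mul_of_nonneg_right hcn h6
    unfold tt
    linarith
  have hsum := sum_le_sum hpt
  rw [sum_sub_distrib, sum_sub_distrib, sum_const, sum_const, nsmul_eq_mul, nsmul_eq_mul,
    ← mul_sum] at hsum
  set X := ∑ v ∈ W, ∑ i ∈ univ.erase j, xx G e θ i v with hX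
  have hX0 : 0 ≤ X := by
    refine sum_nonneg (fun v _ => sum_nonneg (fun i _ => ?_))
    unfold xx
    positivity
  have hDW : ∑ v ∈ W, ((dd G e θ v : ℝ) + EE G e v) ≤ ∑ v, ((dd G e θ v : ℝ) + EE G e v) :=
    sum_le_sum_of_subset_of_nonneg (subset_univ _) (fun v _ _ => by positivity)
  set DD := ∑ v, ((dd G e θ v : ℝ) + EE G e v) with hDD
  have hDD0 : 0 ≤ DD := sum_nonneg (fun v _ => by positivity)
  have h8 : (W.card : ℝ) * ((n : ℝ) / M - tt n k M - (hi (G (e j)) θ).card) ≤ DD + n * X := by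
    nlinarith
  have h9 : (n : ℝ) / (2 * M) * (2 * M / n * DD + 2 * M * X) = DD + n * X := by
    field_simp
  have h10 : 0 ≤ 2 * M / n * DD + 2 * M * X := by positivity
  have h11 : (n : ℝ) / (2 * M) * (2 * M / n * DD + 2 * M * X)
      ≤ W.card * (2 * M / n * DD + 2 * M * X) := mul_le_mul_of_nonneg_right hWc h10
  have h12 : (W.card : ℝ) * ((n : ℝ) / M - tt n k M - (hi (G (e j)) θ).card)
      ≤ W.card * (2 * M / n * DD + 2 * M * X) := by linarith
  have h13 := le_of_mul_le_mul_left h12 hWpos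
  linarith

theorem stmt_SZE (h1 : Stmt_DEG) (_h2 : Stmt_SUR) : Stmt_SZE := by
  classical
  intro n k M G e θ s h
  have hM : (2 : ℝ) ≤ M := by exact_mod_cast h.two
  have hM0 : (0 : ℝ) < M := by linarith
  have hn : (0 : ℝ) < n := by exact_mod_cast h.pos
  have ht := h.tnn
  set DD := ∑ v, ((dd G e θ v : ℝ) + EE G e v) with hDD
  have hDD0 : 0 ≤ DD := sum_nonneg (fun v _ => by positivity)
  have hXj : ∀ j, 0 ≤ ∑ v ∈ hi (G (e j)) θ \ ov G e θ, ∑ i ∈ univ.erase j, xx G e θ i v := by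
    intro j
    refine sum_nonneg (fun v _ => sum_nonneg (fun i _ => ?_))
    unfold xx
    positivity
  have hXb0 : 0 ≤ Xb G e θ := sum_nonneg (fun j _ => hXj j)
  have hbb0 : 0 ≤ bb G e θ := by
    unfold bb
    rw [← hDD]
    positivity
  refine ⟨hbb0, fun i => ?_⟩
  have hs := SZE_sum G e θ h.two
  rw [← add_sum_erase univ _ (mem_univ i)] at hs
  have hl : ∑ j ∈ univ.erase i, ((n : ℝ) / M - tt n k M - 2 * M / n * DD
      - 2 * M * ∑ v ∈ hi (G (e j)) θ \ ov G e θ, ∑ i ∈ univ.erase j, xx G e θ i v)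
      ≤ ∑ j ∈ univ.erase i, ((hi (G (e j)) θ).card : ℝ) :=
    sum_le_sum (fun j _ => SZE_low G e θ s h1 h j)
  rw [sum_sub_distrib, sum_const, nsmul_eq_mul, ← mul_sum, card_erase_of_mem (mem_univ i),
    card_univ, Fintype.card_fin] at hl
  have hx : ∑ j ∈ univ.erase i, ∑ v ∈ hi (G (e j)) θ \ ov G e θ, ∑ i ∈ univ.erase j, xx G e θ i v
      ≤ Xb G e θ := by
    unfold Xb
    exact sum_le_sum_of_subset_of_nonneg (subset_univ _) (fun j _ _ => hXj j)
  have hc : ((M - 1 : ℕ) : ℝ) = (M : ℝ) - 1 := by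
    rw [Nat.cast_sub (by linarith [h.two])]
    simp
  rw [hc] at hl
  have ho : (0 : ℝ) ≤ (ov G e θ).card := by positivity
  have hDt : 0 ≤ 2 * (M : ℝ) / n * DD := by positivity
  have hbb : bb G e θ = M * (ov G e θ).card + M * tt n k M + M * (2 * (M : ℝ) / n * DD)
      + 2 * M * Xb G e θ := by
    unfold bb
    rw [← hDD]
    ring
  have hnM : (M : ℝ) * (n / M) = n := by field_simp
  have hxx : 2 * (M : ℝ) * ∑ j ∈ univ.erase i, ∑ v ∈ hi (G (e j)) θ \ ov G e θ,
      ∑ i ∈ univ.erase j, xx G e θ i v ≤ 2 * M * Xb G e θ :=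
    mul_le_mul_of_nonneg_left hx (by positivity)
  rw [hbb]
  nlinarith

end Pool.Agent.Work.MP_1ce445_stm
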