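import Pool.Agent.Work.MP_1ce445_stm.Interface

/-!
Block UFR (MP_1ce445_co, second staircase, upper half; helper48): the upper bound from stability and the estimate
of the special total domination numbers.
-/

namespace Pool.Agent.Work.MP_1ce445_stm

open Finset Pool.Agent.Work.MP_1ce445_co_56 Pool.Agent.Work.MP_1ce445_lin
  Pool.Agent.Work.MP_1ce445_fx

lemma UFR_tt (n k M t : ℕ) (hM : 2 ≤ M) (h : M * k = (M - 1) * n + t) :
    tt n k M = (t : ℝ) / M := by
  have hM0 : (0 : ℝ) < M := by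
    have : (2 : ℝ) ≤ M := by exact_mod_cast hM
    linarith
  have h1 : ((M * k : ℕ) : ℝ) = (((M - 1) * n + t : ℕ) : ℝ) := by rw [h]
  push_cast [Nat.cast_sub (by omega : 1 ≤ M)] at h1
  unfold tt
  rw [eq_div_iff hM0.ne', add_mul, div_mul_cancel₀ _ hM0.ne']
  linarith

/-- the bound for one factorization -/
lemma UFR_core (hPRR : Stmt_PRR) (M r n k t : ℕ) (hM : 2 ≤ M) (hn : 0 < n)
    (G : Fin k → SimpleGraph (Fin n)) (e : Fin M → Fin k) (hG : IsFactorization G)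
    (he : Function.Injective e)
    (hA : gs G e ≤ ((M : ℝ) - 1) * n + M * r + 1 / 10 + Ls G e / 100) :
    M ^ M * ∏ l, gammaT (G l) ≤ n ^ (k - M) * ((M - 1) * n + M * r) ^ M := by
  have hM2 : (2 : ℝ) ≤ M := by exact_mod_cast hM
  have hM0 : (0 : ℝ) < M := by linarith
  have hn0 : (0 : ℝ) < n := by exact_mod_cast hn
  have hgam : ∀ l, gammaT (G l) ≤ n := by
    intro l
    simpa using gammaT_le_univ (hG.minDeg l)
  obtain ⟨A, hAd⟩ : ∃ A : ℝ, A = (((M : ℝ) - 1) * n + M * r) / M := ⟨_, rfl⟩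
  have hMA : (M : ℝ) * A = ((M : ℝ) - 1) * n + M * r := by
    rw [hAd]
    field_simp
  have hr0 : (0 : ℝ) ≤ r := Nat.cast_nonneg r
  have hA2 : (n : ℝ) / 2 ≤ A := by
    rw [hAd, le_div_iff₀ hM0]
    nlinarith
  have hA0 : 0 < A := by linarith
  have hLs : ∑ l ∈ ot e, ((n : ℝ) - gammaT (G l)) = Ls G e := by
    unfold Ls
    rw [Nat.cast_sum]
    exact sum_congr rfl fun l _ => (Nat.cast_sub (hgam l)).symm
  have key : (∏ l, (gammaT (G l) : ℝ)) ≤ (n : ℝ) ^ (k - M) * A ^ M := by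
    rcases Nat.eq_zero_or_pos (Ls G e) with h4 | h4
    · have h5 : (∑ i, (gammaT (G (e i)) : ℝ)) ≤ M * A + 0 := by
        have h6 : ((∑ i, gammaT (G (e i)) : ℕ) : ℝ) < (((M - 1) * n + M * r + 1 : ℕ) : ℝ) := by
          push_cast [Nat.cast_sub (by omega : 1 ≤ M)]
          have h7 : gs G e = ∑ i, (gammaT (G (e i)) : ℝ) := rfl
          rw [← h7]
          rw [h4, Nat.cast_zero] at hA
          linarith
        have h7 : ∑ i, gammaT (G (e i)) < (M - 1) * n + M * r + 1 := by exact_mod_cast h6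
        have h8 : ∑ i, gammaT (G (e i)) ≤ (M - 1) * n + M * r := by omega
        have h9 : ((∑ i, gammaT (G (e i)) : ℕ) : ℝ) ≤ (((M - 1) * n + M * r : ℕ) : ℝ) := by
          exact_mod_cast h8
        push_cast [Nat.cast_sub (by omega : 1 ≤ M)] at h9
        rw [hMA]
        linarith
      have h1 := hPRR k n M (fun l => gammaT (G l)) e A 0 hn (by omega) he hA0 le_rfl hgam h5
      rw [hLs, h4] at h1
      simpa using h1
    · have h4' : (1 : ℝ) ≤ Ls G e := by exact_mod_cast h4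
      obtain ⟨R, hR⟩ : ∃ R : ℝ, R = 1 / 10 + (Ls G e : ℝ) / 100 := ⟨_, rfl⟩
      have hR0 : 0 ≤ R := by rw [hR]; positivity
      have h1 := hPRR k n M (fun l => gammaT (G l)) e A R hn (by omega) he hA0 hR0 hgam (by
        have h7 : gs G e = ∑ i, (gammaT (G (e i)) : ℝ) := rfl
        rw [← h7, hMA, hR]
        linarith)
      rw [hLs] at h1
      have h2 : R / A - (Ls G e : ℝ) / n ≤ 0 := by
        have h5 : R / A ≤ R / (n / 2) := div_le_div_of_nonneg_left hR0 (by linarith) hA2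
        have h6 : R / ((n : ℝ) / 2) - (Ls G e : ℝ) / n = (2 * R - Ls G e) / n := by
          field_simp
        have h7 : (2 * R - Ls G e) / (n : ℝ) ≤ 0 := by
          apply div_nonpos_of_nonpos_of_nonneg _ hn0.le
          rw [hR]
          linarith
        linarith
      have h3 : Real.exp (R / A - (Ls G e : ℝ) / n) ≤ 1 := Real.exp_le_one_iff.2 h2
      refine h1.trans ?_
      have h5 : (0 : ℝ) ≤ (n : ℝ) ^ (k - M) * A ^ M := by positivity
      calc _ ≤ (n : ℝ) ^ (k - M) * A ^ M * 1 := mul_le_mul_of_nonneg_left h3 h5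
        _ = _ := by ring
  have h1 : ((M : ℝ) ^ M * ∏ l, (gammaT (G l) : ℝ)) ≤
      (n : ℝ) ^ (k - M) * (((M : ℝ) - 1) * n + M * r) ^ M := by
    calc (M : ℝ) ^ M * ∏ l, (gammaT (G l) : ℝ) ≤ (M : ℝ) ^ M * ((n : ℝ) ^ (k - M) * A ^ M) :=
          mul_le_mul_of_nonneg_left key (by positivity)
      _ = (n : ℝ) ^ (k - M) * (M * A) ^ M := by rw [mul_pow]; ring
      _ = _ := by rw [hMA]
  have h2 : ((M ^ M * ∏ l, gammaT (G l) : ℕ) : ℝ) ≤
      ((n ^ (k - M) * ((M - 1) * n + M * r) ^ M : ℕ) : ℝ) := by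
    push_cast [Nat.cast_sub (by omega : 1 ≤ M)]
    exact h1
  exact_mod_cast h2

theorem stmt_UFR : Stmt_ADR → Stmt_STB → Stmt_PRR → Stmt_UFR := by
  intro hADR hSTB hPRR M r hM hr
  have hM2 : (2 : ℝ) ≤ M := by exact_mod_cast hM
  have hM0 : (0 : ℝ) < M := by linarith
  obtain ⟨θ₀, hθ₀, hADR1⟩ := hADR M r hM hr
  obtain ⟨θ, hθd⟩ : ∃ θ : ℝ, θ = min θ₀ (1 / (4 * (M : ℝ) ^ 2)) := ⟨_, rfl⟩
  have hθ0 : 0 < θ := by
    rw [hθd]
    exact lt_min hθ₀ (by positivity)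
  have hθ1 : θ ≤ θ₀ := by rw [hθd]; exact min_le_left _ _
  have hθ2 : 4 * (M : ℝ) ^ 2 * θ ≤ 1 := by
    have h1 : θ ≤ 1 / (4 * (M : ℝ) ^ 2) := by rw [hθd]; exact min_le_right _ _
    rw [le_div_iff₀ (by positivity)] at h1
    linarith
  obtain ⟨s₀, hs₀, δA, hδA, hADR2⟩ := hADR1 θ hθ0 hθ1
  obtain ⟨s, hsd⟩ : ∃ s : ℝ, s = min s₀ (1 / (4 * (M : ℝ))) := ⟨_, rfl⟩
  have hs0 : 0 < s := by
    rw [hsd]
    exact lt_min hs₀ (by positivity)
  have hs1 : s ≤ s₀ := by rw [hsd]; exact min_le_left _ _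
  have hs2 : 4 * (M : ℝ) * s ≤ 1 := by
    have h1 : s ≤ 1 / (4 * (M : ℝ)) := by rw [hsd]; exact min_le_right _ _
    rw [le_div_iff₀ (by positivity)] at h1
    linarith
  obtain ⟨δB, hδB, nB, hSTB1⟩ := hSTB M hM θ s hθ0 hθ2 hs0 hs2
  obtain ⟨δ, hδd⟩ : ∃ δ : ℝ, δ = min δA (min (δB ^ r) 1) := ⟨_, rfl⟩
  have hδ0 : 0 < δ := by
    rw [hδd]
    exact lt_min hδA (lt_min (by positivity) one_pos)
  have hδ1 : δ ≤ δA := by rw [hδd]; exact min_le_left _ _
  have hδ2 : δ ≤ δB ^ r := by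
    rw [hδd]
    exact (min_le_right _ _).trans (min_le_left _ _)
  have hδ3 : δ ≤ 1 := by
    rw [hδd]
    exact (min_le_right _ _).trans (min_le_right _ _)
  refine ⟨δ, hδ0, max nB (2 * M), ?_⟩
  intro n k t hn hev hkt htn
  have hnB : nB ≤ n := (le_max_left _ _).trans hn
  have hnM : 2 * M ≤ n := (le_max_right _ _).trans hn
  have hn1 : 1 ≤ n := by omega
  have hn1' : (1 : ℝ) ≤ n := by exact_mod_cast hn1
  have hn0 : (0 : ℝ) < n := by linarith
  have hX : (n : ℝ) ^ (r - 1) ≤ (n : ℝ) ^ r := pow_le_pow_right₀ hn1' (by omega)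
  have ht0 : (0 : ℝ) ≤ t := Nat.cast_nonneg t
  have htB : (t : ℝ) ≤ δB * n := by
    apply le_of_pow_le_pow_left₀ (n := r) (by omega) (by positivity)
    calc (t : ℝ) ^ r ≤ δ * (n : ℝ) ^ (r - 1) := htn
      _ ≤ δB ^ r * (n : ℝ) ^ r := mul_le_mul hδ2 hX (by positivity) (by positivity)
      _ = _ := by rw [mul_pow]
  have ht1 : (t : ℝ) ≤ n := by
    apply le_of_pow_le_pow_left₀ (n := r) (by omega) (by positivity)
    calc (t : ℝ) ^ r ≤ δ * (n : ℝ) ^ (r - 1) := htn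
      _ ≤ 1 * (n : ℝ) ^ r := mul_le_mul hδ3 hX (by positivity) (by positivity)
      _ = _ := by rw [one_mul]
  have ht1' : t ≤ n := by exact_mod_cast ht1
  obtain ⟨M', hM'⟩ : ∃ M', M = M' + 1 := ⟨M - 1, by omega⟩
  have hMM : M - 1 = M' := by omega
  have hkn : k ≤ n := by
    have h1 : M * k ≤ M * n := by
      rw [hkt, hMM]
      calc M' * n + t ≤ M' * n + n := by omega
        _ = M * n := by rw [hM']; ring
    exact Nat.le_of_mul_le_mul_left h1 (by omega)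
  have hMk : M ≤ k := by
    have h1 : M * M ≤ M * k := by
      rw [hkt, hMM]
      calc M * M ≤ M' * (2 * M) := by nlinarith
        _ ≤ M' * n := Nat.mul_le_mul_left _ hnM
        _ ≤ M' * n + t := Nat.le_add_right _ _
    exact Nat.le_of_mul_le_mul_left h1 (by omega)
  have htt := UFR_tt n k M t hM hkt
  have htt0 : 0 ≤ tt n k M := by rw [htt]; positivity
  have htt1 : tt n k M ≤ t := by
    rw [htt, div_le_iff₀ hM0]
    nlinarith
  have htt2 : tt n k M ^ r ≤ δA * (n : ℝ) ^ (r - 1) := by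
    calc tt n k M ^ r ≤ (t : ℝ) ^ r := pow_le_pow_left₀ htt0 htt1 r
      _ ≤ δ * (n : ℝ) ^ (r - 1) := htn
      _ ≤ _ := mul_le_mul_of_nonneg_right hδ1 (by positivity)
  have hcore : ∀ G : Fin k → SimpleGraph (Fin n), IsFactorization G →
      M ^ M * ∏ l, gammaT (G l) ≤ n ^ (k - M) * ((M - 1) * n + M * r) ^ M := by
    intro G hG
    rcases le_or_gt ((1 - 1 / (M : ℝ)) ^ M * (n : ℝ) ^ k) (∏ j, (gammaT (G j) : ℝ)) with h1 | h1
    · obtain ⟨e, hS⟩ := hSTB1 n k hnB hev htt0 (htt1.trans htB) hkn G hG h1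
      exact UFR_core hPRR M r n k t hM (by omega) G e hG hS.inj
        (hADR2 s hs0 hs1 n k G e hS htt2)
    · have h2 : ((M ^ M * ∏ l, gammaT (G l) : ℕ) : ℝ) ≤ ((n ^ (k - M) * ((M - 1) * n) ^ M : ℕ) : ℝ) := by
        push_cast [Nat.cast_sub (by omega : 1 ≤ M)]
        have h3 : (M : ℝ) ^ M * ((1 - 1 / (M : ℝ)) ^ M * (n : ℝ) ^ k) =
            (n : ℝ) ^ (k - M) * (((M : ℝ) - 1) * n) ^ M := by
          have h4 : (n : ℝ) ^ k = (n : ℝ) ^ (k - M) * (n : ℝ) ^ M := by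
            rw [← pow_add]
            congr 1
            omega
          have h5 : (M : ℝ) * (1 - 1 / M) = M - 1 := by field_simp
          calc (M : ℝ) ^ M * ((1 - 1 / (M : ℝ)) ^ M * (n : ℝ) ^ k)
              = ((M : ℝ) * (1 - 1 / M)) ^ M * (n : ℝ) ^ k := by rw [mul_pow]; ring
            _ = _ := by rw [h5, h4, mul_pow]; ring
        rw [← h3]
        exact mul_le_mul_of_nonneg_left h1.le (by positivity)
      have h3 : M ^ M * ∏ l, gammaT (G l) ≤ n ^ (k - M) * ((M - 1) * n) ^ M := by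
        exact_mod_cast h2
      exact h3.trans (Nat.mul_le_mul_left _ (Nat.pow_le_pow_left (by omega) M))
  rcases P_attained n k with h0 | ⟨G, hG, hP⟩
  · rw [h0, mul_zero]
    exact Nat.zero_le _
  · rw [hP]
    exact hcore G hG

end Pool.Agent.Work.MP_1ce445_stm
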