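import Pool.Agent.Work.MP_1ce445_stm.FIR
import Pool.Agent.Work.MP_1ce445_fx.GS3
import Pool.Agent.Work.MP_1ce445_fx.SLO

/-!
The case `r = 2` of the second staircase for all `t ≥ M`.
-/

namespace Pool.Agent.Work.MP_1ce445_stm

open Finset Pool.Agent.Work.MP_1ce445_co_56 Pool.Agent.Work.MP_1ce445_lin
  Pool.Agent.Work.MP_1ce445_fx

/-- GS3 for `r = 2`, without any condition on `L`: one vertex of part `j` does not dominate itself. -/
theorem GS3two (hGS1 : Stmt_GS1) : ∀ (M q : ℕ) (χ : VS M q → VS M q → Fin ((2 * M - 2) * q))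
    (L : Finset (ZMod (2 * q - 1))) (s : Fin M → ZMod (2 * q - 1)), 2 ≤ M → 2 ≤ q → Crs M q χ →
    Function.Injective s → (∀ j, s j ∉ L) →
    ∀ j, 2 * (M - 1) * q + 2 ≤ gammaT (GS χ L s (Sum.inr (Sum.inr j))) := by
  classical
  intro M q χ L s hM hq hχ hs hsL j
  have hq1 : 1 ≤ q := by omega
  haveI : NeZero (2 * q - 1) := ⟨by omega⟩
  have hF := hGS1 M q χ L s hM hq hχ hs hsL
  set H : SimpleGraph (VS M q) := GS χ L s (Sum.inr (Sum.inr j)) with hH
  obtain ⟨S, hS, hc⟩ := exists_tds (G := H) (hF.minDeg (Sum.inr (Sum.inr j)))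
  rw [← hc]
  -- the vertices outside part `j` are in `S`
  have hout : ∀ v : VS M q, v.1 ≠ j → v ∈ S := by
    intro v hv
    obtain ⟨w, hw, hadj⟩ := hS (v.1, GM2_g (s j) v.2)
    obtain ⟨h0, h1, h2, h3⟩ := GS3_adj hadj
    have h1' : v.1 = w.1 := h1
    have h4 : lbl (GM2_g (s j) v.2) w.2 = s j := by
      rcases h3 with h3 | h3
      · exact h3
      · exact absurd h3 hv
    have h5 : GM2_g (s j) v.2 ≠ w.2 := by
      intro h5
      apply h0
      exact Prod.ext h1' h5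
    have h6 := GM2_eq hq1 (s j) _ _ h5 h4
    rw [GM2_invol hq1] at h6
    have h7 : w = v := Prod.ext h1'.symm h6
    rw [← h7]
    exact hw
  set T : Finset (Option (ZMod (2 * q - 1))) := univ.filter (fun x => (j, x) ∈ S) with hT
  have hstep : ∀ x, ∃ y ∈ T, x ≠ y := by
    intro x
    obtain ⟨w, hw, hadj⟩ := hS (j, x)
    obtain ⟨h0, h1, h2, h3⟩ := GS3_adj hadj
    have h1' : j = w.1 := h1
    refine ⟨w.2, ?_, ?_⟩
    · rw [hT, mem_filter]
      refine ⟨mem_univ _, ?_⟩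
      rw [h1']
      exact hw
    · intro hx
      apply h0
      exact Prod.ext h1' hx
  have hTr : 2 ≤ T.card := by
    obtain ⟨y, hy, -⟩ := hstep none
    obtain ⟨z, hz, hyz⟩ := hstep y
    exact Finset.one_lt_card.2 ⟨y, hy, z, hz, hyz⟩
  have hsub : ((univ.erase j) ×ˢ (univ : Finset (Option (ZMod (2 * q - 1))))) ∪
      T.image (fun x => ((j, x) : VS M q)) ⊆ S := by
    intro v hv
    rw [mem_union] at hv
    rcases hv with hv | hv
    · rw [mem_product, mem_erase] at hv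
      exact hout v hv.1.1
    · rw [mem_image] at hv
      obtain ⟨x, hx, rfl⟩ := hv
      exact (mem_filter.1 hx).2
  have hdis : Disjoint ((univ.erase j) ×ˢ (univ : Finset (Option (ZMod (2 * q - 1)))))
      (T.image (fun x => ((j, x) : VS M q))) := by
    rw [Finset.disjoint_left]
    intro v hv hv'
    rw [mem_product, mem_erase] at hv
    rw [mem_image] at hv'
    obtain ⟨x, -, rfl⟩ := hv'
    exact hv.1.1 rfl
  have hcard := card_le_card hsub
  rw [card_union_of_disjoint hdis, card_product, card_erase_of_mem (mem_univ _), card_univ,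
    card_univ, Fintype.card_fin, Fintype.card_option, ZMod.card,
    card_image_of_injective _ (fun x y h => (Prod.ext_iff.1 h).2)] at hcard
  have h8 : 2 * q - 1 + 1 = 2 * q := by omega
  rw [h8] at hcard
  have h9 : 2 * (M - 1) * q = (M - 1) * (2 * q) := by ring
  rw [h9]
  omega


/-- Lower bound for `r = 2`, all `t ≥ M`. -/
theorem SL2 (hSCR : Stmt_SCR) (hGS1 : Stmt_GS1) (hGS2 : Stmt_GS2) :
    ∀ M q t : ℕ, 2 ≤ M → 4 * M ^ 2 ≤ q → M ≤ t → t + 1 ≤ 2 * q →
      (2 * M * q) ^ ((2 * M - 2) * q + t - M) * (2 * (M - 1) * q + 2) ^ M ≤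
        P (2 * M * q) ((2 * M - 2) * q + t) := by
  intro M q t hM hq h1 h3
  have hq16 : 16 ≤ q := by nlinarith
  obtain ⟨χ, hχ⟩ := hSCR M q hM hq
  haveI : NeZero (2 * q - 1) := ⟨by omega⟩
  obtain ⟨L, hLs, hLc'⟩ := Finset.exists_subset_card_eq
    (show t - M ≤ (univ : Finset (ZMod (2 * q - 1))).card by rw [card_univ, ZMod.card]; omega)
  obtain ⟨s, hs, hsL⟩ := SLO_inj M L (by rw [hLc', ZMod.card]; omega)
  have hfac := hGS1 M q χ L s hM (by omega) hχ hs hsL
  obtain ⟨g1, g2⟩ := hGS2 M q χ L s hM (by omega) hχ hs hsL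
  have g3 := GS3two hGS1 M q χ L s hM (by omega) hχ hs hsL
  have hV : Fintype.card (VS M q) = 2 * M * q := by
    rw [Fintype.card_prod, Fintype.card_fin, Fintype.card_option, ZMod.card]
    have : 2 * q - 1 + 1 = 2 * q := by omega
    rw [this]; ring
  have hι : Fintype.card (Fin ((2 * M - 2) * q) ⊕ (L ⊕ Fin M)) = (2 * M - 2) * q + t := by
    rw [Fintype.card_sum, Fintype.card_sum, Fintype.card_coe, hLc', Fintype.card_fin,
      Fintype.card_fin]
    omega
  refine le_trans ?_ (le_P hV hι hfac)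
  rw [Fintype.prod_sum_type, Fintype.prod_sum_type]
  have e1 : (2 * M * q) ^ ((2 * M - 2) * q) ≤
      ∏ c : Fin ((2 * M - 2) * q), gammaT (GS χ L s (Sum.inl c)) := by
    calc (2 * M * q) ^ ((2 * M - 2) * q) = ∏ _c : Fin ((2 * M - 2) * q), 2 * M * q := by
          rw [prod_const, card_univ, Fintype.card_fin]
      _ ≤ _ := Finset.prod_le_prod' fun c _ => g1 c
  have e2 : (2 * M * q) ^ (t - M) ≤ ∏ l : L, gammaT (GS χ L s (Sum.inr (Sum.inl l))) := by
    calc (2 * M * q) ^ (t - M) = ∏ _l : L, 2 * M * q := by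
          rw [prod_const, card_univ, Fintype.card_coe, hLc']
      _ ≤ _ := Finset.prod_le_prod' fun l _ => g2 l
  have e3 : (2 * (M - 1) * q + 2) ^ M ≤
      ∏ j : Fin M, gammaT (GS χ L s (Sum.inr (Sum.inr j))) := by
    calc (2 * (M - 1) * q + 2) ^ M = ∏ _j : Fin M, (2 * (M - 1) * q + 2) := by
          rw [prod_const, card_univ, Fintype.card_fin]
      _ ≤ _ := Finset.prod_le_prod' fun j _ => g3 j
  have hexp : (2 * M - 2) * q + t - M = (2 * M - 2) * q + (t - M) := by omega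
  rw [hexp, pow_add, mul_assoc]
  exact Nat.mul_le_mul e1 (Nat.mul_le_mul e2 e3)


/-- The exact value for `r = 2`: `M ≤ t`, `t² ≤ δ q`. -/
def Stmt_FI2 : Prop :=
  ∀ M : ℕ, 2 ≤ M → ∃ (δ : ℝ) (q0 : ℕ), 0 < δ ∧ ∀ q t : ℕ, q0 ≤ q → M ≤ t →
    (t : ℝ) ^ 2 ≤ δ * (q : ℝ) →
    P (2 * M * q) ((2 * M - 2) * q + t) =
      (2 * M * q) ^ ((2 * M - 2) * q + t - M) * (2 * (M - 1) * q + 2) ^ M

theorem stmt_FI2 : Stmt_UFR → Stmt_SCR → Stmt_GS1 → Stmt_GS2 → Stmt_FI2 := by
  intro hU hSCR hGS1 hGS2 M hM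
  obtain ⟨δ, q0, hδ, hU⟩ := FIR_up hU M 2 hM le_rfl
  refine ⟨δ, q0 + 4 * M ^ 2, hδ, ?_⟩
  intro q t hq h1 h3
  obtain ⟨h2t, h⟩ := hU q t (by omega) (by simpa using h3)
  exact le_antisymm h (SL2 hSCR hGS1 hGS2 M q t hM (by omega) h1 (by
    have : 0 < M ^ 2 := by positivity
    omega))

end Pool.Agent.Work.MP_1ce445_stm
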