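import Pool.Agent.Work.MP_1ce445_stm.Interface

/-! # Block SET: set systems with a product which is nearly the largest -/

namespace Pool.Agent.Work.MP_1ce445_stm

open Finset Pool.Agent.Work.MP_1ce445_co_56 Pool.Agent.Work.MP_1ce445_lin
  Pool.Agent.Work.MP_1ce445_fx

/-- Double counting. -/
theorem SET_double {n k : ℕ} (T : Fin n → Finset (Fin k)) (A : Finset (Fin k)) (hn : 0 < n)
    (hT : ∀ v, T v ⊆ A) (f : Fin k → ℝ) :
    (n : ℝ) * ∑ x ∈ A, pT T x * f x = ∑ v, ∑ x ∈ T v, f x := by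
  have hn' : (n : ℝ) ≠ 0 := by exact_mod_cast hn.ne'
  rw [Finset.mul_sum]
  have h1 : ∀ x ∈ A, (n : ℝ) * (pT T x * f x) = ∑ v, if x ∈ T v then f x else 0 := by
    intro x _
    rw [← Finset.sum_filter, Finset.sum_const, nsmul_eq_mul]
    unfold pT
    field_simp
  rw [Finset.sum_congr rfl h1, Finset.sum_comm]
  refine Finset.sum_congr rfl (fun v _ => ?_)
  rw [← Finset.sum_filter]
  congr 1
  ext x
  simp only [Finset.mem_filter, and_iff_right_iff_imp]
  exact fun h => hT v h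

theorem SET_nonneg {n k : ℕ} (T : Fin n → Finset (Fin k)) (x : Fin k) : 0 ≤ pT T x := by
  unfold pT
  positivity

theorem SET_le_one {n k : ℕ} (T : Fin n → Finset (Fin k)) (hn : 0 < n) (x : Fin k) :
    pT T x ≤ 1 := by
  unfold pT
  have hn' : (0 : ℝ) < n := by exact_mod_cast hn
  rw [div_le_one hn']
  have h := Finset.card_le_univ (univ.filter (fun v => x ∈ T v))
  rw [Fintype.card_fin] at h
  exact_mod_cast h

/-- `(1 - 1/M)^M ≥ 1/4`. -/
theorem SET_quarter (M : ℕ) (hM : 2 ≤ M) : 1 / 4 ≤ (1 - 1 / (M : ℝ)) ^ M := by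
  have hM' : (2 : ℝ) ≤ M := by exact_mod_cast hM
  have hM0 : (0 : ℝ) < M := by linarith
  have hi : 1 / (M : ℝ) ≤ 1 / 2 := one_div_le_one_div_of_le (by norm_num) hM'
  have hi0 : 0 < 1 / (M : ℝ) := by positivity
  have hpos : 0 < 1 - 1 / (M : ℝ) := by linarith
  -- concavity of the logarithm in the form of Bernoulli: write `M = 2 m` or `2 m + 1`
  have key : (1 / 4 : ℝ) ≤ ((1 - 1 / (M : ℝ)) ^ M) := by
    have h1 : 1 + (M : ℝ) / 2 * (-(1 / (M : ℝ))) ≤ (1 + -(1 / (M : ℝ))) ^ ((M : ℝ) / 2) :=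
      one_add_mul_self_le_rpow_one_add (by linarith) (by linarith)
    have h2 : 1 + (M : ℝ) / 2 * (-(1 / (M : ℝ))) = 1 / 2 := by
      field_simp
      ring
    rw [h2] at h1
    have h3 : (1 - 1 / (M : ℝ)) ^ M = ((1 + -(1 / (M : ℝ))) ^ ((M : ℝ) / 2)) ^ 2 := by
      rw [← Real.rpow_natCast ((1 + -(1 / (M : ℝ))) ^ ((M : ℝ) / 2)) 2, ← Real.rpow_mul (by linarith),
        ← Real.rpow_natCast (1 - 1 / (M : ℝ)) M]
      congr 1
      push_cast
      ring
    rw [h3]
    nlinarith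
  exact key

/-- `- log (c - η) ≤ - log c + 8 η`. -/
theorem SET_log (c η : ℝ) (hc : 1 / 4 ≤ c) (h0 : 0 ≤ η) (h1 : η ≤ 1 / 8) :
    - Real.log (c - η) ≤ - Real.log c + 8 * η := by
  have hc0 : 0 < c := by linarith
  have hd : 0 < c - η := by linarith
  have h2 : Real.log c - Real.log (c - η) = Real.log (c / (c - η)) :=
    (Real.log_div hc0.ne' hd.ne').symm
  have h3 : Real.log (c / (c - η)) ≤ c / (c - η) - 1 := Real.log_le_sub_one_of_pos (by positivity)
  have h4 : c / (c - η) - 1 = η / (c - η) := by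
    field_simp
    ring
  have h5 : η / (c - η) ≤ 8 * η := by
    rw [div_le_iff₀ hd]
    nlinarith
  linarith

theorem stmt_SET (h1 : Stmt_TAN) : Stmt_SET := by
  classical
  intro M hM κ hκ hMκ
  obtain ⟨a, b, ha1, ha2, hb1, hb2, hab, htan⟩ := h1 M hM
  have hM' : (2 : ℝ) ≤ M := by exact_mod_cast hM
  have hM0 : (0 : ℝ) < M := by linarith
  have hi : 1 / (M : ℝ) ≤ 1 / 2 := one_div_le_one_div_of_le (by norm_num) hM'
  have hi0 : 0 < 1 / (M : ℝ) := by positivity
  have hiM : 1 / (M : ℝ) * M = 1 := by field_simp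
  have hκM : 4 * (M : ℝ) * κ ≤ 1 / M := by
    rw [le_div_iff₀ hM0]
    nlinarith
  have hκ1 : κ ≤ 1 / 16 := by nlinarith
  have hκ2 : κ ^ 2 ≤ κ / 16 := by nlinarith
  have hη0 : 0 < κ ^ 4 / 1000 := by positivity
  have hηκ : κ ^ 4 / 1000 ≤ κ / 1000 := by
    have : κ ^ 4 ≤ κ := by
      have h2 : κ ^ 4 = κ ^ 2 * κ ^ 2 := by ring
      rw [h2]
      nlinarith [sq_nonneg κ]
    linarith
  refine ⟨κ ^ 4 / 1000, hη0, by linarith, ?_⟩
  intro n k T A Vg hn hT hVg hsum hprod
  set η := κ ^ 4 / 1000 with hη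
  have hn' : (0 : ℝ) < n := by exact_mod_cast hn
  have hc := SET_quarter M hM
  have hηc : η ≤ 1 / 8 := by linarith
  have hMκ' : κ ≤ 1 / M := by
    have : κ ≤ 4 * (M : ℝ) * κ := by nlinarith
    linarith
  have hp0 := SET_nonneg T
  have hp1 := SET_le_one T hn
  -- all `p_x < 1`
  have hPpos : 0 < ∏ x ∈ A, (1 - pT T x) := by linarith
  have hp2 : ∀ x ∈ A, pT T x < 1 := by
    intro x hx
    have h2 : (1 - pT T x) ≠ 0 := (Finset.prod_ne_zero_iff.1 hPpos.ne') x hx
    have h3 := hp1 x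
    exact lt_of_le_of_ne h3 (fun h => h2 (by rw [h]; ring))
  -- `s₁`
  have hs1 : (n : ℝ) * ∑ x ∈ A, pT T x = ∑ v, ((T v).card : ℝ) := by
    have h2 := SET_double T A hn hT (fun _ => 1)
    simp only [mul_one, Finset.sum_const, nsmul_eq_mul] at h2
    exact h2
  have hs2 : (n : ℝ) * ∑ x ∈ A, pT T x * pT T x = ∑ v, ∑ x ∈ T v, pT T x :=
    SET_double T A hn hT (pT T)
  have hTne : ∀ v ∈ Vg, 1 ≤ (T v).card := by
    intro v hv
    rw [Nat.one_le_iff_ne_zero, Finset.card_ne_zero]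
    by_contra h
    rw [Finset.not_nonempty_iff_eq_empty] at h
    have h2 := hsum v hv
    rw [h, Finset.sum_empty] at h2
    linarith
  have hs1low : 1 - η ≤ ∑ x ∈ A, pT T x := by
    have h2 : (Vg.card : ℝ) ≤ ∑ v, ((T v).card : ℝ) := by
      calc (Vg.card : ℝ) = ∑ _v ∈ Vg, (1 : ℝ) := by simp
        _ ≤ ∑ v ∈ Vg, ((T v).card : ℝ) :=
            Finset.sum_le_sum (fun v hv => by exact_mod_cast hTne v hv)
        _ ≤ ∑ v, ((T v).card : ℝ) :=
            Finset.sum_le_sum_of_subset_of_nonneg (Finset.subset_univ _)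
              (fun v _ _ => Nat.cast_nonneg _)
    have h3 : (1 - η) * n ≤ (n : ℝ) * ∑ x ∈ A, pT T x := by rw [hs1]; linarith
    have h4 : (n : ℝ) * (1 - η) ≤ (n : ℝ) * ∑ x ∈ A, pT T x := by linarith
    exact le_of_mul_le_mul_left h4 hn'
  have hs2low : 1 / (M : ℝ) - 2 * η ≤ ∑ x ∈ A, pT T x * pT T x := by
    have hpos : 0 ≤ 1 / (M : ℝ) - η := by linarith
    have h2 : (Vg.card : ℝ) * (1 / (M : ℝ) - η) ≤ ∑ v, ∑ x ∈ T v, pT T x := by
      calc (Vg.card : ℝ) * (1 / (M : ℝ) - η) = ∑ _v ∈ Vg, (1 / (M : ℝ) - η) := by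
            rw [Finset.sum_const, nsmul_eq_mul]
        _ ≤ ∑ v ∈ Vg, ∑ x ∈ T v, pT T x := Finset.sum_le_sum (fun v hv => hsum v hv)
        _ ≤ ∑ v, ∑ x ∈ T v, pT T x :=
            Finset.sum_le_sum_of_subset_of_nonneg (Finset.subset_univ _)
              (fun v _ _ => Finset.sum_nonneg (fun x _ => hp0 x))
    have h3 : (1 - η) * n * (1 / (M : ℝ) - η) ≤ (Vg.card : ℝ) * (1 / (M : ℝ) - η) :=
      mul_le_mul_of_nonneg_right hVg hpos
    have h4 : (n : ℝ) * ((1 - η) * (1 / (M : ℝ) - η)) ≤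
        (n : ℝ) * ∑ x ∈ A, pT T x * pT T x := by
      rw [hs2]; linarith
    have h5 := le_of_mul_le_mul_left h4 hn'
    have h6 : 1 / (M : ℝ) - 2 * η ≤ (1 - η) * (1 / (M : ℝ) - η) := by nlinarith
    linarith
  -- `TAN`
  set s1 := ∑ x ∈ A, pT T x with hs1def
  set s2 := ∑ x ∈ A, pT T x * pT T x with hs2def
  set Q := ∑ x ∈ A, pT T x * (pT T x - 1 / M) ^ 2 with hQ
  have hQ0 : 0 ≤ Q := Finset.sum_nonneg (fun x _ => mul_nonneg (hp0 x) (sq_nonneg _))
  have hmain : a * s1 + b * s2 + Q / 3 ≤ - Real.log (∏ x ∈ A, (1 - pT T x)) := by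
    rw [Real.log_prod (fun x hx => by have := hp2 x hx; linarith), ← Finset.sum_neg_distrib]
    calc a * s1 + b * s2 + Q / 3 =
        ∑ x ∈ A, (a * pT T x + b * pT T x ^ 2 + pT T x * (pT T x - 1 / M) ^ 2 / 3) := by
          rw [hs1def, hs2def, hQ, Finset.mul_sum, Finset.mul_sum, Finset.sum_div,
            ← Finset.sum_add_distrib, ← Finset.sum_add_distrib]
          refine Finset.sum_congr rfl (fun x _ => ?_)
          ring
      _ ≤ ∑ x ∈ A, -Real.log (1 - pT T x) :=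
          Finset.sum_le_sum (fun x hx => htan _ (hp0 x) (hp2 x hx))
  have hlog1 : - Real.log (∏ x ∈ A, (1 - pT T x)) ≤ - Real.log ((1 - 1 / (M : ℝ)) ^ M - η) := by
    apply neg_le_neg
    exact Real.log_le_log (by linarith) hprod
  have hlog2 := SET_log ((1 - 1 / (M : ℝ)) ^ M) η hc hη0.le hηc
  have hlog3 : - Real.log ((1 - 1 / (M : ℝ)) ^ M) = a + b / M := by
    rw [Real.log_pow, hab]
    ring
  have hall : a * s1 + b * s2 + Q / 3 ≤ a + b / M + 8 * η := by linarith
  have hbs2 : b / M - 4 * η ≤ b * s2 := by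
    have h2 : b * (1 / (M : ℝ) - 2 * η) ≤ b * s2 := mul_le_mul_of_nonneg_left hs2low (by linarith)
    have h3 : b * (1 / (M : ℝ) - 2 * η) = b / M - 2 * b * η := by ring
    have h4 : 2 * b * η ≤ 4 * η := by nlinarith
    linarith
  have hred : a * (s1 - 1) + Q / 3 ≤ 12 * η := by
    have : a * (s1 - 1) = a * s1 - a := by ring
    linarith
  have hs1up : s1 ≤ 1 + 24 * η := by
    by_contra h
    push Not at h
    have h2 : 1 / 2 * (s1 - 1) ≤ a * (s1 - 1) := mul_le_mul_of_nonneg_right ha1 (by linarith)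
    linarith
  have hQup : Q ≤ 39 * η := by
    have h2 : a * (s1 - 1) ≥ - η := by nlinarith
    linarith
  -- the large ones
  let X : Finset (Fin k) := A.filter (fun x => |pT T x - 1 / M| ≤ κ)
  have hXA : X ⊆ A := Finset.filter_subset _ _
  have hXmem : ∀ x ∈ X, |pT T x - 1 / M| ≤ κ := fun x hx => (Finset.mem_filter.1 hx).2
  have hsplit : s1 = ∑ x ∈ X, pT T x + ∑ x ∈ A \ X, pT T x := by
    rw [add_comm, Finset.sum_sdiff hXA]
  have hrest : ∑ x ∈ A \ X, pT T x ≤ κ ^ 2 := by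
    have h2 : κ ^ 2 * ∑ x ∈ A \ X, pT T x ≤ Q := by
      rw [Finset.mul_sum, hQ]
      refine (Finset.sum_le_sum (f := fun x => κ ^ 2 * pT T x)
        (g := fun x => pT T x * (pT T x - 1 / M) ^ 2) (fun x hx => ?_)).trans
        (Finset.sum_le_sum_of_subset_of_nonneg Finset.sdiff_subset
          (fun x _ _ => mul_nonneg (hp0 x) (sq_nonneg _)))
      rw [Finset.mem_sdiff] at hx
      have h3 : ¬ |pT T x - 1 / M| ≤ κ := fun h => hx.2 (Finset.mem_filter.2 ⟨hx.1, h⟩)
      push Not at h3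
      have h4 : κ ^ 2 ≤ (pT T x - 1 / M) ^ 2 := by
        rw [← sq_abs (pT T x - 1 / M)]
        exact pow_le_pow_left₀ hκ.le h3.le 2
      show κ ^ 2 * pT T x ≤ pT T x * (pT T x - 1 / M) ^ 2
      rw [mul_comm]
      exact mul_le_mul_of_nonneg_left h4 (hp0 x)
    have h3 : κ ^ 2 * ∑ x ∈ A \ X, pT T x ≤ κ ^ 2 * κ ^ 2 := by
      have : 39 * η ≤ κ ^ 2 * κ ^ 2 := by
        have h4 : κ ^ 2 * κ ^ 2 = κ ^ 4 := by ring
        have h5 : 0 ≤ κ ^ 4 := by positivity
        rw [h4, hη]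
        linarith
      linarith
    exact le_of_mul_le_mul_left h3 (by positivity)
  have hXlow : (X.card : ℝ) * (1 / M - κ) ≤ ∑ x ∈ X, pT T x := by
    rw [← nsmul_eq_mul, ← Finset.sum_const]
    refine Finset.sum_le_sum (fun x hx => ?_)
    have := (abs_le.1 (hXmem x hx)).1
    linarith
  have hXup : ∑ x ∈ X, pT T x ≤ (X.card : ℝ) * (1 / M + κ) := by
    rw [← nsmul_eq_mul, ← Finset.sum_const]
    refine Finset.sum_le_sum (fun x hx => ?_)
    have := (abs_le.1 (hXmem x hx)).2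
    linarith
  have hrest0 : 0 ≤ ∑ x ∈ A \ X, pT T x := Finset.sum_nonneg (fun x _ => hp0 x)
  have hcard : X.card = M := by
    apply le_antisymm
    · by_contra h
      push Not at h
      have h2 : (M : ℝ) + 1 ≤ X.card := by exact_mod_cast h
      have h3 : ((M : ℝ) + 1) * (1 / M - κ) ≤ (X.card : ℝ) * (1 / M - κ) :=
        mul_le_mul_of_nonneg_right h2 (by linarith)
      have h4 : ((M : ℝ) + 1) * (1 / M - κ) = 1 + 1 / M - M * κ - κ := by
        have : ((M : ℝ) + 1) * (1 / M - κ) = 1 / M * M + 1 / M - M * κ - κ := by ring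
        rw [this, hiM]
      have h5 : 2 * κ ≤ M * κ := mul_le_mul_of_nonneg_right hM' hκ.le
      linarith
    · by_contra h
      push Not at h
      have h2 : (X.card : ℝ) + 1 ≤ M := by exact_mod_cast h
      have h3 : (X.card : ℝ) * (1 / M + κ) ≤ ((M : ℝ) - 1) * (1 / M + κ) :=
        mul_le_mul_of_nonneg_right (by linarith) (by linarith)
      have h4 : ((M : ℝ) - 1) * (1 / M + κ) = 1 - 1 / M + M * κ - κ := by
        have : ((M : ℝ) - 1) * (1 / M + κ) = 1 / M * M - 1 / M + M * κ - κ := by ring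
        rw [this, hiM]
      have h5 : 0 < M * κ := by positivity
      linarith
  refine ⟨fun i => X.orderEmbOfFin hcard i, (X.orderEmbOfFin hcard).injective, fun i => ?_,
    fun i => ?_, ?_⟩
  · exact hXA (Finset.orderEmbOfFin_mem X hcard i)
  · exact hXmem _ (Finset.orderEmbOfFin_mem X hcard i)
  · have h2 : (n : ℝ) + ((univ.filter (fun v => 2 ≤ (T v).card)).card : ℝ) -
        ((univ.filter (fun v => T v = ∅)).card : ℝ) ≤ ∑ v, ((T v).card : ℝ) := by
      have e1 : (n : ℝ) = ∑ _v : Fin n, (1 : ℝ) := by simp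
      have e2 : ((univ.filter (fun v => 2 ≤ (T v).card)).card : ℝ) =
          ∑ v, if 2 ≤ (T v).card then (1 : ℝ) else 0 := by
        rw [Finset.sum_boole]
      have e3 : ((univ.filter (fun v => T v = ∅)).card : ℝ) =
          ∑ v, if T v = ∅ then (1 : ℝ) else 0 := by
        rw [Finset.sum_boole]
      rw [e2, e3]
      nth_rewrite 1 [e1]
      rw [← Finset.sum_add_distrib, ← Finset.sum_sub_distrib]
      refine Finset.sum_le_sum (fun v _ => ?_)
      by_cases h3 : T v = ∅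
      · have h4 : ¬ 2 ≤ (T v).card := by rw [h3]; simp
        rw [if_neg h4, if_pos h3, h3]
        simp
      · rw [if_neg h3]
        have h4 : 1 ≤ (T v).card := Finset.card_pos.2 (Finset.nonempty_iff_ne_empty.2 h3)
        split_ifs with h5
        · have : (2 : ℝ) ≤ (T v).card := by exact_mod_cast h5
          linarith
        · have : (1 : ℝ) ≤ (T v).card := by exact_mod_cast h4
          linarith
    have h3 : ((univ.filter (fun v => T v = ∅)).card : ℝ) ≤ n - Vg.card := by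
      have h4 : (univ.filter (fun v => T v = ∅)) ⊆ univ \ Vg := by
        intro v hv
        rw [Finset.mem_sdiff]
        refine ⟨Finset.mem_univ _, fun h5 => ?_⟩
        have h6 := hTne v h5
        rw [(Finset.mem_filter.1 hv).2] at h6
        simp at h6
      have h5 := Finset.card_le_card h4
      have h6 : (univ \ Vg).card + Vg.card = n := by
        rw [Finset.card_sdiff_add_card_eq_card (Finset.subset_univ _), Finset.card_univ,
          Fintype.card_fin]
      have h7 : ((univ \ Vg).card : ℝ) + Vg.card = n := by exact_mod_cast h6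
      have h8 : ((univ.filter (fun v => T v = ∅)).card : ℝ) ≤ ((univ \ Vg).card : ℝ) := by
        exact_mod_cast h5
      linarith
    have h4 : ∑ v, ((T v).card : ℝ) ≤ n * (1 + 24 * η) := by
      rw [← hs1]
      exact mul_le_mul_of_nonneg_left hs1up hn'.le
    have h5 : ((univ.filter (fun v => 2 ≤ (T v).card)).card : ℝ) ≤ 25 * η * n := by
      have h6 : (n : ℝ) * (1 + 24 * η) = n + 24 * η * n := by ring
      have h7 : (1 - η) * (n : ℝ) = n - η * n := by ring
      linarith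
    refine h5.trans ?_
    exact mul_le_mul_of_nonneg_right (by linarith) hn'.le

end Pool.Agent.Work.MP_1ce445_stm
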