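import Pool.Agent.Work.MP_1ce445_stm.Interface

/-!
Block DEG: the degree sum (helper58).
-/

namespace Pool.Agent.Work.MP_1ce445_stm

open Finset Pool.Agent.Work.MP_1ce445_co_56 Pool.Agent.Work.MP_1ce445_lin
  Pool.Agent.Work.MP_1ce445_fx

lemma DEG_split {n : ℕ} (H : SimpleGraph (Fin n)) (θ : ℝ) (v : Fin n) :
    dg H univ v = dg H (hi H θ) v + dg H (low H θ) v := by
  classical
  unfold MP_1ce445_fx.dg
  rw [← card_union_of_disjoint]
  · congr 1
    ext w
    simp only [mem_filter, mem_univ, true_and, mem_union, hi, low]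
    constructor
    · intro h
      rcases le_or_gt (θ * n) (dg H univ w : ℝ) with h1 | h1
      · exact Or.inl ⟨h1, h⟩
      · exact Or.inr ⟨h1, h⟩
    · rintro (h | h) <;> exact h.2
  · rw [Finset.disjoint_left]
    intro w h1 h2
    simp only [mem_filter, mem_univ, true_and, hi, low] at h1 h2
    exact absurd h2.1 (not_lt.2 h1.1)

lemma DEG_total {n k : ℕ} (G : Fin k → SimpleGraph (Fin n)) (hG : IsFactorization G)
    (v : Fin n) : ∑ l, dg (G l) univ v + 1 = n := by
  classical
  have h := sum_degree hG v
  rw [Fintype.card_fin] at h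
  have hn : 0 < n := lt_of_le_of_lt (Nat.zero_le _) v.isLt
  have h1 : ∑ l, dg (G l) univ v = n - 1 := by
    rw [← h]
    apply sum_congr rfl
    intro l _
    unfold MP_1ce445_fx.dg
    congr
  omega

theorem stmt_DEG : Stmt_DEG := by
  classical
  intro n k M G e θ hG he v
  have h1 := DEG_total G hG v
  have hdis : Disjoint (univ.image e) (ot e) := by
    rw [Finset.disjoint_left]
    intro l h2 h3
    obtain ⟨i, -, rfl⟩ := mem_image.1 h2
    simp only [ot, mem_filter, mem_univ, true_and] at h3
    exact h3 i rfl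
  have hun : univ.image e ∪ ot e = univ := by
    ext l
    simp only [mem_union, mem_image, mem_univ, true_and, ot, mem_filter, iff_true]
    by_cases h2 : ∃ i, e i = l
    · exact Or.inl h2
    · right
      intro i hi
      exact h2 ⟨i, hi.symm⟩
  have h2 : ∑ l, dg (G l) univ v = ∑ l ∈ univ.image e, dg (G l) univ v +
      ∑ l ∈ ot e, dg (G l) univ v := by
    rw [← sum_union hdis, hun]
  have h3 : ∑ l ∈ univ.image e, dg (G l) univ v = ∑ i, dg (G (e i)) univ v :=
    sum_image (fun i _ j _ h => he h)
  have h4 : ∑ i, dg (G (e i)) univ v = ∑ i, dg (G (e i)) (hi (G (e i)) θ) v + dd G e θ v := by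
    unfold dd
    rw [← sum_add_distrib]
    exact sum_congr rfl fun i _ => DEG_split _ _ _
  have h5 : ∑ l ∈ ot e, dg (G l) univ v = EE G e v + (ot e).card := by
    unfold EE
    rw [card_eq_sum_ones, ← sum_add_distrib]
    apply sum_congr rfl
    intro l _
    obtain ⟨w, hw⟩ := hG.minDeg l v
    have h6 : 0 < dg (G l) univ v := by
      unfold MP_1ce445_fx.dg
      exact card_pos.2 ⟨w, by simpa using hw⟩
    omega
  have h6 : (ot e).card + M = k := by
    have h7 : (univ.image e ∪ ot e).card = (univ.image e).card + (ot e).card :=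
      card_union_of_disjoint hdis
    rw [hun, card_univ, Fintype.card_fin, card_image_of_injective _ he, card_univ,
      Fintype.card_fin] at h7
    omega
  omega

end Pool.Agent.Work.MP_1ce445_stm
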