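import Pool.Agent.Work.MP_1ce445_stm.Interface

/-!
Block DMO of the second staircase: moments of `dd`.
-/

namespace Pool.Agent.Work.MP_1ce445_stm

open Finset Pool.Agent.Work.MP_1ce445_co_56 Pool.Agent.Work.MP_1ce445_lin
  Pool.Agent.Work.MP_1ce445_fx

open Classical in
lemma DMO_comm {n : ℕ} (H : SimpleGraph (Fin n)) (Y : Finset (Fin n)) :
    ∑ v, (dg H Y v : ℝ) = ∑ y ∈ Y, (dg H univ y : ℝ) := by
  have h1 : ∀ v, (dg H Y v : ℝ) = ∑ y ∈ Y, (if H.Adj v y then (1 : ℝ) else 0) := by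
    intro v
    simp [MP_1ce445_fx.dg]
  have h2 : ∀ y, (dg H univ y : ℝ) = ∑ v, (if H.Adj v y then (1 : ℝ) else 0) := by
    intro y
    simp [MP_1ce445_fx.dg, SimpleGraph.adj_comm]
  simp only [h1, h2]
  exact Finset.sum_comm

lemma DMO_low {n : ℕ} (H : SimpleGraph (Fin n)) (θ : ℝ) (hθ : 0 ≤ θ) :
    ∑ v, (dg H (low H θ) v : ℝ) ≤ θ * (n : ℝ) ^ 2 := by
  rw [DMO_comm]
  calc ∑ y ∈ low H θ, (dg H univ y : ℝ) ≤ ∑ y ∈ low H θ, θ * n := by
        refine Finset.sum_le_sum fun y hy => ?_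
        simp only [low, mem_filter, mem_univ, true_and] at hy
        exact hy.le
    _ = (low H θ).card * (θ * n) := by simp
    _ ≤ (n : ℝ) * (θ * n) := by
        have h1 : ((low H θ).card : ℝ) ≤ n := by
          have := Finset.card_le_univ (low H θ)
          simp only [Fintype.card_fin] at this
          exact_mod_cast this
        gcongr
    _ = θ * (n : ℝ) ^ 2 := by ring

theorem stmt_DMO : Stmt_DMO := by
  intro n k M Δ G e θ hθ hΔ
  have hdd : ∀ v, (dd G e θ v : ℝ) = ∑ i, (dg (G (e i)) (low (G (e i)) θ) v : ℝ) := by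
    intro v
    unfold dd
    push_cast
    rfl
  have hle : ∀ v, (dd G e θ v : ℝ) ≤ M * Δ := by
    intro v
    rw [hdd]
    calc ∑ i, (dg (G (e i)) (low (G (e i)) θ) v : ℝ) ≤ ∑ _i : Fin M, (Δ : ℝ) :=
          sum_le_sum fun i _ => by exact_mod_cast hΔ i v
      _ = M * Δ := by simp
  have h1 : ∑ v, (dd G e θ v : ℝ) ≤ M * θ * n ^ 2 := by
    simp only [hdd]
    rw [sum_comm]
    calc ∑ i, ∑ v, (dg (G (e i)) (low (G (e i)) θ) v : ℝ) ≤ ∑ _i : Fin M, θ * (n : ℝ) ^ 2 :=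
          sum_le_sum fun i _ => DMO_low _ _ hθ
      _ = M * θ * n ^ 2 := by simp [mul_assoc]
  refine ⟨h1, ?_, ?_⟩
  · calc ∑ v, (dd G e θ v : ℝ) ≤ ∑ _v : Fin n, (M : ℝ) * Δ := sum_le_sum fun v _ => hle v
      _ = M * Δ * n := by simp [mul_comm]
  · intro r hr
    obtain ⟨q, rfl⟩ : ∃ q, r = q + 1 := ⟨r - 1, by omega⟩
    rw [Nat.add_sub_cancel]
    calc ∑ v, (dd G e θ v : ℝ) ^ (q + 1) ≤ ∑ v, ((M : ℝ) * Δ) ^ q * (dd G e θ v : ℝ) := by
          refine sum_le_sum fun v _ => ?_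
          rw [pow_succ]
          exact mul_le_mul_of_nonneg_right
            (pow_le_pow_left₀ (Nat.cast_nonneg _) (hle v) q) (Nat.cast_nonneg _)
      _ = ((M : ℝ) * Δ) ^ q * ∑ v, (dd G e θ v : ℝ) := by rw [mul_sum]
      _ ≤ ((M : ℝ) * Δ) ^ q * (M * θ * n ^ 2) :=
          mul_le_mul_of_nonneg_left h1 (by positivity)

end Pool.Agent.Work.MP_1ce445_stm
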