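import Pool.Agent.Work.MP_1ce445_stm.Interface

namespace Pool.Agent.Work.MP_1ce445_stm

open Finset Pool.Agent.Work.MP_1ce445_co_56 Pool.Agent.Work.MP_1ce445_lin
  Pool.Agent.Work.MP_1ce445_fx

theorem ERS_seven (r : ℕ) (a : Fin 7 → ℝ) (h : ∀ i, 0 ≤ a i) :
    (∑ i, a i) ^ r ≤ 7 ^ r * ∑ i, a i ^ r := by
  obtain ⟨j, -, hj⟩ := Finset.exists_max_image (univ : Finset (Fin 7)) a ⟨0, mem_univ _⟩
  have h1 : ∑ i, a i ≤ 7 * a j := by
    calc ∑ i, a i ≤ ∑ _i : Fin 7, a j := Finset.sum_le_sum (fun i _ => hj i (mem_univ i))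
      _ = 7 * a j := by simp
  have h0 : 0 ≤ ∑ i, a i := Finset.sum_nonneg (fun i _ => h i)
  calc (∑ i, a i) ^ r ≤ (7 * a j) ^ r := pow_le_pow_left₀ h0 h1 r
    _ = 7 ^ r * a j ^ r := mul_pow _ _ _
    _ ≤ 7 ^ r * ∑ i, a i ^ r := by
        refine mul_le_mul_of_nonneg_left ?_ (by positivity)
        exact Finset.single_le_sum (f := fun i => a i ^ r) (fun i _ => pow_nonneg (h i) r)
          (mem_univ j)

theorem ERS_seven2 (r : ℕ) (a b c d e f g : ℝ) (ha : 0 ≤ a) (hb : 0 ≤ b) (hc : 0 ≤ c)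
    (hd : 0 ≤ d) (he : 0 ≤ e) (hf : 0 ≤ f) (hg : 0 ≤ g) :
    (a + b + c + d + e + f + g) ^ r ≤
      7 ^ r * (a ^ r + b ^ r + c ^ r + d ^ r + e ^ r + f ^ r + g ^ r) := by
  have h := ERS_seven r ![a, b, c, d, e, f, g] (by
    intro i
    fin_cases i <;> simp <;> assumption)
  simpa [Fin.sum_univ_seven] using h

theorem ERS_piece (r : ℕ) (hr : 2 ≤ r) (N x b : ℝ) (hN : 0 < N) (hx : 0 ≤ x) (hb : 0 ≤ b)
    (hb1 : b ≤ 1) (hxb : x ≤ b * N) : N * x ^ r ≤ N ^ r * (b * x) := by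
  obtain ⟨q, rfl⟩ : ∃ q, r = q + 2 := ⟨r - 2, by omega⟩
  have h1 : x ^ (q + 1) ≤ b * N ^ (q + 1) := by
    calc x ^ (q + 1) ≤ (b * N) ^ (q + 1) := pow_le_pow_left₀ hx hxb _
      _ = b ^ (q + 1) * N ^ (q + 1) := mul_pow _ _ _
      _ ≤ b * N ^ (q + 1) := by
          refine mul_le_mul_of_nonneg_right ?_ (by positivity)
          calc b ^ (q + 1) ≤ b ^ 1 := pow_le_pow_of_le_one hb hb1 (by omega)
            _ = b := pow_one b
  calc N * x ^ (q + 2) = N * x * x ^ (q + 1) := by ring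
    _ ≤ N * x * (b * N ^ (q + 1)) := mul_le_mul_of_nonneg_left h1 (by positivity)
    _ = N ^ (q + 2) * (b * x) := by ring

theorem stmt_ERS (hE : Stmt_EMO) (hD : Stmt_DMO) (hX : Stmt_XBD) : Stmt_ERS := by
  intro M r hr
  set S : ℝ := (M : ℝ) ^ r + ((M : ℝ) + 1) ^ r + (2 * (M : ℝ) ^ 2) ^ r * (M : ℝ) ^ 2 +
    3 * (2 * (M : ℝ) ^ 2) ^ r + (2 * (M : ℝ)) ^ r * (2 * (M : ℝ) ^ 2) + (M : ℝ) ^ r + 3 with hS
  have hS0 : 0 ≤ S := by rw [hS]; positivity
  refine ⟨(7 * (M : ℝ)) ^ r * S + 1, by positivity, ?_⟩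
  intro n k Δ G e θ s δ hSt ht hΔn hΔ
  obtain ⟨hX1, hX2⟩ := hX n k M G e θ s hSt
  obtain ⟨two, pos, fac, inj, th, th', s0, s1, tnn, big, ovl, def'⟩ := hSt
  obtain ⟨hE1, hE2, hE3⟩ := hE n k M G e fac
  obtain ⟨hD1, hD2, hD3⟩ := hD n k M Δ G e θ th.le hΔ
  have hE3' := hE3 r (by omega)
  have hD3' := hD3 r (by omega)
  have hm : (2 : ℝ) ≤ (M : ℝ) := by exact_mod_cast two
  have hN : (0 : ℝ) < (n : ℝ) := by exact_mod_cast pos
  generalize hmM : (M : ℝ) = m at *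
  generalize hNn : (n : ℝ) = N at *
  set L : ℝ := (Ls G e : ℝ) with hL
  set O : ℝ := ((ov G e θ).card : ℝ) with hO
  set T : ℝ := tt n k M with hT
  set D : ℝ := ∑ v, (dd G e θ v : ℝ) with hDdef
  set F : ℝ := ∑ v, (EE G e v : ℝ) with hF
  set X : ℝ := Xb G e θ with hXdef
  have hL0 : 0 ≤ L := by positivity
  have hO0 : 0 ≤ O := by positivity
  have hD0 : 0 ≤ D := Finset.sum_nonneg (fun v _ => by positivity)
  have hF0 : 0 ≤ F := Finset.sum_nonneg (fun v _ => by positivity)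
  have hΔ0 : (0 : ℝ) ≤ (Δ : ℝ) := by positivity
  have hΔN : (Δ : ℝ) ≤ N := by rw [← hNn]; exact_mod_cast hΔn
  have hF2 : F ≤ 3 * L ^ 2 := by
    rw [hF, hL]; exact_mod_cast hE2
  have hF3 : ∑ v, (EE G e v : ℝ) ^ r ≤ 3 * L ^ (r + 1) := by
    rw [hL]; exact_mod_cast hE3'
  have hs1 : s ≤ 1 := by nlinarith
  have hmth : m * θ ≤ 1 := by nlinarith
  have hmth2 : 2 * m ^ 2 * θ ≤ 1 := by nlinarith
  have hδ : 0 ≤ δ := by
    have h1 : 0 ≤ T ^ r := pow_nonneg tnn r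
    have h2 : 0 < N ^ (r - 1) := by positivity
    by_contra hneg
    push Not at hneg
    nlinarith
  -- the pieces
  have P1 : N * (m * O) ^ r ≤ N ^ r * (m ^ r * (s * O)) := by
    have h := ERS_piece r hr N O s hN hO0 s0.le hs1 ovl
    calc N * (m * O) ^ r = m ^ r * (N * O ^ r) := by rw [mul_pow]; ring
      _ ≤ m ^ r * (N ^ r * (s * O)) := mul_le_mul_of_nonneg_left h (by positivity)
      _ = _ := by ring
  have P2 : N * ((m + 1) * T) ^ r ≤ N ^ r * ((m + 1) ^ r * δ) := by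
    have hNr : N * N ^ (r - 1) = N ^ r := by
      obtain ⟨q, rfl⟩ : ∃ q, r = q + 1 := ⟨r - 1, by omega⟩
      simp only [Nat.add_sub_cancel]; ring
    calc N * ((m + 1) * T) ^ r = (m + 1) ^ r * (N * T ^ r) := by rw [mul_pow]; ring
      _ ≤ (m + 1) ^ r * (N * (δ * N ^ (r - 1))) :=
          mul_le_mul_of_nonneg_left (mul_le_mul_of_nonneg_left ht hN.le) (by positivity)
      _ = (m + 1) ^ r * δ * (N * N ^ (r - 1)) := by ring
      _ = _ := by rw [hNr]; ring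
  have P3 : N * (2 * m ^ 2 / N * D) ^ r ≤ N ^ r * ((2 * m ^ 2) ^ r * m ^ 2 * (θ * Δ)) := by
    have hx : D / N ≤ (m * θ) * N := by
      rw [div_le_iff₀ hN]; nlinarith
    have hx2 : D / N ≤ m * Δ := by
      rw [div_le_iff₀ hN]; linarith
    have h := ERS_piece r hr N (D / N) (m * θ) hN (by positivity) (by positivity) hmth hx
    calc N * (2 * m ^ 2 / N * D) ^ r = (2 * m ^ 2) ^ r * (N * (D / N) ^ r) := by
          rw [show 2 * m ^ 2 / N * D = (2 * m ^ 2) * (D / N) by ring, mul_pow]; ring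
      _ ≤ (2 * m ^ 2) ^ r * (N ^ r * (m * θ * (D / N))) :=
          mul_le_mul_of_nonneg_left h (by positivity)
      _ ≤ (2 * m ^ 2) ^ r * (N ^ r * (m * θ * (m * Δ))) := by
          refine mul_le_mul_of_nonneg_left (mul_le_mul_of_nonneg_left
            (mul_le_mul_of_nonneg_left hx2 (by positivity)) (by positivity)) (by positivity)
      _ = _ := by ring
  have hLN : L * L ≤ s * L * N := by nlinarith
  have P4 : N * (2 * m ^ 2 / N * F) ^ r ≤ N ^ r * (3 * (2 * m ^ 2) ^ r * (s * L)) := by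
    have hx2 : F / N ≤ 3 * (s * L) := by
      rw [div_le_iff₀ hN]; nlinarith
    have hx : F / N ≤ 1 * N := by
      have : 3 * (s * L) ≤ N := by
        have h1 : s * L ≤ s * (s * N) := mul_le_mul_of_nonneg_left def' s0.le
        have h3 : 8 * s ≤ 1 := by nlinarith
        nlinarith [mul_nonneg s0.le hN.le, mul_nonneg (mul_nonneg s0.le s0.le) hN.le]
      linarith
    have h := ERS_piece r hr N (F / N) 1 hN (by positivity) (by norm_num) le_rfl hx
    calc N * (2 * m ^ 2 / N * F) ^ r = (2 * m ^ 2) ^ r * (N * (F / N) ^ r) := by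
          rw [show 2 * m ^ 2 / N * F = (2 * m ^ 2) * (F / N) by ring, mul_pow]; ring
      _ ≤ (2 * m ^ 2) ^ r * (N ^ r * (1 * (F / N))) :=
          mul_le_mul_of_nonneg_left h (by positivity)
      _ ≤ (2 * m ^ 2) ^ r * (N ^ r * (1 * (3 * (s * L)))) := by
          refine mul_le_mul_of_nonneg_left (mul_le_mul_of_nonneg_left
            (mul_le_mul_of_nonneg_left hx2 (by positivity)) (by positivity)) (by positivity)
      _ = _ := by ring
  have P5 : N * (2 * m * X) ^ r ≤ N ^ r * ((2 * m) ^ r * (2 * m ^ 2) * (θ * X)) := by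
    have h := ERS_piece r hr N X (2 * m ^ 2 * θ) hN hX1 (by positivity) hmth2 hX2
    calc N * (2 * m * X) ^ r = (2 * m) ^ r * (N * X ^ r) := by rw [mul_pow]; ring
      _ ≤ (2 * m) ^ r * (N ^ r * (2 * m ^ 2 * θ * X)) :=
          mul_le_mul_of_nonneg_left h (by positivity)
      _ = _ := by ring
  have P6 : ∑ v, (dd G e θ v : ℝ) ^ r ≤ N ^ r * (m ^ r * (θ * Δ)) := by
    refine hD3'.trans ?_
    obtain ⟨q, rfl⟩ : ∃ q, r = q + 2 := ⟨r - 2, by omega⟩
    have hp : (Δ : ℝ) ^ q ≤ N ^ q := pow_le_pow_left₀ hΔ0 hΔN q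
    rw [show q + 2 - 1 = q + 1 by omega]
    calc (m * (Δ : ℝ)) ^ (q + 1) * (m * θ * N ^ 2)
        = m ^ (q + 2) * θ * Δ * N ^ 2 * (Δ : ℝ) ^ q := by rw [mul_pow]; ring
      _ ≤ m ^ (q + 2) * θ * Δ * N ^ 2 * N ^ q := mul_le_mul_of_nonneg_left hp (by positivity)
      _ = _ := by ring
  have P7 : ∑ v, (EE G e v : ℝ) ^ r ≤ N ^ r * (3 * (s * L)) := by
    refine hF3.trans ?_
    have h1 : L ^ r ≤ s * N ^ r := by
      calc L ^ r ≤ (s * N) ^ r := pow_le_pow_left₀ hL0 def' r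
        _ = s ^ r * N ^ r := mul_pow _ _ _
        _ ≤ s * N ^ r := by
            refine mul_le_mul_of_nonneg_right ?_ (by positivity)
            calc s ^ r ≤ s ^ 1 := pow_le_pow_of_le_one s0.le hs1 (by omega)
              _ = s := pow_one s
    calc 3 * L ^ (r + 1) = 3 * L * L ^ r := by ring
      _ ≤ 3 * L * (s * N ^ r) := mul_le_mul_of_nonneg_left h1 (by positivity)
      _ = _ := by ring
  -- the sum
  have hev : ∀ v, ev G e θ v ^ r ≤ (m / N) ^ r * (7 ^ r * ((m * O) ^ r + ((m + 1) * T) ^ r +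
      (2 * m ^ 2 / N * D) ^ r + (2 * m ^ 2 / N * F) ^ r + (2 * m * X) ^ r +
      (dd G e θ v : ℝ) ^ r + (EE G e v : ℝ) ^ r)) := by
    intro v
    have h1 : ev G e θ v = m / N * (m * O + (m + 1) * T + 2 * m ^ 2 / N * D +
        2 * m ^ 2 / N * F + 2 * m * X + (dd G e θ v : ℝ) + (EE G e v : ℝ)) := by
      rw [ev, bb, Finset.sum_add_distrib, hmM, hNn]
      ring
    rw [h1, mul_pow]
    refine mul_le_mul_of_nonneg_left ?_ (by positivity)
    exact ERS_seven2 r _ _ _ _ _ _ _ (by positivity) (by positivity) (by positivity)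
      (by positivity) (by positivity) (by positivity) (by positivity)
  have hcard : ∀ c : ℝ, ∑ _v : Fin n, c = N * c := by
    intro c
    simp [hNn]
  have hmain : ∑ v, ev G e θ v ^ r ≤ (m / N) ^ r * (7 ^ r * (N ^ r * (m ^ r * (s * O)) +
      N ^ r * ((m + 1) ^ r * δ) + N ^ r * ((2 * m ^ 2) ^ r * m ^ 2 * (θ * Δ)) +
      N ^ r * (3 * (2 * m ^ 2) ^ r * (s * L)) +
      N ^ r * ((2 * m) ^ r * (2 * m ^ 2) * (θ * X)) + N ^ r * (m ^ r * (θ * Δ)) +
      N ^ r * (3 * (s * L)))) := by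
    refine (Finset.sum_le_sum (fun v _ => hev v)).trans ?_
    rw [← Finset.mul_sum, ← Finset.mul_sum]
    refine mul_le_mul_of_nonneg_left (mul_le_mul_of_nonneg_left ?_ (by positivity))
      (by positivity)
    simp only [Finset.sum_add_distrib, hcard]
    linarith
  have hNr : 0 < N ^ r := by positivity
  have hfac : (m / N) ^ r * (7 ^ r * (N ^ r * (m ^ r * (s * O)) +
      N ^ r * ((m + 1) ^ r * δ) + N ^ r * ((2 * m ^ 2) ^ r * m ^ 2 * (θ * Δ)) +
      N ^ r * (3 * (2 * m ^ 2) ^ r * (s * L)) +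
      N ^ r * ((2 * m) ^ r * (2 * m ^ 2) * (θ * X)) + N ^ r * (m ^ r * (θ * Δ)) +
      N ^ r * (3 * (s * L)))) = (7 * m) ^ r * (m ^ r * (s * O) + (m + 1) ^ r * δ +
      (2 * m ^ 2) ^ r * m ^ 2 * (θ * Δ) + 3 * (2 * m ^ 2) ^ r * (s * L) +
      (2 * m) ^ r * (2 * m ^ 2) * (θ * X) + m ^ r * (θ * Δ) + 3 * (s * L)) := by
    rw [div_pow, mul_pow 7 m]
    field_simp
  rw [hfac] at hmain
  refine hmain.trans ?_
  have q1 : 0 ≤ s * O := by positivity
  have q2 : 0 ≤ θ * Δ := by positivity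
  have q3 : 0 ≤ s * L := by positivity
  have q4 : 0 ≤ θ * X := by positivity
  have c1 : 0 ≤ m ^ r := by positivity
  have c2 : 0 ≤ (m + 1) ^ r := by positivity
  have c3 : 0 ≤ (2 * m ^ 2) ^ r * m ^ 2 := by positivity
  have c4 : 0 ≤ 3 * (2 * m ^ 2) ^ r := by positivity
  have c5 : 0 ≤ (2 * m) ^ r * (2 * m ^ 2) := by positivity
  have e1 : m ^ r * (s * O) ≤ S * (s * O) := mul_le_mul_of_nonneg_right (by linarith) q1
  have e2 : (m + 1) ^ r * δ ≤ S * δ := mul_le_mul_of_nonneg_right (by linarith) hδ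
  have e3 : ((2 * m ^ 2) ^ r * m ^ 2 + m ^ r) * (θ * Δ) ≤ S * (θ * Δ) :=
    mul_le_mul_of_nonneg_right (by linarith) q2
  have e4 : (3 * (2 * m ^ 2) ^ r + 3) * (s * L) ≤ S * (s * L) :=
    mul_le_mul_of_nonneg_right (by linarith) q3
  have e5 : ((2 * m) ^ r * (2 * m ^ 2)) * (θ * X) ≤ S * (θ * X) :=
    mul_le_mul_of_nonneg_right (by linarith) q4
  have hsum : m ^ r * (s * O) + (m + 1) ^ r * δ +
      (2 * m ^ 2) ^ r * m ^ 2 * (θ * Δ) + 3 * (2 * m ^ 2) ^ r * (s * L) +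
      (2 * m) ^ r * (2 * m ^ 2) * (θ * X) + m ^ r * (θ * Δ) + 3 * (s * L) ≤
      S * (δ + s * O + θ * Δ + s * L + θ * X) := by
    have r1 : S * (δ + s * O + θ * Δ + s * L + θ * X) =
      S * (s * O) + S * δ + S * (θ * Δ) + S * (s * L) + S * (θ * X) := by ring
    rw [r1]
    linarith
  have hZ : 0 ≤ δ + s * O + θ * Δ + s * L + θ * X := by linarith
  calc (7 * m) ^ r * _ ≤ (7 * m) ^ r * (S * (δ + s * O + θ * Δ + s * L + θ * X)) :=
        mul_le_mul_of_nonneg_left hsum (by positivity)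
    _ ≤ ((7 * m) ^ r * S + 1) * (δ + s * O + θ * Δ + s * L + θ * X) := by nlinarith

end Pool.Agent.Work.MP_1ce445_stm
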