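import Pool.Agent.Work.MP_1ce445_stm.Interface

/-! # Block GAI: the gain -/

namespace Pool.Agent.Work.MP_1ce445_stm

open Finset Pool.Agent.Work.MP_1ce445_co_56 Pool.Agent.Work.MP_1ce445_lin
  Pool.Agent.Work.MP_1ce445_fx

lemma GAI_ov {n k M : ℕ} (G : Fin k → SimpleGraph (Fin n)) (e : Fin M → Fin k) (θ : ℝ)
    (v : Fin n) : v ∈ ov G e θ ↔
      ∃ i j, i ≠ j ∧ v ∈ hi (G (e i)) θ ∧ v ∈ hi (G (e j)) θ := by
  unfold ov
  simp

lemma GAI_mono {n : ℕ} (H : SimpleGraph (Fin n)) (Y : Finset (Fin n)) (v : Fin n) :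
    dg H Y v ≤ dg H univ v := by
  classical
  unfold MP_1ce445_fx.dg
  exact card_le_card (filter_subset_filter _ (subset_univ _))

lemma GAI_split {n : ℕ} (H : SimpleGraph (Fin n)) (θ : ℝ) (v : Fin n) :
    dg H univ v ≤ dg H (hi H θ) v + dg H (low H θ) v := by
  classical
  unfold MP_1ce445_fx.dg
  refine le_trans (card_le_card ?_) (card_union_le _ _)
  intro w hw
  rw [mem_filter] at hw
  rw [mem_union, mem_filter, mem_filter]
  rcases le_or_gt (θ * n) (dg H univ w : ℝ) with h | h
  · left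
    refine ⟨?_, hw.2⟩
    unfold hi
    exact mem_filter.2 ⟨mem_univ _, h⟩
  · right
    refine ⟨?_, hw.2⟩
    unfold low
    exact mem_filter.2 ⟨mem_univ _, h⟩

theorem stmt_GAI : Stmt_SUR → Stmt_HIN → Stmt_EVB → Stmt_GAI := by
  classical
  intro hSUR hHIN hEVB n k M r Δ G e θ s hr hS hΔ
  obtain ⟨hx, -, -⟩ := hSUR n k M r G e θ s hS
  have hev := hEVB n k M G e θ s hS
  have hM : (2 : ℝ) ≤ M := by exact_mod_cast hS.two
  have hn : (0 : ℝ) < n := by exact_mod_cast hS.pos
  have hθ := hS.th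
  have hMθ : (M : ℝ) * θ ≤ 1 / 8 := by
    have h1 := hS.th'
    have h2 : 4 * (2 * ((M : ℝ) * θ)) ≤ 4 * (M : ℝ) ^ 2 * θ := by
      have h3 : 2 * ((M : ℝ) * θ) ≤ M * ((M : ℝ) * θ) :=
        mul_le_mul_of_nonneg_right hM (by positivity)
      nlinarith
    linarith
  have hθ1 : θ ≤ 1 := by nlinarith
  obtain ⟨κ, hκ⟩ : ∃ κ : ℝ, κ = θ - (Δ : ℝ) / n := ⟨_, rfl⟩
  have hΔn : (0 : ℝ) ≤ (Δ : ℝ) / n := by positivity
  have hκ1 : κ ≤ 1 := by
    rw [hκ]
    linarith
  have hhi : ∀ i, (0 : ℝ) < (hi (G (e i)) θ).card := by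
    intro i
    have h1 := hS.big i
    have h2 : 0 < 3 * (n : ℝ) / (4 * M) := by positivity
    linarith
  have hhn : ∀ i, ((hi (G (e i)) θ).card : ℝ) ≤ n := by
    intro i
    have h1 := card_le_univ (hi (G (e i)) θ)
    rw [Fintype.card_fin] at h1
    exact_mod_cast h1
  -- large degree
  have hκx : ∀ i v, v ∈ hi (G (e i)) θ → κ ≤ xx G e θ i v := by
    intro i v hv
    have h1 : θ * n ≤ (dg (G (e i)) univ v : ℝ) := by
      unfold hi at hv
      exact (mem_filter.1 hv).2
    have h2 : (dg (G (e i)) univ v : ℝ) ≤ dg (G (e i)) (hi (G (e i)) θ) v + Δ := by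
      have h3 := GAI_split (G (e i)) θ v
      have h4 := hΔ i v
      have h5 : dg (G (e i)) univ v ≤ dg (G (e i)) (hi (G (e i)) θ) v + Δ := by omega
      exact_mod_cast h5
    rcases le_or_gt κ 0 with h0 | h0
    · exact h0.trans (hx i v).1
    · unfold xx
      rw [le_div_iff₀ (hhi i)]
      have h3 : κ * (hi (G (e i)) θ).card ≤ κ * n :=
        mul_le_mul_of_nonneg_left (hhn i) h0.le
      have h4 : κ * n = θ * n - Δ := by
        rw [hκ]
        field_simp
      linarith
  -- small degree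
  have hxs : ∀ i v, v ∉ hi (G (e i)) θ → xx G e θ i v ≤ 1 / 2 := by
    intro i v hv
    have h1 : (dg (G (e i)) univ v : ℝ) < θ * n := by
      by_contra hcon
      push Not at hcon
      apply hv
      unfold hi
      exact mem_filter.2 ⟨mem_univ _, hcon⟩
    have h2 : (dg (G (e i)) (hi (G (e i)) θ) v : ℝ) ≤ dg (G (e i)) univ v := by
      exact_mod_cast GAI_mono (G (e i)) _ v
    unfold xx
    rw [div_le_iff₀ (hhi i)]
    have h3 := hS.big i
    have h4 : θ * n ≤ 1 / 2 * (3 * (n : ℝ) / (4 * M)) := by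
      rw [mul_div_assoc', le_div_iff₀ (by positivity)]
      nlinarith
    linarith
  obtain ⟨g, hg⟩ : ∃ g : Fin n → ℝ, g = fun v => ∑ j, (if v ∈ hi (G (e j)) θ \ ov G e θ then
    ∑ i ∈ univ.erase j, xx G e θ i v else 0) := ⟨_, rfl⟩
  have hXb : Xb G e θ = ∑ v, g v := by
    rw [hg, sum_comm]
    unfold Xb
    apply sum_congr rfl
    intro j _
    rw [sum_ite_mem, univ_inter]
  have hpt : ∀ v, 1 + (if v ∈ ov G e θ then κ / 4 else 0) + g v / 4 - 32 ^ r * ev G e θ v ^ r ≤
      ∑ i, (1 - (1 - xx G e θ i v) ^ r) := by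
    intro v
    obtain ⟨he0, he1⟩ := hev v
    obtain ⟨p1, p2⟩ := hHIN M r (fun i => xx G e θ i v) (ev G e θ v) hr he0
      (fun i => hx i v) he1
    have e32 : (32 * ev G e θ v) ^ r = 32 ^ r * ev G e θ v ^ r := by rw [mul_pow]
    rw [e32] at p1 p2
    by_cases hv : v ∈ ov G e θ
    · obtain ⟨i, j, hij, hvi, hvj⟩ := (GAI_ov G e θ v).1 hv
      have h1 := p2 i j κ hij hκ1 (hκx i v hvi) (hκx j v hvj)
      have h2 : g v = 0 := by
        rw [hg]
        simp only
        apply sum_eq_zero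
        intro j _
        rw [if_neg]
        rw [mem_sdiff]
        exact fun h => h.2 hv
      rw [if_pos hv, h2]
      linarith
    · rw [if_neg hv]
      by_cases hex : ∃ j, v ∈ hi (G (e j)) θ
      · obtain ⟨j, hj⟩ := hex
        have huniq : ∀ i, i ≠ j → v ∉ hi (G (e i)) θ := by
          intro i hij hvi
          exact hv ((GAI_ov G e θ v).2 ⟨i, j, hij, hvi, hj⟩)
        have h1 := p1 j (fun i hij => hxs i v (huniq i hij))
        have h2 : g v = ∑ i ∈ univ.erase j, xx G e θ i v := by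
          rw [hg]
          simp only
          rw [sum_eq_single j]
          · rw [if_pos]
            exact mem_sdiff.2 ⟨hj, hv⟩
          · intro i _ hij
            rw [if_neg]
            rw [mem_sdiff]
            exact fun h => huniq i hij h.1
          · intro h
            exact absurd (mem_univ _) h
        rw [h2]
        linarith
      · push Not at hex
        have hM0 : 0 < M := by
          have := hS.two
          omega
        have h1 := p1 ⟨0, hM0⟩ (fun i _ => hxs i v (hex i))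
        have h2 : g v = 0 := by
          rw [hg]
          simp only
          apply sum_eq_zero
          intro j _
          rw [if_neg]
          rw [mem_sdiff]
          exact fun h => hex j h.1
        have h3 : 0 ≤ ∑ i ∈ univ.erase (⟨0, hM0⟩ : Fin M), xx G e θ i v :=
          sum_nonneg fun i _ => (hx i v).1
        rw [h2]
        linarith
  have hsum := sum_le_sum (s := (univ : Finset (Fin n))) (fun v _ => hpt v)
  rw [sum_sub_distrib, sum_add_distrib, sum_add_distrib, sum_const, card_univ, Fintype.card_fin,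
    sum_ite_mem, univ_inter, sum_const, ← sum_div, ← hXb, ← mul_sum, nsmul_eq_mul, nsmul_eq_mul,
    mul_one] at hsum
  rw [← hκ]
  have h9 : κ / 4 * ((ov G e θ).card : ℝ) = ((ov G e θ).card : ℝ) * (κ / 4) := by ring
  rw [h9]
  exact hsum

end Pool.Agent.Work.MP_1ce445_stm
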