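import Pool.Agent.Work.MP_1ce445_stm.Interface

/-! Block HIN: the inequality for the functions `1 - (1 - x)^r`. -/

namespace Pool.Agent.Work.MP_1ce445_stm

open Finset Pool.Agent.Work.MP_1ce445_co_56 Pool.Agent.Work.MP_1ce445_lin
  Pool.Agent.Work.MP_1ce445_fx

lemma HIN_sq (r : ℕ) (hr : 2 ≤ r) (x : ℝ) (h0 : 0 ≤ x) (h1 : x ≤ 1) :
    2 * x - x ^ 2 ≤ 1 - (1 - x) ^ r := by
  have h2 : (1 - x) ^ r ≤ (1 - x) ^ 2 := pow_le_pow_of_le_one (by linarith) (by linarith) hr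
  nlinarith

lemma HIN_nn (r : ℕ) (hr : 2 ≤ r) (x : ℝ) (h0 : 0 ≤ x) (h1 : x ≤ 1) :
    x ≤ 1 - (1 - x) ^ r := by
  have h2 := HIN_sq r hr x h0 h1
  nlinarith

lemma HIN_half (r : ℕ) (hr : 2 ≤ r) (x : ℝ) (h0 : 0 ≤ x) (h1 : x ≤ 1 / 2) :
    3 / 2 * x ≤ 1 - (1 - x) ^ r := by
  have h2 := HIN_sq r hr x h0 (by linarith)
  nlinarith

lemma HIN_one (M r : ℕ) (x : Fin M → ℝ) (e : ℝ) (hr : 2 ≤ r) (he : 0 ≤ e)
    (hx : ∀ i, 0 ≤ x i ∧ x i ≤ 1) (hs : 1 - e ≤ ∑ i, x i) (j : Fin M)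
    (hj : ∀ i, i ≠ j → x i ≤ 1 / 2) :
    1 + (∑ i ∈ univ.erase j, x i) / 4 - (32 * e) ^ r ≤ ∑ i, (1 - (1 - x i) ^ r) := by
  obtain ⟨y, hy⟩ : ∃ y, y = ∑ i ∈ univ.erase j, x i := ⟨_, rfl⟩
  have hsum : x j + y = ∑ i, x i := by
    rw [hy]
    exact add_sum_erase univ x (mem_univ j)
  have hsum2 : (1 - (1 - x j) ^ r) + ∑ i ∈ univ.erase j, (1 - (1 - x i) ^ r) =
      ∑ i, (1 - (1 - x i) ^ r) := add_sum_erase univ (fun i => 1 - (1 - x i) ^ r) (mem_univ j)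
  have hy0 : 0 ≤ y := by
    rw [hy]
    exact sum_nonneg fun i _ => (hx i).1
  have h1 : 3 / 2 * y ≤ ∑ i ∈ univ.erase j, (1 - (1 - x i) ^ r) := by
    rw [hy, mul_sum]
    apply sum_le_sum
    intro i hi
    exact HIN_half r hr (x i) (hx i).1 (hj i (ne_of_mem_erase hi))
  have h2 := HIN_nn r hr (x j) (hx j).1 (hx j).2
  have h3 : 0 ≤ (32 * e) ^ r := by positivity
  rw [← hy]
  rcases le_or_gt e (y / 4) with h4 | h4
  · linarith
  rcases le_or_gt (1 / 32) e with h5 | h5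
  · have h6 : 32 * e ≤ (32 * e) ^ r := le_self_pow₀ (by linarith) (by omega)
    linarith
  -- small `e`
  obtain ⟨m, rfl⟩ : ∃ m, r = m + 2 := ⟨r - 2, by omega⟩
  have h6 : 0 ≤ 1 - x j := by linarith [(hx j).2]
  have h7 : 1 - x j ≤ e + y := by linarith
  have h8 : (1 - x j) ^ (m + 2) ≤ (e + y) ^ (m + 2) := pow_le_pow_left₀ h6 h7 _
  have h9 : (e + y) ^ (m + 2) ≤ 2 ^ (m + 1) * (e ^ (m + 2) + y ^ (m + 2)) := by
    have := add_pow_le he hy0 (m + 2)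
    simpa using this
  have h10 : 2 ^ (m + 1) * y ^ (m + 2) ≤ y / 4 := by
    have e1 : 2 ^ (m + 1) * y ^ (m + 2) = y * (2 * y) * (2 * y) ^ m := by
      rw [mul_pow]
      ring
    have e2 : (2 * y) ^ m ≤ 1 := pow_le_one₀ (by linarith) (by linarith)
    have e3 : y * (2 * y) ≤ y / 4 := by nlinarith
    rw [e1]
    calc y * (2 * y) * (2 * y) ^ m ≤ y * (2 * y) * 1 :=
          mul_le_mul_of_nonneg_left e2 (by positivity)
      _ ≤ y / 4 := by linarith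
  have h11 : 2 ^ (m + 1) * e ^ (m + 2) ≤ (32 * e) ^ (m + 2) := by
    rw [mul_pow]
    apply mul_le_mul_of_nonneg_right _ (by positivity)
    calc (2 : ℝ) ^ (m + 1) ≤ 2 ^ (m + 2) := pow_le_pow_right₀ (by norm_num) (by omega)
      _ ≤ 32 ^ (m + 2) := pow_le_pow_left₀ (by norm_num) (by norm_num) _
  rw [mul_add] at h9
  linarith

theorem stmt_HIN : Stmt_HIN := by
  intro M r x e hr he hx hs
  refine ⟨fun j hj => HIN_one M r x e hr he hx hs j hj, ?_⟩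
  intro i1 i2 κ h12 hκ h1 h2
  have h3 : 0 ≤ (32 * e) ^ r := by positivity
  have hn : ∀ i, 0 ≤ 1 - (1 - x i) ^ r := fun i =>
    (hx i).1.trans (HIN_nn r hr (x i) (hx i).1 (hx i).2)
  by_cases hc : ∃ i j, i ≠ j ∧ 1 / 2 < x i ∧ 1 / 2 < x j
  · obtain ⟨i, j, hij, hi, hj⟩ := hc
    have h4 : (1 - (1 - x i) ^ r) + (1 - (1 - x j) ^ r) ≤ ∑ i, (1 - (1 - x i) ^ r) := by
      have h5 : ∑ l ∈ ({i, j} : Finset (Fin M)), (1 - (1 - x l) ^ r) =
          (1 - (1 - x i) ^ r) + (1 - (1 - x j) ^ r) := sum_pair hij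
      rw [← h5]
      exact sum_le_sum_of_subset_of_nonneg (subset_univ _) fun l _ _ => hn l
    have h5 : 3 / 4 ≤ 1 - (1 - x i) ^ r := by
      have := HIN_sq r hr (x i) (hx i).1 (hx i).2
      nlinarith [(hx i).2]
    have h6 : 3 / 4 ≤ 1 - (1 - x j) ^ r := by
      have := HIN_sq r hr (x j) (hx j).1 (hx j).2
      nlinarith [(hx j).2]
    linarith
  · push Not at hc
    have key : ∀ j, (∀ i, i ≠ j → x i ≤ 1 / 2) → (∃ i, i ≠ j ∧ κ ≤ x i) →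
        1 + κ / 4 - (32 * e) ^ r ≤ ∑ i, (1 - (1 - x i) ^ r) := by
      intro j hj hi
      obtain ⟨i, hij, hi⟩ := hi
      have h4 := HIN_one M r x e hr he hx hs j hj
      have h5 : x i ≤ ∑ i ∈ univ.erase j, x i :=
        single_le_sum (f := x) (fun l _ => (hx l).1) (mem_erase.2 ⟨hij, mem_univ i⟩)
      linarith
    by_cases hd : ∃ j, 1 / 2 < x j
    · obtain ⟨j, hj⟩ := hd
      apply key j
      · intro i hij
        by_contra h
        push Not at h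
        exact absurd hj (not_lt.2 (hc i j hij h))
      · by_cases h4 : i1 = j
        · exact ⟨i2, fun h => h12 (h4.trans h.symm), h2⟩
        · exact ⟨i1, h4, h1⟩
    · push Not at hd
      exact key i2 (fun i _ => hd i) ⟨i1, h12, h1⟩

end Pool.Agent.Work.MP_1ce445_stm
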