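import Pool.Agent.Work.MP_1ce445_stm.Interface
import Pool.Agent.Work.MP_1ce445_fx.SPM

/-! Block SPR of the second staircase (MP_1ce445_co, helper94). -/

namespace Pool.Agent.Work.MP_1ce445_stm

open Finset Pool.Agent.Work.MP_1ce445_co_56 Pool.Agent.Work.MP_1ce445_lin
  Pool.Agent.Work.MP_1ce445_fx

open Classical in
/-- one choice of the `r` vertices -/
lemma SPR_one {n r : ℕ} (H : SimpleGraph (Fin n)) (D : Finset (Fin n)) (hH : ∀ v, ∃ w, H.Adj v w)
    (f : Fin r → Fin n) :
    (gammaT H : ℝ) ≤ r + D.card + ∑ v ∈ und H D,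
      (∏ i, (if H.Adj v (f i) then (0 : ℝ) else 1)) := by
  set S : Finset (Fin n) := univ.image f ∪ D with hS
  have h1 := gammaT_le_add hH S
  have h2 : (S.card : ℝ) ≤ r + D.card := by
    have h3 : S.card ≤ r + D.card := by
      have ha : (univ.image f).card ≤ r := by
        refine Finset.card_image_le.trans ?_
        simp
      calc S.card ≤ (univ.image f).card + D.card := Finset.card_union_le _ _
        _ ≤ r + D.card := by gcongr
    exact_mod_cast h3
  have h4 : (((univ : Finset (Fin n)).filter (fun v => ∀ z ∈ S, ¬ H.Adj v z)).card : ℝ) ≤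
      ∑ v ∈ und H D, (∏ i, (if H.Adj v (f i) then (0 : ℝ) else 1)) := by
    rw [Finset.card_eq_sum_ones, Nat.cast_sum]
    have hs : (univ : Finset (Fin n)).filter (fun v => ∀ z ∈ S, ¬ H.Adj v z) ⊆ und H D := by
      intro v hv
      simp only [und, mem_filter, mem_univ, true_and] at hv ⊢
      intro z hz
      exact hv z (Finset.mem_union_right _ hz)
    refine le_trans (Finset.sum_le_sum ?_) (Finset.sum_le_sum_of_subset_of_nonneg hs ?_)
    · intro v hv
      simp only [mem_filter, mem_univ, true_and] at hv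
      have hf : ∀ i, ¬ H.Adj v (f i) := fun i => hv _ (by simp [hS])
      simp [hf]
    · intro v _ _
      positivity
  have h5 : (gammaT H : ℝ) ≤ ((S.card : ℕ) : ℝ) +
      (((univ : Finset (Fin n)).filter (fun v => ∀ z ∈ S, ¬ H.Adj v z)).card : ℝ) := by
    have h6 : gammaT H ≤ S.card +
        ((univ : Finset (Fin n)).filter (fun v => ∀ z ∈ S, ¬ H.Adj v z)).card := by convert h1
    exact_mod_cast h6
  linarith

theorem stmt_SPR : Stmt_SPR := by
  classical
  intro n r H Y D hH hY
  have hy : (0 : ℝ) < Y.card := by exact_mod_cast Finset.card_pos.mpr hY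
  set PY := Fintype.piFinset (fun _ : Fin r => Y) with hPY
  have cY : (PY.card : ℝ) = (Y.card : ℝ) ^ r := by
    rw [hPY, Fintype.card_piFinset_const]
    simp
  have h1 : ∑ f ∈ PY, (gammaT H : ℝ) ≤
      ∑ f ∈ PY, (r + D.card + ∑ v ∈ und H D,
      (∏ i, (if H.Adj v (f i) then (0 : ℝ) else 1))) :=
    Finset.sum_le_sum fun f _ => SPR_one H D hH f
  have h2 : ∑ f ∈ PY, (r + D.card + ∑ v ∈ und H D,
      (∏ i, (if H.Adj v (f i) then (0 : ℝ) else 1))) =
      (PY.card : ℝ) * (r + D.card) +
      (PY.card : ℝ) * ∑ v ∈ und H D, nf H Y v ^ r := by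
    simp only [Finset.sum_add_distrib, Finset.sum_const, nsmul_eq_mul]
    congr 1
    · ring
    · rw [Finset.sum_comm, Finset.mul_sum]
      refine Finset.sum_congr rfl fun v _ => ?_
      rw [SPM_pi r H Y hY v, cY]
      ring
  rw [h2] at h1
  have h6 : ∑ f ∈ PY, (gammaT H : ℝ) = (PY.card : ℝ) * gammaT H := by
    simp only [Finset.sum_const, nsmul_eq_mul]
  rw [h6] at h1
  have h7 : (0 : ℝ) < (PY.card : ℝ) := by
    rw [cY]
    positivity
  have h8 : (PY.card : ℝ) * gammaT H ≤ (PY.card : ℝ) *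
      (r + D.card + ∑ v ∈ und H D, nf H Y v ^ r) := by
    rw [mul_add]
    exact h1
  exact le_of_mul_le_mul_left h8 h7

end Pool.Agent.Work.MP_1ce445_stm
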