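import Pool.Agent.Work.MP_1ce445_stm.Interface

namespace Pool.Agent.Work.MP_1ce445_stm

open Finset Pool.Agent.Work.MP_1ce445_co_56 Pool.Agent.Work.MP_1ce445_lin
  Pool.Agent.Work.MP_1ce445_fx

theorem XBD_mem_hi {n : ℕ} (H : SimpleGraph (Fin n)) (θ : ℝ) (v : Fin n) :
    v ∈ hi H θ ↔ θ * n ≤ (dg H univ v : ℝ) := by
  unfold hi
  rw [mem_filter]
  exact ⟨fun h => h.2, fun h => ⟨mem_univ _, h⟩⟩

theorem XBD_mem_ov {n k M : ℕ} (G : Fin k → SimpleGraph (Fin n)) (e : Fin M → Fin k) (θ : ℝ) (v : Fin n) :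
    v ∈ ov G e θ ↔ ∃ i j, i ≠ j ∧ v ∈ hi (G (e i)) θ ∧ v ∈ hi (G (e j)) θ := by
  classical
  unfold ov
  rw [mem_filter]
  exact ⟨fun h => h.2, fun h => ⟨mem_univ _, h⟩⟩

theorem XBD_nonneg {n k M : ℕ} (G : Fin k → SimpleGraph (Fin n)) (e : Fin M → Fin k) (θ : ℝ) (i : Fin M)
    (v : Fin n) : 0 ≤ xx G e θ i v := by
  unfold xx
  positivity

theorem XBD_small {n k M : ℕ} (G : Fin k → SimpleGraph (Fin n)) (e : Fin M → Fin k) (θ s : ℝ) (hS : St G e θ s)
    (i : Fin M) (v : Fin n) (hv : v ∉ hi (G (e i)) θ) : xx G e θ i v ≤ 2 * M * θ := by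
  have hM : (2 : ℝ) ≤ M := by exact_mod_cast hS.two
  have hn : (0 : ℝ) < n := by exact_mod_cast hS.pos
  have hth := hS.th
  have h1 : (dg (G (e i)) univ v : ℝ) < θ * n := by
    rw [XBD_mem_hi, not_le] at hv
    exact hv
  have h2 : dg (G (e i)) (hi (G (e i)) θ) v ≤ dg (G (e i)) univ v := by
    classical
    unfold Pool.Agent.Work.MP_1ce445_fx.dg
    refine card_le_card ?_
    intro w hw
    rw [mem_filter] at hw ⊢
    exact ⟨mem_univ _, hw.2⟩
  have h2' : (dg (G (e i)) (hi (G (e i)) θ) v : ℝ) ≤ (dg (G (e i)) univ v : ℝ) := by exact_mod_cast h2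
  have h3 := hS.big i
  have hM0 : (0 : ℝ) < M := by linarith
  have hpos : (0 : ℝ) < 3 * (n : ℝ) / (4 * M) := by positivity
  have hc : (0 : ℝ) < (hi (G (e i)) θ).card := lt_of_lt_of_le hpos h3
  unfold xx
  rw [div_le_iff₀ hc]
  have h4 : 2 * (M : ℝ) * θ * (3 * (n : ℝ) / (4 * M)) ≤ 2 * M * θ * (hi (G (e i)) θ).card :=
    mul_le_mul_of_nonneg_left h3 (by positivity)
  have h5 : 2 * (M : ℝ) * θ * (3 * (n : ℝ) / (4 * M)) = 3 / 2 * (θ * n) := by
    field_simp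
    ring
  have h6 : 0 < θ * n := mul_pos hth hn
  linarith

theorem stmt_XBD : Stmt_SUR → Stmt_XBD := by
  intro _ n k M G e θ s hS
  have hM : (2 : ℝ) ≤ M := by exact_mod_cast hS.two
  have hn : (0 : ℝ) < n := by exact_mod_cast hS.pos
  have hth := hS.th
  have hdisj : ∀ a ∈ (univ : Finset (Fin M)), ∀ b ∈ (univ : Finset (Fin M)), a ≠ b →
      Disjoint (hi (G (e a)) θ \ ov G e θ) (hi (G (e b)) θ \ ov G e θ) := by
    intro a _ b _ hab
    rw [disjoint_left]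
    intro v hva hvb
    rw [mem_sdiff] at hva hvb
    exact hva.2 ((XBD_mem_ov G e θ v).2 ⟨a, b, hab, hva.1, hvb.1⟩)
  have hsum : (∑ j, (hi (G (e j)) θ \ ov G e θ).card) ≤ n := by
    rw [← card_biUnion hdisj]
    refine (card_le_univ _).trans ?_
    rw [Fintype.card_fin]
  have hsum' : (∑ j, ((hi (G (e j)) θ \ ov G e θ).card : ℝ)) ≤ n := by exact_mod_cast hsum
  refine ⟨?_, ?_⟩
  · unfold Xb
    exact sum_nonneg fun j _ => sum_nonneg fun v _ => sum_nonneg fun i _ => XBD_nonneg G e θ i v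
  · have h1 : Xb G e θ ≤ ∑ j, ∑ _v ∈ hi (G (e j)) θ \ ov G e θ, (M : ℝ) * (2 * M * θ) := by
      unfold Xb
      refine sum_le_sum fun j _ => sum_le_sum fun v hv => ?_
      rw [mem_sdiff] at hv
      have h2 : ∑ i ∈ univ.erase j, xx G e θ i v ≤ ∑ _i ∈ univ.erase j, 2 * (M : ℝ) * θ := by
        refine sum_le_sum fun i hi' => ?_
        rw [mem_erase] at hi'
        refine XBD_small G e θ s hS i v ?_
        intro hvi
        exact hv.2 ((XBD_mem_ov G e θ v).2 ⟨i, j, hi'.1, hvi, hv.1⟩)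
      refine h2.trans ?_
      rw [sum_const, nsmul_eq_mul]
      refine mul_le_mul_of_nonneg_right ?_ (by positivity)
      have h3 : ((univ : Finset (Fin M)).erase j).card ≤ M := by
        refine (card_le_univ _).trans ?_
        rw [Fintype.card_fin]
      exact_mod_cast h3
    refine h1.trans ?_
    have h4 : ∑ j, ∑ _v ∈ hi (G (e j)) θ \ ov G e θ, (M : ℝ) * (2 * M * θ) =
        (∑ j, ((hi (G (e j)) θ \ ov G e θ).card : ℝ)) * (M * (2 * M * θ)) := by
      rw [sum_mul]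
      refine sum_congr rfl fun j _ => ?_
      rw [sum_const, nsmul_eq_mul]
    rw [h4]
    have h5 : (∑ j, ((hi (G (e j)) θ \ ov G e θ).card : ℝ)) * (M * (2 * M * θ)) ≤ n * (M * (2 * M * θ)) :=
      mul_le_mul_of_nonneg_right hsum' (by positivity)
    refine h5.trans (le_of_eq ?_)
    ring

end Pool.Agent.Work.MP_1ce445_stm
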