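import Pool.Agent.Work.MP_1ce445_stm.FIR
import Pool.Agent.Work.MP_1ce445_stm.SL2
import Pool.Agent.Work.MP_1ce445_stm.TAN
import Pool.Agent.Work.MP_1ce445_stm.SET
import Pool.Agent.Work.MP_1ce445_stm.STA
import Pool.Agent.Work.MP_1ce445_stm.STB
import Pool.Agent.Work.MP_1ce445_stm.DEG
import Pool.Agent.Work.MP_1ce445_stm.EMO
import Pool.Agent.Work.MP_1ce445_stm.DMO
import Pool.Agent.Work.MP_1ce445_stm.SPR
import Pool.Agent.Work.MP_1ce445_stm.SUR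
import Pool.Agent.Work.MP_1ce445_stm.HIN
import Pool.Agent.Work.MP_1ce445_stm.SZE
import Pool.Agent.Work.MP_1ce445_stm.EVB
import Pool.Agent.Work.MP_1ce445_stm.GAI
import Pool.Agent.Work.MP_1ce445_stm.XBD
import Pool.Agent.Work.MP_1ce445_stm.ERS
import Pool.Agent.Work.MP_1ce445_stm.ADR
import Pool.Agent.Work.MP_1ce445_stm.PRR
import Pool.Agent.Work.MP_1ce445_stm.UFR
import Pool.Agent.Work.MP_1ce445_fx.CR3
import Pool.Agent.Work.MP_1ce445_fx.DG2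
import Pool.Agent.Work.MP_1ce445_fx.SLO
import Pool.Agent.Work.MP_1ce445_fx.SCR
import Pool.Agent.Work.MP_1ce445_fx.LBL
import Pool.Agent.Work.MP_1ce445_fx.DIG
import Pool.Agent.Work.MP_1ce445_fx.GS1
import Pool.Agent.Work.MP_1ce445_fx.GS2
import Pool.Agent.Work.MP_1ce445_fx.GS3

/-!
Assembly of the second staircase.
-/

namespace Pool.Agent.Work.MP_1ce445_stm

open Finset Pool.Agent.Work.MP_1ce445_co_56 Pool.Agent.Work.MP_1ce445_lin
  Pool.Agent.Work.MP_1ce445_fx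

theorem h_DEG : Stmt_DEG := stmt_DEG
theorem h_EMO : Stmt_EMO := stmt_EMO stmt_DG2
theorem h_DMO : Stmt_DMO := stmt_DMO
theorem h_SUR : Stmt_SUR := stmt_SUR stmt_SPR
theorem h_SZE : Stmt_SZE := stmt_SZE h_DEG h_SUR
theorem h_EVB : Stmt_EVB := stmt_EVB h_DEG h_SZE
theorem h_GAI : Stmt_GAI := stmt_GAI h_SUR stmt_HIN h_EVB
theorem h_XBD : Stmt_XBD := stmt_XBD h_SUR
theorem h_ERS : Stmt_ERS := stmt_ERS h_EMO h_DMO h_XBD
theorem h_ADR : Stmt_ADR := stmt_ADR h_SUR h_GAI h_XBD h_ERS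
theorem h_SET : Stmt_SET := stmt_SET stmt_TAN
theorem h_STA : Stmt_STA := stmt_STA stmt_CR3 h_SET
theorem h_STB : Stmt_STB := stmt_STB h_DEG h_EMO h_STA
theorem h_UFR : Stmt_UFR := stmt_UFR h_ADR h_STB stmt_PRR

theorem h_GS2 : Stmt_GS2 := stmt_GS2 stmt_GS1
theorem h_GS3 : Stmt_GS3 := stmt_GS3 stmt_GS1
theorem h_LBL : Stmt_LBL := stmt_LBL stmt_DIG
theorem h_SLO : Stmt_SLO := stmt_SLO h_LBL stmt_SCR stmt_GS1 h_GS2 h_GS3

/-- The second staircase: exact value. -/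
theorem h_FIR : Stmt_FIR := stmt_FIR h_UFR h_SLO

/-- The first step of the second staircase, all `t ≥ M`. -/
theorem h_FI2 : Stmt_FI2 := stmt_FI2 h_UFR stmt_SCR stmt_GS1 h_GS2

end Pool.Agent.Work.MP_1ce445_stm
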