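import Pool.Agent.Work.MP_1ce445_stm.Interface
import Pool.Agent.Work.MP_1ce445_fx.InterfaceS

/-!
The exact value on the second staircase: upper half (UFR) and lower half (SLO).
-/

namespace Pool.Agent.Work.MP_1ce445_stm

open Finset Pool.Agent.Work.MP_1ce445_co_56 Pool.Agent.Work.MP_1ce445_lin
  Pool.Agent.Work.MP_1ce445_fx

/-- The exact value: `n = 2 M q`, `k = (1 - 1/M) n + t`, `C q^(r-2) ≤ t^(r-1)` and `t^r ≤ δ q^(r-1)`. -/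
def Stmt_FIR : Prop :=
  ∀ M r : ℕ, 2 ≤ M → 2 ≤ r → ∃ (C δ : ℝ) (q0 : ℕ), 0 < δ ∧ ∀ q t : ℕ, q0 ≤ q →
    C * (q : ℝ) ^ (r - 2) ≤ (t : ℝ) ^ (r - 1) → C ≤ t → (t : ℝ) ^ r ≤ δ * (q : ℝ) ^ (r - 1) →
    P (2 * M * q) ((2 * M - 2) * q + t) =
      (2 * M * q) ^ ((2 * M - 2) * q + t - M) * (2 * (M - 1) * q + r) ^ M

/-- The upper half for `n = 2 M q`. -/
theorem FIR_up (hU : Stmt_UFR) (M r : ℕ) (hM : 2 ≤ M) (hr : 2 ≤ r) :
    ∃ (δ : ℝ) (q0 : ℕ), 0 < δ ∧ ∀ q t : ℕ, q0 ≤ q → (t : ℝ) ^ r ≤ δ * (q : ℝ) ^ (r - 1) →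
    2 * t ≤ q ∧ P (2 * M * q) ((2 * M - 2) * q + t) ≤
      (2 * M * q) ^ ((2 * M - 2) * q + t - M) * (2 * (M - 1) * q + r) ^ M := by
  obtain ⟨δ₁, hδ₁, n0, hU⟩ := hU M r hM hr
  have hMpos : (0 : ℝ) < M := by
    have : 0 < M := by omega
    exact_mod_cast this
  refine ⟨min (δ₁ / M) (1 / 2 ^ r), n0 + 1, ?_, ?_⟩
  · apply lt_min
    · positivity
    · positivity
  intro q t hq h3
  have hq1 : (1 : ℝ) ≤ q := by
    have : 1 ≤ q := by omega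
    exact_mod_cast this
  have hq0 : (0 : ℝ) ≤ q := by linarith
  have hδa : min (δ₁ / M) (1 / 2 ^ r) ≤ δ₁ / M := min_le_left _ _
  have hδb : min (δ₁ / M) (1 / 2 ^ r) ≤ 1 / 2 ^ r := min_le_right _ _
  have h2t : 2 * t ≤ q := by
    have h4 : (2 * (t : ℝ)) ^ r ≤ (q : ℝ) ^ r := by
      rw [mul_pow]
      have h5 : (t : ℝ) ^ r ≤ 1 / 2 ^ r * (q : ℝ) ^ (r - 1) :=
        h3.trans (mul_le_mul_of_nonneg_right hδb (by positivity))
      have h6 : (q : ℝ) ^ (r - 1) ≤ (q : ℝ) ^ r := pow_le_pow_right₀ hq1 (by omega)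
      calc (2 : ℝ) ^ r * (t : ℝ) ^ r ≤ 2 ^ r * (1 / 2 ^ r * (q : ℝ) ^ (r - 1)) := by gcongr
        _ = (q : ℝ) ^ (r - 1) := by field_simp
        _ ≤ _ := h6
    have h7 : 2 * (t : ℝ) ≤ q := by
      by_contra hc
      push Not at hc
      have := pow_lt_pow_left₀ hc hq0 (by omega : r ≠ 0)
      linarith
    exact_mod_cast h7
  refine ⟨h2t, ?_⟩
  have hk : M * ((2 * M - 2) * q + t) = (M - 1) * (2 * M * q) + M * t := by
    obtain ⟨m, rfl⟩ : ∃ m, M = m + 1 := ⟨M - 1, by omega⟩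
    have ha : 2 * (m + 1) - 2 = 2 * m := by omega
    have hb : m + 1 - 1 = m := by omega
    rw [ha, hb]; ring
  have hev : Even (2 * M * q) := ⟨M * q, by ring⟩
  have hn : n0 ≤ 2 * M * q := by
    have : q ≤ 2 * M * q := Nat.le_mul_of_pos_left q (by omega)
    omega
  have ht : (((M * t : ℕ)) : ℝ) ^ r ≤ δ₁ * (((2 * M * q : ℕ)) : ℝ) ^ (r - 1) := by
    push_cast
    rw [mul_pow, mul_pow]
    have h5 : (t : ℝ) ^ r ≤ δ₁ / M * (q : ℝ) ^ (r - 1) :=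
      h3.trans (mul_le_mul_of_nonneg_right hδa (by positivity))
    have h6 : (M : ℝ) ^ (r - 1) ≤ (2 * (M : ℝ)) ^ (r - 1) := by
      apply pow_le_pow_left₀ hMpos.le
      linarith
    have h7 : (M : ℝ) ^ r = M ^ (r - 1) * M := by
      rw [← pow_succ]; congr 1; omega
    calc (M : ℝ) ^ r * (t : ℝ) ^ r ≤ M ^ r * (δ₁ / M * (q : ℝ) ^ (r - 1)) := by gcongr
      _ = δ₁ * ((M : ℝ) ^ (r - 1) * (q : ℝ) ^ (r - 1)) := by
          rw [h7]; field_simp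
      _ ≤ δ₁ * ((2 * (M : ℝ)) ^ (r - 1) * (q : ℝ) ^ (r - 1)) := by gcongr
  have h := hU (2 * M * q) ((2 * M - 2) * q + t) (M * t) hn hev hk ht
  have he : (M - 1) * (2 * M * q) + M * r = M * (2 * (M - 1) * q + r) := by ring
  rw [he, mul_pow M] at h
  have hMM : 0 < M ^ M := pow_pos (by omega) _
  refine Nat.le_of_mul_le_mul_left (h.trans (le_of_eq ?_)) hMM
  rw [mul_left_comm]

theorem stmt_FIR : Stmt_UFR → Stmt_SLO → Stmt_FIR := by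
  intro hU hL M r hM hr
  obtain ⟨δ, n0, hδ, hU⟩ := FIR_up hU M r hM hr
  obtain ⟨C, q0, hL⟩ := hL M r hM hr
  refine ⟨C, δ, q0 + n0, hδ, ?_⟩
  intro q t hq h1 h2 h3
  obtain ⟨h2t, h⟩ := hU q t (by omega) h3
  exact le_antisymm h (hL q t (by omega) h1 h2 h2t)

end Pool.Agent.Work.MP_1ce445_stm
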