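import Pool.Agent.Work.MP_1ce445_fx.InterfaceM

/-!
SECOND STAIRCASE for MP_1ce445_co, upper half (helper28). `k = (1 - 1/M) n + t`, `n` even: if `t^r ≤ δ n^(r-1)` then
`P n k ≤ n^(k-M) (n - n/M + r)^M`.

One file `Pool/Agent/Work/MP_1ce445_stm/<ID>.lean` per block, `import Pool.Agent.Work.MP_1ce445_stm.Interface`, the
`namespace` and `open` lines of this file, theorem `stmt_<ID> : Stmt_X → Stmt_Y → Stmt_<ID>` with exactly the statements of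
the column `uses` as hypotheses, in this order; auxiliary lemmas with the name of the block in front (`SPR_aux`).
No straight double quotes. Constants are never sharp.

From `MP_1ce445_fx/Interface.lean`: `dg H Y v` (number of neighbours of `v` in `Y`), `nf H Y v = 1 - dg H Y v / |Y|`,
`low H θ` (degree `< θ n`), `nb H v` (neighbours), `und H D` (vertices without neighbour in `D`),
`thk G A d v` (colours of `A` in which `v` has degree at least `d n`). Library `MP_1ce445_co_56/Basic.lean`: `gammaT_le_card`,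
`exists_tds`, `gammaT_le_univ`, `gammaT_le_add` (`Z` + undominated), `IsFactorization.unique`, `sum_degree`, `P_le`.
`fx.stmt_DG2`, `fx.stmt_CR3` are proved (files `MP_1ce445_fx/DG2.lean`, `CR3.lean`), they may be imported.

The proof. `e i` (`i : Fin M`) the special colours; `hi (G (e i)) θ` has about `n/M` elements, and these `M` sets are nearly
disjoint and nearly cover everything. For the colour `e i` choose `r` random vertices in `hi (G (e i)) θ`; `x_i(v)` =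
fraction of `hi (G (e i)) θ` adjacent to `v` in the colour `e i`; `γ (e i) ≤ r + ∑_v (1 - x_i(v))^r`. By the degree sum
`∑_i x_i(v)` is nearly 1, so `∑_i (1 - (1 - x_i(v))^r)` is nearly at least 1 (concavity).
-/

namespace Pool.Agent.Work.MP_1ce445_stm

open Finset Pool.Agent.Work.MP_1ce445_co_56 Pool.Agent.Work.MP_1ce445_lin
  Pool.Agent.Work.MP_1ce445_fx

/-! ### Definitions -/

/-- the vertices of degree at least `θ n` (the complement of `low H θ`) -/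
noncomputable def hi {n : ℕ} (H : SimpleGraph (Fin n)) (θ : ℝ) : Finset (Fin n) :=
  univ.filter (fun v => θ * n ≤ (dg H univ v : ℝ))

/-- the vertices in at least two of the sets `hi (G (e i)) θ` -/
noncomputable def ov {n k M : ℕ} (G : Fin k → SimpleGraph (Fin n)) (e : Fin M → Fin k) (θ : ℝ) :
    Finset (Fin n) := by
  classical
  exact univ.filter (fun v => ∃ i j, i ≠ j ∧ v ∈ hi (G (e i)) θ ∧ v ∈ hi (G (e j)) θ)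

/-- the other colours -/
def ot {k M : ℕ} (e : Fin M → Fin k) : Finset (Fin k) := univ.filter (fun l => ∀ i, l ≠ e i)

/-- total loss of the other colours -/
noncomputable def Ls {n k M : ℕ} (G : Fin k → SimpleGraph (Fin n)) (e : Fin M → Fin k) : ℕ :=
  ∑ l ∈ ot e, (n - gammaT (G l))

/-- sum of the special total domination numbers -/
noncomputable def gs {n k M : ℕ} (G : Fin k → SimpleGraph (Fin n)) (e : Fin M → Fin k) : ℝ :=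
  ∑ i, (gammaT (G (e i)) : ℝ)

/-- number of the neighbours of `v` in the special colours with low degree in this colour -/
noncomputable def dd {n k M : ℕ} (G : Fin k → SimpleGraph (Fin n)) (e : Fin M → Fin k) (θ : ℝ)
    (v : Fin n) : ℕ := ∑ i, dg (G (e i)) (low (G (e i)) θ) v

/-- excess of the degrees of `v` in the other colours -/
noncomputable def EE {n k M : ℕ} (G : Fin k → SimpleGraph (Fin n)) (e : Fin M → Fin k)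
    (v : Fin n) : ℕ := ∑ l ∈ ot e, (dg (G l) univ v - 1)

/-- `x_i(v)` -/
noncomputable def xx {n k M : ℕ} (G : Fin k → SimpleGraph (Fin n)) (e : Fin M → Fin k) (θ : ℝ)
    (i : Fin M) (v : Fin n) : ℝ :=
  (dg (G (e i)) (hi (G (e i)) θ) v : ℝ) / (hi (G (e i)) θ).card

/-- `t = k - (1 - 1/M) n` -/
noncomputable def tt (n k M : ℕ) : ℝ := (k : ℝ) - (n : ℝ) + (n : ℝ) / M

/-- sum of the `x_i(v)`, `v ∈ hi (G (e j)) θ ∖ ov`, `i ≠ j` -/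
noncomputable def Xb {n k M : ℕ} (G : Fin k → SimpleGraph (Fin n)) (e : Fin M → Fin k) (θ : ℝ) : ℝ :=
  ∑ j, ∑ v ∈ hi (G (e j)) θ \ ov G e θ, ∑ i ∈ univ.erase j, xx G e θ i v

/-- bound for `|hi (G (e i)) θ| - n/M` -/
noncomputable def bb {n k M : ℕ} (G : Fin k → SimpleGraph (Fin n)) (e : Fin M → Fin k) (θ : ℝ) : ℝ :=
  M * (ov G e θ).card + M * tt n k M +
    2 * (M : ℝ) ^ 2 / n * ∑ v, ((dd G e θ v : ℝ) + EE G e v) + 2 * M * Xb G e θ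

/-- bound for `1 - ∑ x_i(v)` -/
noncomputable def ev {n k M : ℕ} (G : Fin k → SimpleGraph (Fin n)) (e : Fin M → Fin k) (θ : ℝ)
    (v : Fin n) : ℝ := (M : ℝ) / n * (bb G e θ + tt n k M + dd G e θ v + EE G e v)

/-- The situation. -/
structure St {n k M : ℕ} (G : Fin k → SimpleGraph (Fin n)) (e : Fin M → Fin k) (θ s : ℝ) :
    Prop where
  two : 2 ≤ M
  pos : 0 < n
  fac : IsFactorization G
  inj : Function.Injective e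
  th : 0 < θ
  th' : 4 * (M : ℝ) ^ 2 * θ ≤ 1
  s0 : 0 < s
  s1 : 4 * (M : ℝ) * s ≤ 1
  tnn : 0 ≤ tt n k M
  big : ∀ i, 3 * (n : ℝ) / (4 * M) ≤ (hi (G (e i)) θ).card
  ovl : ((ov G e θ).card : ℝ) ≤ s * n
  def' : (Ls G e : ℝ) ≤ s * n

/-! ### Degrees -/

/-- DEG (60 lines). `sum_degree`; `|ot e| = k - M`; all degrees are at least 1; `hi` and `low` are complementary. -/
def Stmt_DEG : Prop :=
  ∀ (n k M : ℕ) (G : Fin k → SimpleGraph (Fin n)) (e : Fin M → Fin k) (θ : ℝ),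
    IsFactorization G → Function.Injective e →
    ∀ v, (∑ i, dg (G (e i)) (hi (G (e i)) θ) v) + dd G e θ v + EE G e v + k + 1 = n + M

/-- EMO (80 lines; uses `fx.Stmt_DG2`). `s_l = n - γ_l`. `dg (G l) univ v - 1 ≤ s_l`, and it is not `0` for at most `3 s_l`
vertices, so `∑_v (dg - 1) ≤ 3 s_l²`, `∑_l s_l² ≤ Ls²`; `EE^r ≤ Ls^(r-1) EE`. -/
def Stmt_EMO : Prop :=
  ∀ (n k M : ℕ) (G : Fin k → SimpleGraph (Fin n)) (e : Fin M → Fin k), IsFactorization G →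
    (∀ v, EE G e v ≤ Ls G e) ∧ (∑ v, EE G e v ≤ 3 * Ls G e ^ 2) ∧
    ∀ r : ℕ, 1 ≤ r → ∑ v, EE G e v ^ r ≤ 3 * Ls G e ^ (r + 1)

/-- DMO (80 lines). `∑_v dg H Y v = ∑_{y ∈ Y} dg H univ y` (cf. `TSM_comm`, `TSM_low` in `MP_1ce445_fx/TSM.lean`), `dd ≤ M Δ`. -/
def Stmt_DMO : Prop :=
  ∀ (n k M Δ : ℕ) (G : Fin k → SimpleGraph (Fin n)) (e : Fin M → Fin k) (θ : ℝ), 0 ≤ θ →
    (∀ i v, dg (G (e i)) (low (G (e i)) θ) v ≤ Δ) →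
    (∑ v, (dd G e θ v : ℝ) ≤ M * θ * n ^ 2) ∧ (∑ v, (dd G e θ v : ℝ) ≤ M * Δ * n) ∧
    ∀ r : ℕ, 1 ≤ r → ∑ v, (dd G e θ v : ℝ) ^ r ≤ ((M : ℝ) * Δ) ^ (r - 1) * (M * θ * n ^ 2)

/-! ### Random vertices -/

/-- SPR (70 lines): `Stmt_SPM` (file `MP_1ce445_fx/SPM.lean`) with one set instead of two. -/
def Stmt_SPR : Prop :=
  ∀ (n r : ℕ) (H : SimpleGraph (Fin n)) (Y D : Finset (Fin n)), (∀ v, ∃ w, H.Adj v w) →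
    Y.Nonempty → (gammaT H : ℝ) ≤ r + D.card + ∑ v ∈ und H D, nf H Y v ^ r

/-- SUR (60 lines; uses SPR). `nf (G (e i)) (hi (G (e i)) θ) v = 1 - xx G e θ i v`. First: `D = ∅` for all colours. Second:
`D = {z}` for the colour `e i0`; `und H {z}` = all vertices which are not in `nb H z`. -/
def Stmt_SUR : Prop :=
  ∀ (n k M r : ℕ) (G : Fin k → SimpleGraph (Fin n)) (e : Fin M → Fin k) (θ s : ℝ), St G e θ s →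
    (∀ i v, 0 ≤ xx G e θ i v ∧ xx G e θ i v ≤ 1) ∧
    (gs G e ≤ M * r + ∑ v, ∑ i, (1 - xx G e θ i v) ^ r) ∧
    ∀ (i0 : Fin M) (z : Fin n), gs G e ≤ M * r + 1 + ∑ v, ∑ i, (1 - xx G e θ i v) ^ r -
      ∑ v ∈ nb (G (e i0)) z, (1 - xx G e θ i0 v) ^ r

/-- HIN (100 lines), real numbers. `h(x) = 1 - (1-x)^r ≥ 2x - x²`, so `h(x) ≥ (3/2) x` for `x ≤ 1/2`; `h(x) ≥ x`. Part 1:
`y = ∑_{i ≠ j} x_i`. Always `∑ h(x_i) ≥ (3/2) y + x_j ≥ 1 + y/2 - e`; this is enough if `e ≤ y/4`, and also if `e ≥ 1/32`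
(`(32 e)^r ≥ 32 e`); so `e < 1/32`, `y < 1/8`: `1 - x_j ≤ e + y`, `(e + y)^r ≤ 2^(r-1) (e^r + y^r)` (`add_pow_le`),
`2^(r-1) y^r ≤ y/4`, so `∑ h ≥ 1 + (5/4) y - 2^(r-1) e^r`. Part 2: let `x_j` be maximal. If all `x_i ≤ 1/2`, `i ≠ j`: part 1,
`∑_{i ≠ j} x_i ≥ κ` (one of `i1, i2` is not `j`). Otherwise two of the `x_i` are `> 1/2`, `h ≥ 3/4` for both. -/
def Stmt_HIN : Prop :=
  ∀ (M r : ℕ) (x : Fin M → ℝ) (e : ℝ), 2 ≤ r → 0 ≤ e → (∀ i, 0 ≤ x i ∧ x i ≤ 1) →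
    1 - e ≤ ∑ i, x i →
    (∀ j, (∀ i, i ≠ j → x i ≤ 1 / 2) →
      1 + (∑ i ∈ univ.erase j, x i) / 4 - (32 * e) ^ r ≤ ∑ i, (1 - (1 - x i) ^ r)) ∧
    ∀ (i1 i2 : Fin M) (κ : ℝ), i1 ≠ i2 → κ ≤ 1 → κ ≤ x i1 → κ ≤ x i2 →
      1 + κ / 4 - (32 * e) ^ r ≤ ∑ i, (1 - (1 - x i) ^ r)

/-- SZE (120 lines; uses DEG SUR), sizes. `W_j = hi (G (e j)) θ ∖ ov` has at least `3n/(4M) - s n ≥ n/(2M)` elements. For `v ∈ W_j`: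
`|hi_j| ≥ dg (G (e j)) hi_j v = n/M - t + M - 1 - dd v - EE v - ∑_{i ≠ j} dg (G (e i)) hi_i v ≥
n/M - t - dd v - EE v - n ∑_{i ≠ j} x_i(v)`. Mean over `W_j`: `|hi_j| ≥ n/M - t - (2M/n) ∑_v (dd + EE) - 2 M Xb_j`, `Xb_j` the
term `j` of `Xb`. Moreover `∑_i |hi_i| ≤ n + (M - 1) |ov|`. So `|hi_i| ≤ n + (M-1) |ov| - ∑_{j ≠ i} |hi_j| ≤ n/M + bb`. -/
def Stmt_SZE : Prop :=
  ∀ (n k M : ℕ) (G : Fin k → SimpleGraph (Fin n)) (e : Fin M → Fin k) (θ s : ℝ), St G e θ s →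
    0 ≤ bb G e θ ∧ ∀ i, ((hi (G (e i)) θ).card : ℝ) ≤ n / M + bb G e θ

/-- EVB (60 lines; uses DEG SZE). `B = n/M + bb`. `∑_i x_i(v) ≥ (∑_i dg (G (e i)) hi_i v)/B ≥ (n/M - t - dd - EE)/B =
1 - (bb + t + dd + EE)/B ≥ 1 - ev`. -/
def Stmt_EVB : Prop :=
  ∀ (n k M : ℕ) (G : Fin k → SimpleGraph (Fin n)) (e : Fin M → Fin k) (θ s : ℝ), St G e θ s →
    ∀ v, 0 ≤ ev G e θ v ∧ 1 - ev G e θ v ≤ ∑ i, xx G e θ i v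

/-- GAI (120 lines; uses SUR HIN EVB). Sum over `v` of: `v ∈ ov`: HIN part 2 with `κ = θ - Δ/n` (`v ∈ hi_i`: degree `≥ θ n`, so at
least `θ n - Δ` neighbours in `hi_i`, `x_i(v) ≥ θ - Δ/n` or `θ - Δ/n < 0`); `v ∈ hi_j ∖ ov` (one `j`): for `i ≠ j` the degree
is `< θ n`, `x_i(v) ≤ θ n/(3n/(4M)) ≤ 2 M θ ≤ 1/2`, HIN part 1; `v` in no `hi_j`: HIN part 1 with any `j`. -/
def Stmt_GAI : Prop :=
  ∀ (n k M r Δ : ℕ) (G : Fin k → SimpleGraph (Fin n)) (e : Fin M → Fin k) (θ s : ℝ), 2 ≤ r →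
    St G e θ s → (∀ i v, dg (G (e i)) (low (G (e i)) θ) v ≤ Δ) →
    (n : ℝ) + (θ - Δ / n) / 4 * (ov G e θ).card + Xb G e θ / 4 - 32 ^ r * ∑ v, ev G e θ v ^ r ≤
      ∑ v, ∑ i, (1 - (1 - xx G e θ i v) ^ r)

/-- XBD (60 lines; uses SUR). `W_j = hi_j ∖ ov` are disjoint; `x_i(v) ≤ 2 M θ` for `v ∈ W_j`, `i ≠ j` (see GAI). -/
def Stmt_XBD : Prop :=
  ∀ (n k M : ℕ) (G : Fin k → SimpleGraph (Fin n)) (e : Fin M → Fin k) (θ s : ℝ), St G e θ s →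
    0 ≤ Xb G e θ ∧ Xb G e θ ≤ 2 * M ^ 2 * θ * n

/-- ERS (150 lines; uses EMO DMO XBD). `ev v = (M/n) (a₁ + … + a₇)`, `a₁ = M |ov|`, `a₂ = (M+1) t`, `a₃ = (2M²/n) ∑ dd`,
`a₄ = (2M²/n) ∑ EE`, `a₅ = 2 M Xb`, `a₆ = dd v`, `a₇ = EE v`; `ev^r ≤ (7M/n)^r (a₁^r + … + a₇^r)`. `n (a₁/n)^r ≤ M^r s |ov|`
(`|ov| ≤ s n`); `n (a₂/n)^r ≤ (M+1)^r t^r/n^(r-1)`; with `D = ∑ dd`: `n (D/n²)^r = (D/n) (D/n²)^(r-1) ≤ M Δ · M θ`; with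
`E = ∑ EE ≤ 3 Ls²`: `n (E/n²)^r = (E/n) (E/n²)^(r-1) ≤ 3 s Ls` (`3 s² ≤ 1`); `n (Xb/n)^r ≤ Xb · 2 M² θ`;
`∑ dd^r/n^r ≤ M^r θ Δ` (`Δ ≤ n`); `∑ EE^r/n^r ≤ 3 (Ls/n)^r Ls ≤ 3 s Ls`. -/
def Stmt_ERS : Prop :=
  ∀ M r : ℕ, 2 ≤ r → ∃ K : ℝ, 0 < K ∧
    ∀ (n k Δ : ℕ) (G : Fin k → SimpleGraph (Fin n)) (e : Fin M → Fin k) (θ s δ : ℝ),
    St G e θ s → tt n k M ^ r ≤ δ * (n : ℝ) ^ (r - 1) → Δ ≤ n →
    (∀ i v, dg (G (e i)) (low (G (e i)) θ) v ≤ Δ) →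
    ∑ v, ev G e θ v ^ r ≤ K * (δ + s * (ov G e θ).card + θ * Δ + s * Ls G e + θ * Xb G e θ)

/-- ADR (150 lines; uses SUR GAI XBD ERS). `K₁ = 32^r K + 1`; `θ₀` with `80 K₁ θ₀ ≤ 1`, `8 M r θ₀ ≤ 1`; `s₀` with `4 K₁ s₀ ≤ θ`,
`100 K₁ s₀ ≤ 1`; `δ` with `20 K₁ δ ≤ 1`. `Δ` = the maximum of the `dg (G (e i)) low_i v`. By GAI and ERS
`∑_v ∑_i (1 - x_i)^r ≤ (M - 1) n - (θ/4) |ov| + (Δ/(4n)) |ov| - Xb/4 + K₁ (δ + s |ov| + θ Δ + s Ls + θ Xb) ≤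
(M - 1) n + 1/20 + Δ/40 + Ls/100`. If `Δ ≤ 1`: SUR first part. If `Δ ≥ 2`, attained for `i0, z`: SUR second part, the `Δ`
vertices `y ∈ low_{i0}` of `nb (G (e i0)) z` have `(1 - x_{i0}(y))^r ≥ (1 - 2 M θ)^r ≥ 1 - 2 M r θ ≥ 3/4`, and
`1 + Δ/40 - (3/4) Δ < 0`. -/
def Stmt_ADR : Prop :=
  ∀ M r : ℕ, 2 ≤ M → 2 ≤ r → ∃ θ₀ : ℝ, 0 < θ₀ ∧ ∀ θ : ℝ, 0 < θ → θ ≤ θ₀ → ∃ s₀ : ℝ, 0 < s₀ ∧
    ∃ δ : ℝ, 0 < δ ∧ ∀ (s : ℝ), 0 < s → s ≤ s₀ →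
    ∀ (n k : ℕ) (G : Fin k → SimpleGraph (Fin n)) (e : Fin M → Fin k), St G e θ s →
    tt n k M ^ r ≤ δ * (n : ℝ) ^ (r - 1) →
    gs G e ≤ ((M : ℝ) - 1) * n + M * r + 1 / 10 + Ls G e / 100

/-! ### Stability -/

/-- TAN (120 lines), real numbers. `x₀ = 1/M ≤ 1/2`. `b = ∑_{j ≥ 1} j x₀^(j-1)/(j+1)`, `a = ∑_{j ≥ 0} (1 - j) x₀^j/(j+1)`, so
`a + b x₀ = ∑ x₀^j/(j+1) = - log (1 - x₀)/x₀` (`Real.hasSum_pow_div_log_of_abs_lt_one`). `- log (1-p) - a p - b p² =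
∑_j (p/(j+1)) (p^j - x₀^j - j x₀^(j-1) (p - x₀))`, all terms are `≥ 0` (Bernoulli) and the term `j = 2` is `(p/3) (p - x₀)²`.
`b ≤ ∑ x₀^(j-1) ≤ 2`, `b ≥ 1/2` (term `j = 1`), `a ≤ 1`, `a ≥ 1 - ∑_{j ≥ 2} x₀^j ≥ 1/2`. (Closed forms:
`b = 1/(x₀ (1-x₀)) + log (1-x₀)/x₀²`, `a = - 2 log (1-x₀)/x₀ - 1/(1-x₀)`.) -/
def Stmt_TAN : Prop :=
  ∀ M : ℕ, 2 ≤ M → ∃ a b : ℝ, 1 / 2 ≤ a ∧ a ≤ 1 ∧ 1 / 2 ≤ b ∧ b ≤ 2 ∧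
    a + b / M = - M * Real.log (1 - 1 / M) ∧
    ∀ p : ℝ, 0 ≤ p → p < 1 → a * p + b * p ^ 2 + p * (p - 1 / M) ^ 2 / 3 ≤ - Real.log (1 - p)

/-- fraction of the `v` with `x ∈ T v` -/
noncomputable def pT {n k : ℕ} (T : Fin n → Finset (Fin k)) (x : Fin k) : ℝ :=
  ((univ.filter (fun v => x ∈ T v)).card : ℝ) / n

/-- SET (180 lines; uses TAN). `η = κ⁴/1000`. `p_x = pT T x < 1` for `x ∈ A` (the product is positive).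
`s₁ = ∑_{x ∈ A} p_x = (1/n) ∑_v |T v| ≥ |Vg|/n ≥ 1 - η` (`T v ≠ ∅` for `v ∈ Vg`),
`s₂ = ∑_{x ∈ A} p_x² = (1/n) ∑_v ∑_{x ∈ T v} p_x ≥ (1 - η) (1/M - η) ≥ 1/M - 2η`, `Q = ∑_{x ∈ A} p_x (p_x - 1/M)²`. TAN:
`a s₁ + b s₂ + Q/3 ≤ - log ∏ (1 - p_x) ≤ - log ((1-1/M)^M - η) ≤ a + b/M + 8 η` (`(1-1/M)^M ≥ 1/4`). So `s₁ - 1 ≤ 24 η`,
`Q ≤ 39 η`. `X = {x ∈ A | |p_x - 1/M| ≤ κ}`: `∑_{A ∖ X} p_x ≤ Q/κ² ≤ κ²`; `|X| (1/M - κ) ≤ s₁ ≤ 1 + κ` gives `|X| ≤ M`;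
`|X| (1/M + κ) ≥ 1 - η - κ²` gives `|X| ≥ M`; `e` = enumeration of `X`. `|T v| ≥ 1 + [2 ≤ |T v|] - [T v = ∅]`, sum over `v`:
`#{2 ≤ |T v|} ≤ 24 η n + η n ≤ κ n`. -/
def Stmt_SET : Prop :=
  ∀ M : ℕ, 2 ≤ M → ∀ κ : ℝ, 0 < κ → 4 * (M : ℝ) ^ 2 * κ ≤ 1 → ∃ η : ℝ, 0 < η ∧ η ≤ 1 ∧
    ∀ (n k : ℕ) (T : Fin n → Finset (Fin k)) (A : Finset (Fin k)) (Vg : Finset (Fin n)), 0 < n →
    (∀ v, T v ⊆ A) → (1 - η) * n ≤ Vg.card → (∀ v ∈ Vg, 1 / (M : ℝ) - η ≤ ∑ x ∈ T v, pT T x) →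
    (1 - 1 / (M : ℝ)) ^ M - η ≤ ∏ x ∈ A, (1 - pT T x) →
    ∃ e : Fin M → Fin k, Function.Injective e ∧ (∀ i, e i ∈ A) ∧
      (∀ i, |pT T (e i) - 1 / M| ≤ κ) ∧
      ((univ.filter (fun v => 2 ≤ (T v).card)).card : ℝ) ≤ κ * n

/-- STA (200 lines; uses `fx.Stmt_CR3` SET). `κ' = min (κ/2) (1/(4M²))`, `η` from SET for `κ'`; `u ≤ η/4`, `u ≤ 1`,
`d = (u²/30)² ≤ θ`; `τ > 0` with `τ ≤ κ/2`, `(1 + τ)^m ≤ 1 + η`, `m = ⌊150/u²⌋`; `R` with `(1 - d)^R ≤ τ/2`; `n0` with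
`R/n0 ≤ τ/2`, `1 ≤ u² n0/30`, `1/n0 ≤ η/4`; `δ = η/4`. CR3 (with `s = u`, `t = τ`): the first alternative is impossible
(`(1-1/M)^M ≥ 1/4 > exp (-4)`). Otherwise `A`, `Vg`; `T v = thk G A d v`. For `v ∈ Vg`: `n - 1 - k - u n ≤
#{w | T v ∩ T w ≠ ∅} ≤ n ∑_{x ∈ T v} pT T x`, so the sum is `≥ 1/M - δ - 1/n - u ≥ 1/M - η`.
`(1-1/M)^M ≤ ∏_{j ∈ A} (1 - p_j + τ) ≤ ∏ (1 - p_j) + (1 + τ)^|A| - 1 ≤ ∏ (1 - p_j) + η` (the other factors are at most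
`n`; for `0 ≤ a_j ≤ 1`: `∏ (a_j + τ) ≤ ∏ a_j + (1+τ)^|A| - 1`, induction). SET. `hi (G (e i)) θ ⊆ {v | e i ∈ T v}` as `d ≤ θ`,
`ov ⊆ {v | 2 ≤ |T v|}`, `γ (e i) ≤ (1 - p + τ) n`. -/
def Stmt_STA : Prop :=
  ∀ M : ℕ, 2 ≤ M → ∀ θ κ : ℝ, 0 < θ → 0 < κ → ∃ δ : ℝ, 0 < δ ∧ ∃ n0 : ℕ, ∀ n k : ℕ, n0 ≤ n →
    Even n → 0 ≤ tt n k M → tt n k M ≤ δ * n → k ≤ n →
    ∀ G : Fin k → SimpleGraph (Fin n), IsFactorization G →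
    (1 - 1 / (M : ℝ)) ^ M * (n : ℝ) ^ k ≤ ∏ j, (gammaT (G j) : ℝ) →
    ∃ e : Fin M → Fin k, Function.Injective e ∧
      (∀ i, (gammaT (G (e i)) : ℝ) ≤ (1 - 1 / M + κ) * n) ∧
      (∀ i, ((hi (G (e i)) θ).card : ℝ) ≤ (1 / M + κ) * n) ∧ ((ov G e θ).card : ℝ) ≤ κ * n

/-- STB (150 lines; uses DEG EMO STA). `κ ≤ s`, `4 M κ ≤ s`, `96 M³ κ ≤ 1`, `4 M² κ ≤ 1`; `δ ≤ 1/4` from STA.
`∏_{ot} γ_l ≥ n^(k-M) ((1-1/M)/(1-1/M+κ))^M ≥ n^(k-M) (1 - 2 M κ)` and `∏_{ot} γ_l ≤ n^(k-M) exp (- Ls/n)`, so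
`Ls/n ≤ - log (1 - 2 M κ) ≤ 4 M κ`. `R0` = vertices in no `hi_i`: there `∑_i dg (G (e i)) univ v < M θ n ≤ n/(4M)`, by DEG
`EE v ≥ n/M - δ n - n/(4M) ≥ n/(2M) ` (take `δ ≤ 1/(4M)`), by EMO `|R0| n/(2M) ≤ 3 Ls² ≤ 48 M² κ² n²`, `|R0| ≤ κ n`;
`n ≤ |R0| + ∑_i |hi_i|` gives `|hi_j| ≥ n - κ n - (M-1) (1/M + κ) n ≥ 3n/(4M)`. -/
def Stmt_STB : Prop :=
  ∀ M : ℕ, 2 ≤ M → ∀ θ s : ℝ, 0 < θ → 4 * (M : ℝ) ^ 2 * θ ≤ 1 → 0 < s → 4 * (M : ℝ) * s ≤ 1 →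
    ∃ δ : ℝ, 0 < δ ∧ ∃ n0 : ℕ, ∀ n k : ℕ, n0 ≤ n →
    Even n → 0 ≤ tt n k M → tt n k M ≤ δ * n → k ≤ n →
    ∀ G : Fin k → SimpleGraph (Fin n), IsFactorization G →
    (1 - 1 / (M : ℝ)) ^ M * (n : ℝ) ^ k ≤ ∏ j, (gammaT (G j) : ℝ) →
    ∃ e : Fin M → Fin k, St G e θ s

/-! ### The product -/

/-- PRR (100 lines), real numbers. AM-GM: `∏_i γ (e i) ≤ (A + R/M)^M ≤ A^M exp (R/A)`; `∏_{ot} γ_l ≤ n^(k-M) exp (- σ/n)`. -/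
def Stmt_PRR : Prop :=
  ∀ (k n M : ℕ) (γ : Fin k → ℕ) (e : Fin M → Fin k) (A R : ℝ), 0 < n → 1 ≤ M →
    Function.Injective e → 0 < A → 0 ≤ R → (∀ l, γ l ≤ n) → (∑ i, (γ (e i) : ℝ)) ≤ M * A + R →
    ∏ l, (γ l : ℝ) ≤ (n : ℝ) ^ (k - M) * A ^ M *
      Real.exp (R / A - (∑ l ∈ ot e, ((n : ℝ) - γ l)) / n)

/-- UFR (150 lines; uses ADR STB PRR). `θ = min θ₀ (1/(4M²))`, `s = min s₀ (1/(4M))`, `n` large. `t/M = tt n k M`,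
`(t/n)^r ≤ δ/n`, so `tt ≤ δ' n` for `n ≥ n0` and `k ≤ n`. If the product of some `G` is larger than the bound then it is at least
`(1-1/M)^M n^k`: STB, ADR. `A = ((M-1) n + M r)/M ≥ n/2`. If `Ls ≥ 1`: PRR with `R = 1/10 + Ls/100`, `R/A ≤ 2R/n ≤ Ls/n`.
If `Ls = 0`: `gs ≤ (M-1) n + M r` (an integer), PRR with `R = 0`. -/
def Stmt_UFR : Prop :=
  ∀ M r : ℕ, 2 ≤ M → 2 ≤ r → ∃ δ : ℝ, 0 < δ ∧ ∃ n0 : ℕ, ∀ n k t : ℕ, n0 ≤ n → Even n →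
    M * k = (M - 1) * n + t → (t : ℝ) ^ r ≤ δ * (n : ℝ) ^ (r - 1) →
    M ^ M * P n k ≤ n ^ (k - M) * ((M - 1) * n + M * r) ^ M

end Pool.Agent.Work.MP_1ce445_stm
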